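import Mathlib

/-!
# Real valuations of a field and Taylor coefficients along a derivation
-/

set_option autoImplicit false

open Finset

namespace Pool.Agent.H15JM

/-- A real valuation of a field `K`, given by its values on the nonzero elements (the value at
`0` is irrelevant). -/
structure RVal (K : Type*) [Field K] where
  /-- the function -/
  toFun : K → ℝ
  map_mul' : ∀ x y, x ≠ 0 → y ≠ 0 → toFun (x * y) = toFun x + toFun y
  map_add' : ∀ x y, x ≠ 0 → y ≠ 0 → x + y ≠ 0 → min (toFun x) (toFun y) ≤ toFun (x + y)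

instance {K : Type*} [Field K] : CoeFun (RVal K) fun _ => K → ℝ := ⟨RVal.toFun⟩

namespace RVal

variable {K : Type*} [Field K] (v : RVal K)

theorem map_mul {x y : K} (hx : x ≠ 0) (hy : y ≠ 0) : v (x * y) = v x + v y :=
  v.map_mul' x y hx hy

theorem map_add {x y : K} (hx : x ≠ 0) (hy : y ≠ 0) (hxy : x + y ≠ 0) :
    min (v x) (v y) ≤ v (x + y) :=
  v.map_add' x y hx hy hxy

theorem map_one : v 1 = 0 := by
  have := v.map_mul (one_ne_zero (α := K)) one_ne_zero
  rw [mul_one] at this
  linarith

theorem map_neg_one : v (-1) = 0 := by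
  have h := v.map_mul (neg_ne_zero.mpr (one_ne_zero (α := K))) (neg_ne_zero.mpr one_ne_zero)
  rw [neg_mul_neg, mul_one, v.map_one] at h
  linarith

theorem map_neg (x : K) (hx : x ≠ 0) : v (-x) = v x := by
  have h := v.map_mul (neg_ne_zero.mpr (one_ne_zero (α := K))) hx
  rw [neg_one_mul, v.map_neg_one, zero_add] at h
  exact h

theorem map_inv {x : K} (hx : x ≠ 0) : v x⁻¹ = - v x := by
  have h := v.map_mul hx (inv_ne_zero hx)
  rw [mul_inv_cancel₀ hx, v.map_one] at h
  linarith

theorem map_div {x y : K} (hx : x ≠ 0) (hy : y ≠ 0) : v (x / y) = v x - v y := by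
  rw [div_eq_mul_inv, v.map_mul hx (inv_ne_zero hy), v.map_inv hy, sub_eq_add_neg]

theorem map_pow {x : K} (hx : x ≠ 0) (m : ℕ) : v (x ^ m) = m * v x := by
  induction m with
  | zero => simp [v.map_one]
  | succ m ih =>
    rw [pow_succ, v.map_mul (pow_ne_zero m hx) hx, ih]
    push_cast
    ring

theorem map_zpow {x : K} (hx : x ≠ 0) (m : ℤ) : v (x ^ m) = m * v x := by
  cases m with
  | ofNat m => simp [v.map_pow hx]
  | negSucc m =>
    rw [zpow_negSucc, v.map_inv (pow_ne_zero _ hx), v.map_pow hx]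
    push_cast
    ring

theorem map_prod {ι : Type*} (s : Finset ι) (f : ι → K) (hf : ∀ i ∈ s, f i ≠ 0) :
    v (∏ i ∈ s, f i) = ∑ i ∈ s, v (f i) := by
  classical
  induction s using Finset.induction_on with
  | empty => simp [v.map_one]
  | insert a s ha ih =>
    rw [Finset.prod_insert ha, Finset.sum_insert ha,
      v.map_mul (hf a (Finset.mem_insert_self a s))
        (Finset.prod_ne_zero_iff.mpr fun i hi => hf i (Finset.mem_insert_of_mem hi)),
      ih fun i hi => hf i (Finset.mem_insert_of_mem hi)]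

/-- If `v x < v y` then `x + y` is not zero and has value `v x`. -/
theorem add_of_lt {x y : K} (hx : x ≠ 0) (hy : y ≠ 0) (h : v x < v y) :
    x + y ≠ 0 ∧ v (x + y) = v x := by
  have hne : x + y ≠ 0 := by
    intro h0
    rw [eq_neg_of_add_eq_zero_left h0, v.map_neg y hy] at h
    exact lt_irrefl _ h
  refine ⟨hne, le_antisymm ?_ ?_⟩
  · by_contra hcon
    push Not at hcon
    have h1 := v.map_add hne (neg_ne_zero.mpr hy) (by simpa using hx)
    rw [v.map_neg y hy, add_neg_cancel_right] at h1
    have : v x < min (v (x + y)) (v y) := lt_min hcon h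
    linarith
  · have := v.map_add hx hy hne
    rwa [min_eq_left h.le] at this

/-- `v.Ge c x` means that `x` is zero or has value at least `c`. -/
def Ge (c : ℝ) (x : K) : Prop := x ≠ 0 → c ≤ v x

variable {v}

theorem Ge.zero {c : ℝ} : v.Ge c 0 := fun h => absurd rfl h

theorem Ge.mono {c c' : ℝ} (h : c' ≤ c) {x : K} (hx : v.Ge c x) : v.Ge c' x :=
  fun h0 => h.trans (hx h0)

theorem Ge.add {c : ℝ} {x y : K} (hx : v.Ge c x) (hy : v.Ge c y) : v.Ge c (x + y) := by
  intro hxy
  by_cases h1 : x = 0
  · subst h1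
    rw [zero_add] at hxy ⊢
    exact hy hxy
  by_cases h2 : y = 0
  · subst h2
    rw [add_zero] at hxy ⊢
    exact hx hxy
  exact (le_min (hx h1) (hy h2)).trans (v.map_add h1 h2 hxy)

theorem Ge.neg {c : ℝ} {x : K} (hx : v.Ge c x) : v.Ge c (-x) := by
  intro h
  have h' : x ≠ 0 := by simpa using h
  rw [v.map_neg x h']
  exact hx h'

theorem Ge.sub {c : ℝ} {x y : K} (hx : v.Ge c x) (hy : v.Ge c y) : v.Ge c (x - y) := by
  rw [sub_eq_add_neg]
  exact hx.add hy.neg

theorem Ge.mul {c d : ℝ} {x y : K} (hx : v.Ge c x) (hy : v.Ge d y) : v.Ge (c + d) (x * y) := by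
  intro h
  have h1 := left_ne_zero_of_mul h
  have h2 := right_ne_zero_of_mul h
  rw [v.map_mul h1 h2]
  exact add_le_add (hx h1) (hy h2)

theorem Ge.sum {ι : Type*} {c : ℝ} (s : Finset ι) (f : ι → K) (hf : ∀ i ∈ s, v.Ge c (f i)) :
    v.Ge c (∑ i ∈ s, f i) := by
  classical
  induction s using Finset.induction_on with
  | empty => simpa using Ge.zero
  | insert a s ha ih =>
    rw [Finset.sum_insert ha]
    exact (hf a (Finset.mem_insert_self a s)).add (ih fun i hi => hf i (Finset.mem_insert_of_mem hi))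

theorem Ge.prod {ι : Type*} (c : ι → ℝ) (s : Finset ι) (f : ι → K)
    (hf : ∀ i ∈ s, v.Ge (c i) (f i)) : v.Ge (∑ i ∈ s, c i) (∏ i ∈ s, f i) := by
  classical
  induction s using Finset.induction_on with
  | empty =>
    intro _
    simp [v.map_one]
  | insert a s ha ih =>
    rw [Finset.sum_insert ha, Finset.prod_insert ha]
    exact (hf a (Finset.mem_insert_self a s)).mul (ih fun i hi => hf i (Finset.mem_insert_of_mem hi))

theorem Ge.of_le {c : ℝ} {x : K} (h : c ≤ v x) : v.Ge c x := fun _ => h

theorem ge_self (x : K) : v.Ge (v x) x := fun _ => le_rfl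

end RVal

section Taylor

variable {k K : Type*} [Field k] [Field K] [Algebra k K]

/-- The divided powers `D^m / m!` of a derivation of a field (of characteristic zero). -/
noncomputable def dd (D : Derivation k K K) (m : ℕ) (f : K) : K :=
  ((m.factorial : K))⁻¹ * (D^[m] f)

/-- The Jacobian determinant of a tuple with respect to a family of derivations. -/
noncomputable def jacD {n : ℕ} (D : Fin n → Derivation k K K) (f : Fin n → K) : K :=
  Matrix.det (Matrix.of fun j i => D j (f i))

/-- `IsG v D γ f V Q`: the minimum of `v (dd D m f) + m γ` over all `m` with `dd D m f ≠ 0` is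
`V`, and `Q` is the smallest `m` that attains it. -/
def IsG (v : RVal K) (D : Derivation k K K) (γ : ℝ) (f : K) (V : ℝ) (Q : ℕ) : Prop :=
  dd D Q f ≠ 0 ∧ v (dd D Q f) + Q * γ = V ∧
    (∀ m, dd D m f ≠ 0 → V ≤ v (dd D m f) + m * γ) ∧
    (∀ m, m < Q → dd D m f ≠ 0 → V < v (dd D m f) + m * γ)

end Taylor

end Pool.Agent.H15JM
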