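import Pool.Agent.Lib.JM_H15.Tay

/-!
# The log discrepancy of `V_γ` (OWNER: helper15)
-/

set_option autoImplicit false

open Finset

namespace Pool.Agent.H15JM

variable {k K : Type*} [Field k] [Field K] [Algebra k K]

theorem jacD_update {n : ℕ} (D : Fin n → Derivation k K K) (h : Fin n → K) (g : K) (i : Fin n) :
    jacD D (Function.update h i g)
      = ((Matrix.of fun j i => D j (h i)).updateCol i fun j => D j g).det := by
  rw [jacD]
  congr 1
  ext j i'
  by_cases hi : i' = i
  · subst hi
    simp
  · simp [Matrix.updateCol_ne hi, Function.update_of_ne hi]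

/-- Cramer's identity: `J(h) * D_l g = ∑_i D_l h_i * J(h; h_i replaced by g)`. -/
theorem jacD_mul {n : ℕ} (D : Fin n → Derivation k K K) (h : Fin n → K) (g : K) (l : Fin n) :
    jacD D h * D l g = ∑ i, D l (h i) * jacD D (Function.update h i g) := by
  have h1 := congrFun (Matrix.mulVec_cramer (Matrix.of fun j i => D j (h i)) fun j => D j g) l
  rw [Pi.smul_apply, smul_eq_mul] at h1
  rw [jacD, ← h1, Matrix.mulVec, dotProduct]
  refine Finset.sum_congr rfl fun i _ => ?_
  rw [Matrix.cramer_apply, jacD_update]
  rfl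

/-- Linearity in one function. -/
theorem jacD_update_comb {n : ℕ} (D : Fin n → Derivation k K K) (h : Fin n → K) (i : Fin n)
    (x a b α β : K) (hx : ∀ j, D j x = α * D j a + β * D j b) :
    jacD D (Function.update h i x)
      = α * jacD D (Function.update h i a) + β * jacD D (Function.update h i b) := by
  rw [jacD_update, jacD_update, jacD_update]
  have : (fun j => D j x) = α • (fun j => D j a) + β • (fun j => D j b) := by
    ext j
    simp [hx]
  rw [this, Matrix.det_updateCol_add, Matrix.det_updateCol_smul, Matrix.det_updateCol_smul]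

/-- If all `Σ v(f_i) - v(J f) ≤ A`, and `v g - v (D_l g) ≥ c` for one `g`, then
`J h` has value at least `∑ a_i - b + c - A` as soon as `v (h_i) ≥ a_i` and
`v (D_l h_i) ≥ a_i - b` for all `i`. -/
theorem jacD_ge {n : ℕ} (v : RVal K) (D : Fin n → Derivation k K K) (A c b : ℝ) (l : Fin n)
    (hA : ∀ f : Fin n → K, jacD D f ≠ 0 → ∑ i, v (f i) - v (jacD D f) ≤ A)
    (g : K) (hg : D l g ≠ 0) (hc : c ≤ v g - v (D l g))
    (h : Fin n → K) (a : Fin n → ℝ) (ha : ∀ i, v.Ge (a i) (h i))
    (hb : ∀ i, v.Ge (a i - b) (D l (h i))) :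
    v.Ge (∑ i, a i - b + c - A) (jacD D h) := by
  have h1 : v.Ge (∑ i, a i - b + v g - A) (jacD D h * D l g) := by
    rw [jacD_mul]
    refine RVal.Ge.sum _ _ fun i _ => ?_
    have h2 : v.Ge (∑ i' ∈ Finset.univ.erase i, a i' + v g - A) (jacD D (Function.update h i g)) := by
      intro hne
      have h3 := hA _ hne
      have h0 : ∀ i' ∈ Finset.univ.erase i, h i' ≠ 0 := by
        intro i' hi' h0
        apply hne
        rw [jacD]
        apply Matrix.det_eq_zero_of_column_eq_zero i'
        intro j
        rw [Matrix.of_apply, Function.update_of_ne (Finset.ne_of_mem_erase hi'), h0,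
          _root_.map_zero]
      rw [← Finset.add_sum_erase _ _ (Finset.mem_univ i), Function.update_self] at h3
      have h4 : ∑ i' ∈ Finset.univ.erase i, a i'
          ≤ ∑ i' ∈ Finset.univ.erase i, v (Function.update h i g i') := by
        refine Finset.sum_le_sum fun i' hi' => ?_
        rw [Function.update_of_ne (Finset.ne_of_mem_erase hi')]
        exact ha i' (h0 i' hi')
      linarith
    have h5 := (hb i).mul h2
    refine h5.mono ?_
    rw [← Finset.add_sum_erase _ _ (Finset.mem_univ i)]
    linarith
  intro hne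
  have h6 := h1 (mul_ne_zero hne hg)
  rw [v.map_mul hne hg] at h6
  linarith

variable [CharZero K]

/-- The log discrepancy of `V_γ` is at most `A - (γ' - γ)`. -/
theorem disc_drop {n : ℕ} (v : RVal K) (hn : ∀ m : ℕ, m ≠ 0 → v ((m : K)) = 0)
    (D : Fin n → Derivation k K K) (hcomm : ∀ i j f, D i (D j f) = D j (D i f)) (l : Fin n)
    (R : Subring K) (hR : ∀ i, ∀ f ∈ R, D i f ∈ R)
    (hfrac : ∀ x : K, ∃ a ∈ R, ∃ b ∈ R, b ≠ 0 ∧ x = a / b) (A γ' γ : ℝ)
    (hA : ∀ f : Fin n → K, jacD D f ≠ 0 → ∑ i, v (f i) - v (jacD D f) ≤ A)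
    (hγ' : ∀ ε > 0, ∃ g, D l g ≠ 0 ∧ γ' - ε ≤ v g - v (D l g))
    (V : RVal K) (hV : ∀ f ∈ R, f ≠ 0 → ∃ Q, IsG v (D l) γ f (V f) Q)
    (f : Fin n → K) (hf : jacD D f ≠ 0) :
    ∑ i, V (f i) - V (jacD D f) ≤ A - (γ' - γ) := by
  classical
  have hfne : ∀ f : Fin n → K, jacD D f ≠ 0 → ∀ i, f i ≠ 0 := by
    intro f hf i h0
    apply hf
    rw [jacD]
    apply Matrix.det_eq_zero_of_column_eq_zero i
    intro j
    rw [Matrix.of_apply, h0, _root_.map_zero]
  have hJR : ∀ f : Fin n → K, (∀ i, f i ∈ R) → jacD D f ∈ R := by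
    intro f hf
    rw [jacD, Matrix.det_apply]
    refine R.sum_mem fun σ _ => ?_
    have h1 : ∏ i, (Matrix.of fun j i => D j (f i)) (σ i) i ∈ R :=
      R.prod_mem fun i _ => hR _ _ (hf _)
    rcases Int.units_eq_one_or (Equiv.Perm.sign σ) with h | h
    · rw [h, one_smul]; exact h1
    · rw [h, Units.neg_smul, one_smul]; exact R.neg_mem h1
  -- functions in R
  have key : ∀ f : Fin n → K, (∀ i, f i ∈ R) → (∀ i, f i ≠ 0) →
      V.Ge (∑ i, V (f i) - (A - (γ' - γ))) (jacD D f) := by
    intro f hfR hf0 hJ
    obtain ⟨Q, hQ⟩ := hV _ (hJR f hfR) hJ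
    have hG : ∀ i, ∀ m : ℕ, v.Ge (V (f i) - m * γ) (dd (D l) m (f i)) := by
      intro i m hm
      obtain ⟨Qi, hQi⟩ := hV _ (hfR i) (hf0 i)
      have := hQi.2.2.1 m hm
      linarith
    refine le_of_forall_pos_le_add fun ε hε => ?_
    obtain ⟨g, hg, hgc⟩ := hγ' ε hε
    have h1 : v.Ge (∑ i, V (f i) - Q * γ - γ + (γ' - ε) - A) (dd (D l) Q (jacD D f)) := by
      rw [dd_jacD D (D l) (fun j f => hcomm l j f)]
      refine RVal.Ge.sum _ _ fun s hs => ?_
      have hs' : ∑ i, s i = Q := (Finset.mem_finsuppAntidiag.mp hs).1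
      have h2 := jacD_ge v D A (γ' - ε) γ l hA g hg hgc (fun i => dd (D l) (s i) (f i))
        (fun i => V (f i) - s i * γ) (fun i => hG i (s i)) (by
          intro i
          rw [D_dd]
          have h3 : v.Ge 0 (((s i : ℕ) : K) + 1) := by
            intro _
            have := hn (s i + 1) (Nat.succ_ne_zero _)
            push_cast at this
            exact this.ge
          refine (h3.mul (hG i (s i + 1))).mono ?_
          push_cast
          linarith)
      refine h2.mono ?_
      rw [Finset.sum_sub_distrib, ← Finset.sum_mul, ← Nat.cast_sum, hs']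
    have h4 := h1 hQ.1
    have h5 := hQ.2.1
    linarith
  -- general functions
  have key2 : ∀ s : Finset (Fin n), ∀ f : Fin n → K, (∀ i, i ∉ s → f i ∈ R) → (∀ i, f i ≠ 0) →
      V.Ge (∑ i, V (f i) - (A - (γ' - γ))) (jacD D f) := by
    intro s
    induction s using Finset.induction_on with
    | empty => exact fun f hf hf0 => key f (fun i => hf i (Finset.notMem_empty i)) hf0
    | insert i₀ s hi₀ ih =>
      intro f hf hf0
      obtain ⟨a, ha, b, hb, hb0, hab⟩ := hfrac (f i₀)
      have ha0 : a ≠ 0 := by
        rintro rfl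
        rw [zero_div] at hab
        exact hf0 i₀ hab
      have hup : ∀ x ∈ R, x ≠ 0 → V.Ge (∑ i ∈ Finset.univ.erase i₀, V (f i) + V x - (A - (γ' - γ)))
          (jacD D (Function.update f i₀ x)) := by
        intro x hx hx0
        have h1 := ih (Function.update f i₀ x) (by
          intro i hi
          by_cases h : i = i₀
          · subst h; rw [Function.update_self]; exact hx
          · rw [Function.update_of_ne h]
            exact hf i (by simp [h, hi])) (by
          intro i
          by_cases h : i = i₀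
          · subst h; rw [Function.update_self]; exact hx0
          · rw [Function.update_of_ne h]
            exact hf0 i)
        refine h1.mono ?_
        rw [← Finset.add_sum_erase _ _ (Finset.mem_univ i₀), Function.update_self]
        have : ∑ i ∈ Finset.univ.erase i₀, V (Function.update f i₀ x i)
            = ∑ i ∈ Finset.univ.erase i₀, V (f i) :=
          Finset.sum_congr rfl fun i hi => by
            rw [Function.update_of_ne (Finset.ne_of_mem_erase hi)]
        rw [this]
        linarith
      have hcomb := jacD_update_comb D f i₀ (f i₀) a b b⁻¹ (-(a / b ^ 2)) (by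
        intro j
        rw [hab]
        have h := (D j).leibniz (a / b) b
        rw [div_mul_cancel₀ _ hb0, smul_eq_mul, smul_eq_mul] at h
        field_simp
        field_simp at h
        linear_combination -h)
      rw [Function.update_eq_self] at hcomb
      rw [hcomb]
      have hVf : V (f i₀) = V a - V b := by rw [hab, V.map_div ha0 hb0]
      have h1 : V.Ge (- V b) (b⁻¹) := by
        intro _
        rw [V.map_inv hb0]
      have h2 : V.Ge (V a - 2 * V b) (-(a / b ^ 2)) := by
        apply RVal.Ge.neg
        intro _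
        rw [V.map_div ha0 (pow_ne_zero 2 hb0), V.map_pow hb0]
        push_cast
        exact le_rfl
      have h3 := h1.mul (hup a ha ha0)
      have h4 := h2.mul (hup b hb hb0)
      refine RVal.Ge.add (h3.mono ?_) (h4.mono ?_)
      · rw [← Finset.add_sum_erase _ _ (Finset.mem_univ i₀), hVf]
        linarith
      · rw [← Finset.add_sum_erase _ _ (Finset.mem_univ i₀), hVf]
        linarith
  have h := key2 Finset.univ f (fun i hi => absurd (Finset.mem_univ i) hi) (hfne f hf) hf
  linarith

end Pool.Agent.H15JM
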