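import Pool.Agent.Lib.JM_H15.Gauss

/-!
# The valuation `V_γ` on a general ring
-/

set_option autoImplicit false

open Finset

namespace Pool.Agent.H15JM

variable {k K : Type*} [Field k] [Field K] [Algebra k K] [CharZero K]
variable {v : RVal K} {D : Derivation k K K} {γ : ℝ}

/-- `V_γ` extends to a valuation of the field if every element is a quotient of elements of `R`. -/
theorem exists_gauss' (R : Subring K) (hex0 : ∀ f ∈ R, f ≠ 0 → ∃ V Q, IsG v D γ f V Q)
    (hfrac : ∀ x : K, ∃ a ∈ R, ∃ b ∈ R, b ≠ 0 ∧ x = a / b) :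
    ∃ V : RVal K, ∀ f ∈ R, f ≠ 0 → ∃ Q, IsG v D γ f (V f) Q := by
  choose a ha b hb hb0 hab using hfrac
  have hex : ∀ f ∈ R, f ≠ 0 → ∃ Q, IsG v D γ f (gval v D γ f) Q := by
    intro f hf hf0
    obtain ⟨V, Q, h⟩ := hex0 f hf hf0
    exact ⟨Q, by rw [gval_eq h]; exact h⟩
  have hmul : ∀ f ∈ R, ∀ g ∈ R, f ≠ 0 → g ≠ 0 →
      gval v D γ (f * g) = gval v D γ f + gval v D γ g := by
    intro f hf g hg hf0 hg0
    obtain ⟨Q, h⟩ := hex f hf hf0
    obtain ⟨Q', h'⟩ := hex g hg hg0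
    exact gval_eq (h.mul h')
  have hadd : ∀ f ∈ R, ∀ g ∈ R, f ≠ 0 → g ≠ 0 → f + g ≠ 0 →
      min (gval v D γ f) (gval v D γ g) ≤ gval v D γ (f + g) := by
    intro f hf g hg hf0 hg0 hfg
    obtain ⟨Q, h⟩ := hex f hf hf0
    obtain ⟨Q', h'⟩ := hex g hg hg0
    obtain ⟨Q'', h''⟩ := hex (f + g) (R.add_mem hf hg) hfg
    have h3 := h.add_le h' h''
    rcases min_le_iff.mp h3 with h4 | h4
    · rw [Prod.Lex.toLex_le_toLex] at h4
      refine (min_le_left _ _).trans ?_
      rcases h4 with h4 | h4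
      · exact h4.le
      · exact h4.1.le
    · rw [Prod.Lex.toLex_le_toLex] at h4
      refine (min_le_right _ _).trans ?_
      rcases h4 with h4 | h4
      · exact h4.le
      · exact h4.1.le
  have ha0 : ∀ x : K, x ≠ 0 → a x ≠ 0 := by
    intro x hx h
    apply hx
    rw [hab x, h, zero_div]
  let W : K → ℝ := fun x => gval v D γ (a x) - gval v D γ (b x)
  have hW : ∀ x c d : K, x ≠ 0 → c ∈ R → d ∈ R → d ≠ 0 → x = c / d →
      W x = gval v D γ c - gval v D γ d := by
    intro x c d hx hc hd hd0 hxe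
    have hc0 : c ≠ 0 := by
      intro h
      apply hx
      rw [hxe, h, zero_div]
    have h1 : a x * d = c * b x := by
      have h2 := hab x
      rw [hxe] at h2
      rw [div_eq_div_iff hd0 (hxe ▸ hb0 x)] at h2
      rw [hxe]
      exact h2.symm
    have h3 := hmul (a x) (ha x) d hd (ha0 x hx) hd0
    have h4 := hmul c hc (b x) (hb x) hc0 (hb0 x)
    rw [h1] at h3
    simp only [W]
    linarith
  refine ⟨⟨W, ?_, ?_⟩, ?_⟩
  · intro x y hx hy
    have h1 := hW (x * y) (a x * a y) (b x * b y) (mul_ne_zero hx hy)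
      (R.mul_mem (ha x) (ha y)) (R.mul_mem (hb x) (hb y)) (mul_ne_zero (hb0 x) (hb0 y))
      (by conv_lhs => rw [hab x, hab y]
          rw [div_mul_div_comm])
    rw [h1, hmul _ (ha x) _ (ha y) (ha0 x hx) (ha0 y hy),
      hmul _ (hb x) _ (hb y) (hb0 x) (hb0 y)]
    simp only [W]
    ring
  · intro x y hx hy hxy
    have he : x + y = (a x * b y + b x * a y) / (b x * b y) := by
      conv_lhs => rw [hab x, hab y]
      rw [div_add_div _ _ (hb0 x) (hb0 y)]
    have hn : a x * b y + b x * a y ≠ 0 := by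
      intro h
      apply hxy
      rw [he, h, zero_div]
    have h1 := hW (x + y) (a x * b y + b x * a y) (b x * b y) hxy
      (R.add_mem (R.mul_mem (ha x) (hb y)) (R.mul_mem (hb x) (ha y)))
      (R.mul_mem (hb x) (hb y)) (mul_ne_zero (hb0 x) (hb0 y)) he
    have h2 := hadd (a x * b y) (R.mul_mem (ha x) (hb y)) (b x * a y) (R.mul_mem (hb x) (ha y))
      (mul_ne_zero (ha0 x hx) (hb0 y)) (mul_ne_zero (hb0 x) (ha0 y hy)) hn
    rw [hmul _ (ha x) _ (hb y) (ha0 x hx) (hb0 y), hmul _ (hb x) _ (ha y) (hb0 x) (ha0 y hy)] at h2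
    rw [h1, hmul _ (hb x) _ (hb y) (hb0 x) (hb0 y)]
    simp only [W]
    rcases min_le_iff.mp h2 with h3 | h3
    · exact (min_le_left _ _).trans (by linarith)
    · exact (min_le_right _ _).trans (by linarith)
  · intro f hf hf0
    obtain ⟨Q, h⟩ := hex f hf hf0
    refine ⟨Q, ?_⟩
    have h1 := hW f f 1 hf0 hf R.one_mem one_ne_zero (by rw [div_one])
    have h2 : gval v D γ (1 : K) = 0 := by
      have h3 := hmul 1 R.one_mem 1 R.one_mem one_ne_zero one_ne_zero
      rw [mul_one] at h3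
      linarith
    have h4 : W f = gval v D γ f := by rw [h1, h2, sub_zero]
    show IsG v D γ f (W f) Q
    rw [h4]
    exact h

/-- Existence of the minimum if the Taylor series is bounded on a larger disc. -/
theorem exists_isG' {γ₀ C : ℝ} (hγ : γ₀ < γ) (f : K) (hf0 : f ≠ 0)
    (hC : ∀ m : ℕ, v.Ge (C - m * γ₀) (dd D m f)) : ∃ V Q, IsG v D γ f V Q := by
  classical
  -- only finitely many indices matter
  obtain ⟨M, hM⟩ := exists_nat_gt ((v f - C) / (γ - γ₀))
  have hδ : 0 < γ - γ₀ := by linarith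
  have hbig : ∀ m : ℕ, M ≤ m → v.Ge (v f + 1 * 0) (dd D m f) ∨ v.Gt (v f - m * γ) (dd D m f) := by
    intro m hm
    right
    intro hne
    have h1 := hC m hne
    have h2 : (v f - C) < M * (γ - γ₀) := by rwa [div_lt_iff₀ hδ] at hM
    have h3 : (M : ℝ) * (γ - γ₀) ≤ m * (γ - γ₀) :=
      mul_le_mul_of_nonneg_right (by exact_mod_cast hm) hδ.le
    linarith
  let S : Finset ℕ := (range (M + 1)).filter fun m => dd D m f ≠ 0
  have h0S : 0 ∈ S := by
    simp only [S, mem_filter, mem_range]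
    exact ⟨Nat.succ_pos M, by rw [dd_zero]; exact hf0⟩
  obtain ⟨m₀, hm₀, hmin⟩ := S.exists_min_image (fun m => v (dd D m f) + m * γ) ⟨0, h0S⟩
  have hall : ∀ m, dd D m f ≠ 0 → v (dd D m₀ f) + m₀ * γ ≤ v (dd D m f) + m * γ := by
    intro m hm
    by_cases hmM : m < M + 1
    · exact hmin m (by simp only [S, mem_filter, mem_range]; exact ⟨hmM, hm⟩)
    · have h1 := hmin 0 h0S
      simp only [dd_zero, Nat.cast_zero, zero_mul, add_zero] at h1
      push Not at hmM
      rcases hbig m (by omega) with h2 | h2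
      · have hbad := hC m hm
        have h3 : (v f - C) < M * (γ - γ₀) := by rwa [div_lt_iff₀ hδ] at hM
        have h4 : (M : ℝ) * (γ - γ₀) ≤ m * (γ - γ₀) :=
          mul_le_mul_of_nonneg_right (by exact_mod_cast (by omega : M ≤ m)) hδ.le
        linarith
      · have h3 := h2 hm
        linarith
  have hex : ∃ m, dd D m f ≠ 0 ∧ v (dd D m f) + m * γ = v (dd D m₀ f) + m₀ * γ := by
    simp only [S, mem_filter] at hm₀
    exact ⟨m₀, hm₀.2, rfl⟩
  refine ⟨v (dd D m₀ f) + m₀ * γ, Nat.find hex, (Nat.find_spec hex).1, (Nat.find_spec hex).2,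
    hall, ?_⟩
  intro m hm hne
  refine lt_of_le_of_ne (hall m hne) fun h => ?_
  exact Nat.find_min hex hm ⟨hne, h.symm⟩

end Pool.Agent.H15JM
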