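import Pool.Agent.Lib.JM_H15.Gauss

/-!
# Elements whose Taylor series converges beyond the critical radius

`w` is a valuation of the field `Ω` (residue characteristic `0`), `E` a derivation with
`w f < w (E f) + γ'` for all `f`. `Good w E γ' f`: the Taylor series `∑ dd E m f s^m` is bounded on
a disc `{w s ≥ γ}` for some `γ < γ'`.
-/

set_option autoImplicit false

open Finset

namespace Pool.Agent.H15JM

namespace RVal

variable {Ω : Type*} [Field Ω]

/-- The power series `F` has Gauss norm at least `C` on the disc `{w s ≥ γ}`. -/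
def GeS (w : RVal Ω) (γ C : ℝ) (F : PowerSeries Ω) : Prop :=
  ∀ m : ℕ, w.Ge (C - m * γ) (PowerSeries.coeff m F)

variable {w : RVal Ω} {γ : ℝ}

theorem Ge.one : w.Ge 0 (1 : Ω) := fun _ => w.map_one.ge

theorem Ge.natCast (m : ℕ) : w.Ge 0 ((m : ℕ) : Ω) := by
  induction m with
  | zero => rw [Nat.cast_zero]; exact Ge.zero
  | succ m ih => rw [Nat.cast_succ]; exact ih.add Ge.one

theorem Ge.pow {c : ℝ} {x : Ω} (hx : w.Ge c x) (i : ℕ) : w.Ge (i * c) (x ^ i) := by
  induction i with
  | zero => rw [pow_zero, Nat.cast_zero, zero_mul]; exact Ge.one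
  | succ i ih =>
    rw [pow_succ]
    refine (ih.mul hx).mono (le_of_eq ?_)
    push_cast
    ring

theorem GeS.mono {C C' : ℝ} (h : C' ≤ C) {F : PowerSeries Ω} (hF : w.GeS γ C F) :
    w.GeS γ C' F := fun m => (hF m).mono (by linarith)

theorem GeS.one : w.GeS γ 0 (1 : PowerSeries Ω) := by
  intro m
  rw [PowerSeries.coeff_one]
  split_ifs with h
  · subst h
    simpa using Ge.one
  · exact Ge.zero

theorem GeS.mul {C C' : ℝ} {F G : PowerSeries Ω} (hF : w.GeS γ C F) (hG : w.GeS γ C' G) :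
    w.GeS γ (C + C') (F * G) := by
  intro m
  rw [PowerSeries.coeff_mul]
  refine Ge.sum _ _ fun ij hij => ?_
  have h : ij.1 + ij.2 = m := Finset.HasAntidiagonal.mem_antidiagonal.mp hij
  refine ((hF ij.1).mul (hG ij.2)).mono (le_of_eq ?_)
  rw [← h]
  push_cast
  ring

theorem GeS.pow {C : ℝ} {F : PowerSeries Ω} (hF : w.GeS γ C F) (i : ℕ) :
    w.GeS γ (i * C) (F ^ i) := by
  induction i with
  | zero => rw [pow_zero, Nat.cast_zero, zero_mul]; exact GeS.one
  | succ i ih =>
    rw [pow_succ]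
    refine (ih.mul hF).mono (le_of_eq ?_)
    push_cast
    ring

end RVal

variable {k Ω : Type*} [Field k] [Field Ω] [Algebra k Ω]

/-- The Taylor series of `f` along `E` is bounded on a disc that is larger than `{w s ≥ γ'}`. -/
def Good (w : RVal Ω) (E : Derivation k Ω Ω) (γ' : ℝ) (f : Ω) : Prop :=
  ∃ γ < γ', ∃ C : ℝ, ∀ m : ℕ, w.Ge (C - m * γ) (dd E m f)

variable [CharZero Ω] {w : RVal Ω} {E : Derivation k Ω Ω} {γ' : ℝ}

/-- The Taylor homomorphism. -/
noncomputable def tayHom (E : Derivation k Ω Ω) : Ω →+* PowerSeries Ω where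
  toFun := tay E
  map_one' := by
    ext m
    rw [coeff_tay, PowerSeries.coeff_one]
    split_ifs with hm
    · subst hm; simp
    · exact dd_one E m hm
  map_mul' f g := by
    ext m
    rw [PowerSeries.coeff_mul, coeff_tay, dd_mul]
    simp only [coeff_tay]
  map_zero' := by
    ext m
    rw [coeff_tay, dd_map_zero, _root_.map_zero]
  map_add' f g := by
    ext m
    rw [_root_.map_add, coeff_tay, coeff_tay, coeff_tay, dd_add]

theorem coeff_tayHom (E : Derivation k Ω Ω) (f : Ω) (m : ℕ) :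
    PowerSeries.coeff m (tayHom E f) = dd E m f := coeff_tay E f m

/-- `v f < v (dd m f) + m γ'` -/
theorem lt_dd' (hstrict : ∀ f, E f ≠ 0 → w f < w (E f) + γ')
    (hn : ∀ m : ℕ, m ≠ 0 → w ((m : Ω)) = 0) {f : Ω} {m : ℕ} (hm : m ≠ 0) (hf : dd E m f ≠ 0) :
    w f < w (dd E m f) + m * γ' :=
  lt_dd hstrict hn hm hf

theorem exists_pos_le (S : Finset ℕ) (g : ℕ → ℝ) (hg : ∀ m ∈ S, 0 < g m) :
    ∃ δ > 0, ∀ m ∈ S, δ ≤ g m := by
  classical
  induction S using Finset.induction_on with
  | empty => exact ⟨1, one_pos, fun m hm => absurd hm (Finset.notMem_empty m)⟩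
  | insert a S ha ih =>
    obtain ⟨δ, hδ, h⟩ := ih fun m hm => hg m (Finset.mem_insert_of_mem hm)
    refine ⟨min (g a) δ, lt_min (hg a (Finset.mem_insert_self a S)) hδ, fun m hm => ?_⟩
    rcases Finset.mem_insert.mp hm with rfl | hm
    · exact min_le_left _ _
    · exact (min_le_right _ _).trans (h m hm)

/-- A good element is close to its value at `s = 0` on a disc larger than `{w s ≥ γ'}`. (Large
`m`: room from `Good`; the finitely many small `m`: strictness.) -/
theorem Good.uniform (hstrict : ∀ f, E f ≠ 0 → w f < w (E f) + γ')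
    (hn : ∀ m : ℕ, m ≠ 0 → w ((m : Ω)) = 0) {f : Ω} (hf : Good w E γ' f) (hf0 : f ≠ 0) :
    ∃ γ < γ', ∃ ε > 0, ∀ m : ℕ, m ≠ 0 → w.Ge (w f + ε - m * γ) (dd E m f) := by
  classical
  obtain ⟨γ₁, hγ₁, C, hC⟩ := hf
  obtain ⟨N, hN⟩ := exists_nat_gt ((w f + 1 - C) / ((γ' - γ₁) / 2))
  have hpos : 0 < (γ' - γ₁) / 2 := by linarith
  rw [div_lt_iff₀ hpos] at hN
  obtain ⟨δ, hδ, hδ'⟩ := exists_pos_le
    ((Finset.range (N + 1)).filter fun m => m ≠ 0 ∧ dd E m f ≠ 0)
    (fun m => w (dd E m f) + m * γ' - w f) (by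
      intro m hm
      have h := (Finset.mem_filter.mp hm).2
      have := lt_dd' hstrict hn h.1 h.2
      linarith)
  have hN1 : (0 : ℝ) < (N : ℝ) + 1 := by positivity
  refine ⟨max ((γ₁ + γ') / 2) (γ' - δ / (2 * (N + 1))), max_lt (by linarith) ?_, min 1 (δ / 2),
    lt_min one_pos (by linarith), fun m hm h0 => ?_⟩
  · have : 0 < δ / (2 * ((N : ℝ) + 1)) := by positivity
    linarith
  · have hm0 : (0 : ℝ) ≤ m := Nat.cast_nonneg m
    by_cases hmN : m ≤ N
    · have h1 := hδ' m (Finset.mem_filter.mpr ⟨Finset.mem_range.mpr (Nat.lt_succ_of_le hmN), hm, h0⟩)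
      have h2 : γ' - δ / (2 * (N + 1)) ≤ max ((γ₁ + γ') / 2) (γ' - δ / (2 * (N + 1))) :=
        le_max_right _ _
      have h3 := mul_le_mul_of_nonneg_left h2 hm0
      have h4 : (m : ℝ) * (δ / (2 * (N + 1))) ≤ δ / 2 := by
        have h5 : (m : ℝ) ≤ N + 1 := by
          have : (m : ℝ) ≤ N := by exact_mod_cast hmN
          linarith
        calc (m : ℝ) * (δ / (2 * (N + 1))) ≤ (N + 1) * (δ / (2 * (N + 1))) :=
              mul_le_mul_of_nonneg_right h5 (by positivity)
          _ = δ / 2 := by field_simp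
      have h6 : min 1 (δ / 2) ≤ δ / 2 := min_le_right _ _
      have h7 : (m : ℝ) * (γ' - δ / (2 * (N + 1))) = m * γ' - m * (δ / (2 * (N + 1))) := by ring
      linarith
    · push Not at hmN
      have h1 := hC m h0
      have h2 : (γ₁ + γ') / 2 ≤ max ((γ₁ + γ') / 2) (γ' - δ / (2 * (N + 1))) := le_max_left _ _
      have h3 := mul_le_mul_of_nonneg_left h2 hm0
      have h4 : (N : ℝ) * ((γ' - γ₁) / 2) ≤ m * ((γ' - γ₁) / 2) :=
        mul_le_mul_of_nonneg_right (by exact_mod_cast hmN.le) hpos.le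
      have h6 : min 1 (δ / 2) ≤ 1 := min_le_left _ _
      have h7 : (m : ℝ) * ((γ₁ + γ') / 2) = m * γ₁ + m * ((γ' - γ₁) / 2) := by ring
      linarith

theorem good_of_E_eq_zero {f : Ω} (hf : E f = 0) : Good w E γ' f := by
  refine ⟨γ' - 1, by linarith, w f, fun m => ?_⟩
  by_cases hm : m = 0
  · subst hm
    rw [dd_zero]
    simpa using w.ge_self f
  · rw [dd_of_D_eq_zero E m hm f hf]
    exact RVal.Ge.zero

theorem good_of_E_eq_one {f : Ω} (hf : E f = 1) : Good w E γ' f := by
  refine ⟨γ' - 1, by linarith, min (w f) (γ' - 1), fun m => ?_⟩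
  rcases Nat.eq_zero_or_pos m with rfl | hm
  · rw [dd_zero]
    refine (w.ge_self f).mono ?_
    simp
  · obtain ⟨m, rfl⟩ := Nat.exists_eq_succ_of_ne_zero hm.ne'
    have h6 : (m : Ω) + 1 ≠ 0 := by exact_mod_cast Nat.succ_ne_zero m
    have h1 := dd_D E m f
    rw [hf] at h1
    rcases Nat.eq_zero_or_pos m with rfl | hm'
    · rw [dd_zero] at h1
      simp only [Nat.cast_zero, zero_add, one_mul] at h1
      simp only [Nat.succ_eq_add_one, zero_add]
      rw [← h1]
      refine (RVal.Ge.one).mono ?_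
      simp
    · rw [dd_one E m hm'.ne'] at h1
      rcases mul_eq_zero.mp h1.symm with h | h
      · exact absurd h h6
      · rw [Nat.succ_eq_add_one, h]
        exact RVal.Ge.zero

omit [CharZero Ω] in
theorem Good.add {f g : Ω} (hf : Good w E γ' f) (hg : Good w E γ' g) : Good w E γ' (f + g) := by
  obtain ⟨γ₁, hγ₁, C₁, h₁⟩ := hf
  obtain ⟨γ₂, hγ₂, C₂, h₂⟩ := hg
  refine ⟨max γ₁ γ₂, max_lt hγ₁ hγ₂, min C₁ C₂, fun m => ?_⟩
  rw [dd_add]
  have hm : (0 : ℝ) ≤ m := Nat.cast_nonneg m
  have e1 := mul_le_mul_of_nonneg_left (le_max_left γ₁ γ₂) hm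
  have e2 := mul_le_mul_of_nonneg_left (le_max_right γ₁ γ₂) hm
  exact ((h₁ m).mono (by linarith [min_le_left C₁ C₂])).add
    ((h₂ m).mono (by linarith [min_le_right C₁ C₂]))

omit [CharZero Ω] in
theorem Good.neg {f : Ω} (hf : Good w E γ' f) : Good w E γ' (-f) := by
  obtain ⟨γ₁, hγ₁, C₁, h₁⟩ := hf
  refine ⟨γ₁, hγ₁, C₁, fun m => ?_⟩
  rw [dd_neg]
  exact (h₁ m).neg

theorem Good.mul {f g : Ω} (hf : Good w E γ' f) (hg : Good w E γ' g) : Good w E γ' (f * g) := by
  obtain ⟨γ₁, hγ₁, C₁, h₁⟩ := hf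
  obtain ⟨γ₂, hγ₂, C₂, h₂⟩ := hg
  refine ⟨max γ₁ γ₂, max_lt hγ₁ hγ₂, C₁ + C₂, fun m => ?_⟩
  rw [dd_mul]
  refine RVal.Ge.sum _ _ fun ij hij => ?_
  have h : ij.1 + ij.2 = m := Finset.HasAntidiagonal.mem_antidiagonal.mp hij
  have hm1 : (0 : ℝ) ≤ ij.1 := Nat.cast_nonneg _
  have hm2 : (0 : ℝ) ≤ ij.2 := Nat.cast_nonneg _
  have e1 := mul_le_mul_of_nonneg_left (le_max_left γ₁ γ₂) hm1
  have e2 := mul_le_mul_of_nonneg_left (le_max_right γ₁ γ₂) hm2
  refine ((h₁ ij.1).mul (h₂ ij.2)).mono ?_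
  rw [← h]
  push_cast
  linarith

theorem Good.one : Good w E γ' (1 : Ω) := good_of_E_eq_zero E.map_one_eq_zero

theorem Good.zero : Good w E γ' (0 : Ω) := good_of_E_eq_zero (_root_.map_zero E)

theorem Good.natCast (m : ℕ) : Good w E γ' ((m : ℕ) : Ω) := good_of_E_eq_zero (E.map_natCast m)

theorem Good.pow {f : Ω} (hf : Good w E γ' f) (i : ℕ) : Good w E γ' (f ^ i) := by
  induction i with
  | zero => rw [pow_zero]; exact Good.one
  | succ i ih => rw [pow_succ]; exact ih.mul hf

theorem Good.sum {ι : Type*} (s : Finset ι) (f : ι → Ω) (hf : ∀ i ∈ s, Good w E γ' (f i)) :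
    Good w E γ' (∑ i ∈ s, f i) := by
  classical
  induction s using Finset.induction_on with
  | empty => simpa using Good.zero
  | insert a s ha ih =>
    rw [Finset.sum_insert ha]
    exact (hf a (Finset.mem_insert_self a s)).add (ih fun i hi => hf i (Finset.mem_insert_of_mem hi))

/-- The coefficients of the inverse. -/
theorem dd_inv_ge {γ : ℝ} {f : Ω} (hf0 : f ≠ 0)
    (hf : ∀ m : ℕ, m ≠ 0 → w.Ge (w f - m * γ) (dd E m f)) (m : ℕ) :
    w.Ge (-w f - m * γ) (dd E m f⁻¹) := by
  induction m using Nat.strong_induction_on with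
  | _ m ih =>
    by_cases hm : m = 0
    · subst hm
      rw [dd_zero]
      refine (w.ge_self _).mono (le_of_eq ?_)
      rw [w.map_inv hf0]
      simp
    · have h1 := dd_mul E m f⁻¹ f
      rw [inv_mul_cancel₀ hf0, dd_one E m hm,
        ← Finset.add_sum_erase _ _ (show (m, 0) ∈ antidiagonal m from
          Finset.HasAntidiagonal.mem_antidiagonal.mpr (add_zero m))] at h1
      simp only [dd_zero] at h1
      have h2 : w.Ge (-(m * γ)) (dd E m f⁻¹ * f) := by
        rw [eq_neg_of_add_eq_zero_left h1.symm]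
        refine (RVal.Ge.sum _ _ fun ij hij => ?_).neg
        obtain ⟨hne, hij'⟩ := Finset.mem_erase.mp hij
        have h : ij.1 + ij.2 = m := Finset.HasAntidiagonal.mem_antidiagonal.mp hij'
        have h2 : ij.2 ≠ 0 := by
          intro h2
          apply hne
          rw [h2, add_zero] at h
          exact Prod.ext h h2
        refine ((ih ij.1 (by omega)).mul (hf ij.2 h2)).mono (le_of_eq ?_)
        rw [← h]
        push_cast
        ring
      intro h0
      have h3 := h2 (mul_ne_zero h0 hf0)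
      rw [w.map_mul h0 hf0] at h3
      linarith

/-- Inverses: `f⁻¹ (s) * f (s) = 1`, induction on the coefficients with `Good.uniform`. -/
theorem Good.inv (hstrict : ∀ f, E f ≠ 0 → w f < w (E f) + γ')
    (hn : ∀ m : ℕ, m ≠ 0 → w ((m : Ω)) = 0) {f : Ω} (hf : Good w E γ' f) :
    Good w E γ' f⁻¹ := by
  by_cases hf0 : f = 0
  · rw [hf0, inv_zero]
    exact Good.zero
  obtain ⟨γ, hγ, ε, hε, h⟩ := hf.uniform hstrict hn hf0
  exact ⟨γ, hγ, -w f, dd_inv_ge hf0 fun m hm => (h m hm).mono (by linarith)⟩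

theorem dd_const_mul {c : Ω} (hc : E c = 0) (m : ℕ) (x : Ω) : dd E m (c * x) = c * dd E m x := by
  rw [dd_mul, Finset.sum_eq_single (0, m)]
  · rw [dd_zero]
  · intro ij hij hne
    have h : ij.1 + ij.2 = m := Finset.HasAntidiagonal.mem_antidiagonal.mp hij
    have h1 : ij.1 ≠ 0 := by
      intro h1
      apply hne
      rw [h1, zero_add] at h
      exact Prod.ext h1 h
    rw [dd_of_D_eq_zero E _ h1 c hc, zero_mul]
  · intro h
    exact absurd (Finset.HasAntidiagonal.mem_antidiagonal.mpr (zero_add m)) h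

/-- Roots: if `r ^ e = b`, write `r (s) = r (1 + q (s))`, `b (s) = b (1 + h (s))`, `h` small by
`Good.uniform`; then `(1 + q) ^ e = 1 + h`, and induction on the coefficients of `q`. -/
theorem Good.root (hstrict : ∀ f, E f ≠ 0 → w f < w (E f) + γ')
    (hn : ∀ m : ℕ, m ≠ 0 → w ((m : Ω)) = 0) {b r : Ω} (e : ℕ) (he : e ≠ 0)
    (hb : Good w E γ' b) (hr : r ^ e = b) : Good w E γ' r := by
  by_cases hr0 : r = 0
  · rw [hr0]
    exact Good.zero
  have hb0 : b ≠ 0 := by rw [← hr]; exact pow_ne_zero e hr0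
  have he0 : (e : Ω) ≠ 0 := Nat.cast_ne_zero.mpr he
  obtain ⟨γ, hγ, ε, hε, h⟩ := hb.uniform hstrict hn hb0
  have hb1 : ∀ m : ℕ, m ≠ 0 → w.Ge (w b - m * γ) (dd E m b) :=
    fun m hm => (h m hm).mono (by linarith)
  have hEr : (e : Ω) * E r = (E b * b⁻¹) * r := by
    have h1 : E b = (e : Ω) * (r ^ (e - 1) * E r) := by
      rw [← hr, E.leibniz_pow, nsmul_eq_mul, smul_eq_mul]
    obtain ⟨e', rfl⟩ := Nat.exists_eq_succ_of_ne_zero he
    rw [h1, ← hr, Nat.succ_sub_one, pow_succ]
    field_simp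
  have hc : ∀ m : ℕ, w.Ge (-((m + 1 : ℝ) * γ)) (dd E m (E b * b⁻¹)) := by
    intro m
    rw [dd_mul]
    refine RVal.Ge.sum _ _ fun ij hij => ?_
    have h' : ij.1 + ij.2 = m := Finset.HasAntidiagonal.mem_antidiagonal.mp hij
    rw [dd_D]
    have h1 : w.Ge 0 ((ij.1 : Ω) + 1) := by
      have := RVal.Ge.natCast (w := w) (ij.1 + 1)
      push_cast at this
      exact this
    refine ((h1.mul (hb1 (ij.1 + 1) (Nat.succ_ne_zero _))).mul (dd_inv_ge hb0 hb1 ij.2)).mono
      (le_of_eq ?_)
    rw [← h']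
    push_cast
    ring
  refine ⟨γ, hγ, w r, fun m => ?_⟩
  induction m using Nat.strong_induction_on with
  | _ m ih =>
    rcases Nat.eq_zero_or_pos m with rfl | hm
    · rw [dd_zero]
      simpa using w.ge_self r
    · obtain ⟨m, rfl⟩ := Nat.exists_eq_succ_of_ne_zero hm.ne'
      have h6 : (m : Ω) + 1 ≠ 0 := by exact_mod_cast Nat.succ_ne_zero m
      have h7 : w ((m : Ω) + 1) = 0 := by
        have := hn (m + 1) (Nat.succ_ne_zero m)
        push_cast at this
        exact this
      have h1 : (e : Ω) * (((m : Ω) + 1) * dd E (m + 1) r) = dd E m ((E b * b⁻¹) * r) := by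
        rw [← dd_D, ← dd_const_mul (E.map_natCast e), hEr]
      have h2 : w.Ge (w r - (m + 1 : ℝ) * γ) (dd E m ((E b * b⁻¹) * r)) := by
        rw [dd_mul]
        refine RVal.Ge.sum _ _ fun ij hij => ?_
        have h' : ij.1 + ij.2 = m := Finset.HasAntidiagonal.mem_antidiagonal.mp hij
        refine ((hc ij.1).mul (ih ij.2 (by omega))).mono (le_of_eq ?_)
        rw [← h']
        push_cast
        ring
      rw [← h1] at h2
      intro h0
      rw [Nat.succ_eq_add_one] at h0
      have h3 := h2 (mul_ne_zero he0 (mul_ne_zero h6 h0))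
      rw [w.map_mul he0 (mul_ne_zero h6 h0), w.map_mul h6 h0, h7, hn e he] at h3
      rw [Nat.succ_eq_add_one]
      push_cast
      linarith

omit [CharZero Ω] in
theorem exists_lower_bound (w : RVal Ω) (P : Polynomial Ω) :
    ∃ C : ℝ, ∀ l, w.Ge C (P.coeff l) := by
  refine ⟨-∑ i ∈ Finset.range (P.natDegree + 1), |w (P.coeff i)|, fun l h0 => ?_⟩
  have hl : l ∈ Finset.range (P.natDegree + 1) :=
    Finset.mem_range.mpr (Nat.lt_succ_of_le (Polynomial.le_natDegree_of_ne_zero h0))
  have h1 := Finset.single_le_sum (f := fun i => |w (P.coeff i)|) (fun i _ => abs_nonneg _) hl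
  have h2 := neg_abs_le (w (P.coeff l))
  linarith

omit [CharZero Ω] in
/-- The bounds for the coefficients are preserved by a translation. -/
theorem taylor_coeff_ge (w : RVal Ω) (P : Polynomial Ω) (C ρ : ℝ) (η : Ω) (hη : w.Ge ρ η)
    (hP : ∀ l : ℕ, w.Ge (C - l * ρ) (P.coeff l)) (i : ℕ) :
    w.Ge (C - i * ρ) ((Polynomial.taylor η P).coeff i) := by
  rw [Polynomial.taylor_coeff, Polynomial.eval_eq_sum_range]
  refine RVal.Ge.sum _ _ fun n _ => ?_
  rw [Polynomial.hasseDeriv_coeff]
  refine (((RVal.Ge.natCast _).mul (hP (n + i))).mul (hη.pow n)).mono (le_of_eq ?_)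
  push_cast
  ring

theorem good_taylor_coeff {P : Polynomial Ω} (hP : ∀ i, Good w E γ' (P.coeff i)) {a : Ω}
    (ha : Good w E γ' a) (i : ℕ) : Good w E γ' ((Polynomial.taylor a P).coeff i) := by
  rw [Polynomial.taylor_coeff, Polynomial.eval_eq_sum_range]
  refine Good.sum _ _ fun n _ => ?_
  rw [Polynomial.hasseDeriv_coeff]
  exact ((Good.natCast _).mul (hP _)).mul (ha.pow n)

/-- The key computation: the coefficients of the Taylor series of a simple root. -/
theorem dd_root (E : Derivation k Ω Ω) (Q : Polynomial Ω) (η : Ω) (hη : Q.eval η = 0) (m : ℕ)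
    (hm : m ≠ 0) :
    Q.derivative.eval η * dd E m η = - PowerSeries.coeff m
      ((Q.map (tayHom E)).eval (PowerSeries.mk fun j => if j < m then dd E j η else 0)) := by
  set T : PowerSeries Ω := PowerSeries.mk fun j => if j < m then dd E j η else 0 with hT
  set R : PowerSeries Ω := PowerSeries.mk fun j => dd E (m + j) η with hR
  have hTR : tayHom E η = T + PowerSeries.X ^ m * R := by
    ext j
    rw [coeff_tayHom, _root_.map_add, PowerSeries.coeff_X_pow_mul', hT, hR, PowerSeries.coeff_mk]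
    by_cases hj : j < m
    · rw [if_pos hj, if_neg (by omega), add_zero]
    · rw [if_neg hj, if_pos (by omega), zero_add, PowerSeries.coeff_mk]
      congr 1
      omega
  have h0 : (Q.map (tayHom E)).eval (tayHom E η) = 0 := by
    rw [Polynomial.eval_map, Polynomial.eval₂_at_apply, hη, _root_.map_zero]
  obtain ⟨κ, hκ⟩ := Polynomial.binomExpansion (Q.map (tayHom E)) T (PowerSeries.X ^ m * R)
  rw [hTR, hκ] at h0
  have h1 := congrArg (PowerSeries.coeff m) h0
  rw [_root_.map_add, _root_.map_add, _root_.map_zero] at h1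
  have h2 : PowerSeries.coeff m (κ * (PowerSeries.X ^ m * R) ^ 2) = 0 := by
    have e : κ * (PowerSeries.X ^ m * R) ^ 2 = PowerSeries.X ^ (2 * m) * (κ * R ^ 2) := by
      rw [mul_pow, ← pow_mul, mul_comm m 2]
      ring
    rw [e, PowerSeries.coeff_X_pow_mul', if_neg (by omega)]
  have h3 : PowerSeries.coeff m (Polynomial.eval T (Polynomial.derivative (Q.map (tayHom E))) *
      (PowerSeries.X ^ m * R)) = Q.derivative.eval η * dd E m η := by
    have e : Polynomial.eval T (Polynomial.derivative (Q.map (tayHom E))) *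
      (PowerSeries.X ^ m * R) = PowerSeries.X ^ m *
      (Polynomial.eval T (Polynomial.derivative (Q.map (tayHom E))) * R) := by ring
    rw [e, PowerSeries.coeff_X_pow_mul', if_pos le_rfl, Nat.sub_self,
      PowerSeries.coeff_zero_eq_constantCoeff_apply, _root_.map_mul]
    congr 1
    · rw [Polynomial.derivative_map, Polynomial.eval_map, Polynomial.hom_eval₂]
      have e1 : (PowerSeries.constantCoeff (R := Ω)).comp (tayHom E) = RingHom.id Ω := by
        ext x
        rw [RingHom.comp_apply, ← PowerSeries.coeff_zero_eq_constantCoeff_apply, coeff_tayHom,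
          dd_zero, RingHom.id_apply]
      have e2 : PowerSeries.constantCoeff T = η := by
        rw [← PowerSeries.coeff_zero_eq_constantCoeff_apply, hT, PowerSeries.coeff_mk,
          if_pos (Nat.pos_of_ne_zero hm), dd_zero]
      rw [e1, e2]
      rfl
  rw [h2, h3, add_zero] at h1
  exact (neg_eq_of_add_eq_zero_right h1).symm

/-- If `f` is a simple root of a polynomial with good coefficients and is in the closure of the
good elements then `f` is good. Proof: scale so that `w` of the coefficients of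
`P (f + ·)` is nonnegative, take a good `a` with `w (f - a)` huge, `η = f - a`,
`Q (Y) = P (a + Y) = c_0 + c_1 Y + ⋯`, `c_i` good, `w c_i ≥ 0`, `w c_0 > 2 w c_1`,
`w η = w c_0 - w c_1`. With `γ` such that `c_i (s)` has Gauss norm `w c_i` on `{w s ≥ γ}`, one gets
`w (η_m) + m γ ≥ w η` by induction on `m` from the coefficient of `s ^ m` in
`∑ c_i (s) η (s) ^ i = 0`. -/
theorem good_of_closure (hstrict : ∀ f, E f ≠ 0 → w f < w (E f) + γ')
    (hn : ∀ m : ℕ, m ≠ 0 → w ((m : Ω)) = 0) (f : Ω) (P : Polynomial Ω)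
    (hP : ∀ i, Good w E γ' (P.coeff i)) (hroot : P.eval f = 0)
    (hP' : P.derivative.eval f ≠ 0)
    (happ : ∀ C : ℝ, ∃ a, Good w E γ' a ∧ w.Ge C (f - a)) : Good w E γ' f := by
  classical
  set d : ℕ → Ω := fun l => (Polynomial.taylor f P).coeff l with hd
  have hd0 : d 0 = 0 := by
    rw [hd]
    simp only
    rw [Polynomial.taylor_coeff_zero, hroot]
  have hd1 : d 1 ≠ 0 := by
    rw [hd]
    simp only
    rw [Polynomial.taylor_coeff_one]
    exact hP'
  obtain ⟨C0, hC0⟩ := exists_lower_bound w (Polynomial.taylor f P)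
  obtain ⟨a, ha, hfa⟩ := happ |w (d 1) - C0|
  by_cases hη0 : f - a = 0
  · rw [sub_eq_zero.mp hη0]
    exact ha
  set η : Ω := f - a with hη
  have hwη : |w (d 1) - C0| ≤ w η := hfa hη0
  have hwη0 : 0 ≤ w η := (abs_nonneg _).trans hwη
  have hwη1 : w (d 1) - C0 ≤ w η := (le_abs_self _).trans hwη
  set C : ℝ := w (d 1) + w η with hC
  have hD : ∀ l : ℕ, w.Ge (C - l * w η) ((Polynomial.taylor f P).coeff l) := by
    intro l
    rcases Nat.lt_trichotomy l 1 with hl | hl | hl
    · have hl0 : l = 0 := by omega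
      subst hl0
      have : (Polynomial.taylor f P).coeff 0 = 0 := hd0
      rw [this]
      exact RVal.Ge.zero
    · subst hl
      refine (w.ge_self _).mono (le_of_eq ?_)
      rw [hC]
      push_cast
      ring
    · refine (hC0 l).mono ?_
      have hl' : (2 : ℝ) ≤ l := by exact_mod_cast hl
      have := mul_le_mul_of_nonneg_right hl' hwη0
      rw [hC]
      linarith
  set Q : Polynomial Ω := Polynomial.taylor a P with hQ
  have hQD : Q = Polynomial.taylor (-η) (Polynomial.taylor f P) := by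
    have e : -η + f = a := by rw [hη]; ring
    rw [Polynomial.taylor_taylor, hQ, e]
  have hc : ∀ i : ℕ, w.Ge (C - i * w η) (Q.coeff i) := by
    intro i
    rw [hQD]
    exact taylor_coeff_ge w _ C (w η) (-η) (w.ge_self η).neg hD i
  have hgood : ∀ i, Good w E γ' (Q.coeff i) := fun i => good_taylor_coeff hP ha i
  -- a common radius
  have hu : ∀ i : ℕ, ∃ γ < γ', ∀ m : ℕ, w.Ge (C - i * w η - m * γ) (dd E m (Q.coeff i)) := by
    intro i
    by_cases h0 : Q.coeff i = 0
    · refine ⟨γ' - 1, by linarith, fun m => ?_⟩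
      rw [h0, dd_map_zero]
      exact RVal.Ge.zero
    · obtain ⟨γ, hγ, ε, hε, h⟩ := (hgood i).uniform hstrict hn h0
      refine ⟨γ, hγ, fun m => ?_⟩
      have h1 := hc i h0
      by_cases hm : m = 0
      · subst hm
        rw [dd_zero]
        refine (w.ge_self _).mono ?_
        push_cast
        linarith
      · exact (h m hm).mono (by linarith)
  choose g hg hgu using hu
  obtain ⟨γ, hγ, hγu⟩ : ∃ γ < γ', ∀ i ∈ Finset.range (Q.natDegree + 1), g i ≤ γ := by
    obtain ⟨δ, hδ, h⟩ := exists_pos_le (Finset.range (Q.natDegree + 1)) (fun i => γ' - g i)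
      (fun i _ => by have := hg i; linarith)
    exact ⟨γ' - δ, by linarith, fun i hi => by have := h i hi; linarith⟩
  have hcS : ∀ i ∈ Finset.range (Q.natDegree + 1), w.GeS γ (C - i * w η) (tayHom E (Q.coeff i)) := by
    intro i hi m
    rw [coeff_tayHom]
    have h1 := mul_le_mul_of_nonneg_left (hγu i hi) (Nat.cast_nonneg (α := ℝ) m)
    exact (hgu i m).mono (by linarith)
  have hQη : Q.eval η = 0 := by
    rw [hQ, Polynomial.taylor_eval, hη, sub_add_cancel, hroot]
  have hQ'η : Q.derivative.eval η = d 1 := by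
    rw [← Polynomial.taylor_coeff_one, hQ, Polynomial.taylor_taylor, hη, sub_add_cancel]
  have hmain : ∀ m : ℕ, w.Ge (w η - m * γ) (dd E m η) := by
    intro m
    induction m using Nat.strong_induction_on with
    | _ m ih =>
      by_cases hm : m = 0
      · subst hm
        rw [dd_zero]
        simpa using w.ge_self η
      · have h1 := dd_root E Q η hQη m hm
        set T : PowerSeries Ω := PowerSeries.mk fun j => if j < m then dd E j η else 0 with hT
        have hTS : w.GeS γ (w η) T := by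
          intro j
          rw [hT, PowerSeries.coeff_mk]
          split_ifs with hj
          · exact ih j hj
          · exact RVal.Ge.zero
        have h2 : w.Ge (C - m * γ) (PowerSeries.coeff m ((Q.map (tayHom E)).eval T)) := by
          rw [Polynomial.eval_map, Polynomial.eval₂_eq_sum_range, _root_.map_sum]
          refine RVal.Ge.sum _ _ fun i hi => ?_
          have h3 := ((hcS i hi).mul (hTS.pow i)).mono (C' := C) (le_of_eq (by ring))
          exact h3 m
        intro h0
        have h3 := h2.neg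
        rw [← h1, hQ'η] at h3
        have h4 := h3 (mul_ne_zero hd1 h0)
        rw [w.map_mul hd1 h0, hC] at h4
        linarith
  have hηgood : Good w E γ' η := ⟨γ, hγ, w η, hmain⟩
  have : f = a + η := by rw [hη]; ring
  rw [this]
  exact ha.add hηgood

/-- The field of the good elements. -/
noncomputable def goodField (w : RVal Ω) (E : Derivation k Ω Ω) (γ' : ℝ)
    (hstrict : ∀ f, E f ≠ 0 → w f < w (E f) + γ')
    (hn : ∀ m : ℕ, m ≠ 0 → w ((m : Ω)) = 0) : Subfield Ω where
  carrier := {f | Good w E γ' f}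
  mul_mem' hf hg := hf.mul hg
  one_mem' := good_of_E_eq_zero E.map_one_eq_zero
  add_mem' hf hg := hf.add hg
  zero_mem' := good_of_E_eq_zero (_root_.map_zero E)
  neg_mem' hf := hf.neg
  inv_mem' _ hf := hf.inv hstrict hn

theorem mem_goodField (hstrict : ∀ f, E f ≠ 0 → w f < w (E f) + γ')
    (hn : ∀ m : ℕ, m ≠ 0 → w ((m : Ω)) = 0) (f : Ω) :
    f ∈ goodField w E γ' hstrict hn ↔ Good w E γ' f := Iff.rfl

end Pool.Agent.H15JM
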