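import Pool.Agent.Lib.JM_H15.Basic

/-!
# Approximation of algebraic elements in residue characteristic zero

Let `F` be a subfield of the valued field `Ω` (real valuation `w`, residue characteristic `0`)
with the same value group and the same residue field. Then every element of `Ω` that is algebraic
over `F` is in the closure of `F`.

Paper proof. Let `ρ* = sup {w (f - a) : a ∈ F}`; suppose `ρ* < ∞` and `f ∉ F`.  `ρ*` is not
attained: for `g = f - a` take `b ∈ F` with `w b = w g` and `c ∈ F` with `w (g / b - c) > 0`, then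
`a + b c` is a better approximation.  For `P ∈ F[X]` let `T (X) = P (X + f) = ∑ c_i X^i`.
Call `P` good if there is `i ≥ 1` with `c_i ≠ 0` and `w c_i + i ρ* ≤ w c_0` (or `c_0 = 0`). The
minimal polynomial of `f` is good; take `P` good of minimal degree. As `P'` is not good,
`c_1 ≠ 0`, `w c_1 + ρ* ≤ w c_0` and `w c_1 < w c_j + (j - 1) ρ*` for `j ≥ 2`. For `a ∈ F` with
`h = f - a` and `w h` close to `ρ*`, `w (P' (a)) = w c_1` and
`f - (a - P (a) / P' (a)) = (P (a) + h P' (a)) / P' (a)` with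
`P (a) + h P' (a) = c_0 + ∑_{j ≥ 2} (1 - j) c_j (-h)^j` of value at least `w c_1 + ρ*`:
the value `ρ*` is attained by the Newton step, a contradiction.
-/

set_option autoImplicit false

open Finset

namespace Pool.Agent.H15JM

open Polynomial

theorem exists_pos_le_forall {ι : Type*} (s : Finset ι) (g : ι → ℝ) (hg : ∀ j ∈ s, 0 < g j) :
    ∃ η : ℝ, 0 < η ∧ ∀ j ∈ s, η ≤ g j := by
  classical
  induction s using Finset.induction_on with
  | empty => exact ⟨1, one_pos, by simp⟩
  | insert a s ha ih =>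
    obtain ⟨η, hη, h⟩ := ih fun j hj => hg j (Finset.mem_insert_of_mem hj)
    refine ⟨min η (g a), lt_min hη (hg a (Finset.mem_insert_self a s)), fun j hj => ?_⟩
    rcases Finset.mem_insert.mp hj with rfl | hj
    · exact min_le_right _ _
    · exact (min_le_left _ _).trans (h j hj)

/-- The Newton step. -/
theorem newton_step {Ω : Type*} [Field Ω] (w : RVal Ω)
    (hn : ∀ m : ℕ, m ≠ 0 → w ((m : Ω)) = 0) (T : Polynomial Ω) (ρ : ℝ) (h1 : T.coeff 1 ≠ 0)
    (h0 : T.coeff 0 ≠ 0 → w (T.coeff 1) + ρ ≤ w (T.coeff 0))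
    (h2 : ∀ j : ℕ, T.coeff (j + 2) ≠ 0 → w (T.coeff 1) < w (T.coeff (j + 2)) + (j + 1) * ρ) :
    ∃ ε : ℝ, 0 < ε ∧ ∀ h : Ω, h ≠ 0 → ρ - ε < w h → w h < ρ →
      (derivative T).eval (-h) ≠ 0 ∧ w.Ge ρ (h + T.eval (-h) / (derivative T).eval (-h)) := by
  classical
  obtain ⟨η, hη, hη'⟩ := exists_pos_le_forall
    ((Finset.range (T.natDegree + 1)).filter fun j => T.coeff (j + 2) ≠ 0)
    (fun j => w (T.coeff (j + 2)) + (j + 1) * ρ - w (T.coeff 1))
    (fun j hj => by
      have := h2 j (Finset.mem_filter.mp hj).2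
      linarith)
  have hη2 : ∀ j : ℕ, T.coeff (j + 2) ≠ 0 →
      w (T.coeff 1) + η ≤ w (T.coeff (j + 2)) + (j + 1) * ρ := by
    intro j hj
    have hle : j + 2 ≤ T.natDegree := le_natDegree_of_ne_zero hj
    have := hη' j (Finset.mem_filter.mpr ⟨Finset.mem_range.mpr (by omega), hj⟩)
    linarith
  have hDpos : (0 : ℝ) < T.natDegree + 1 := by positivity
  refine ⟨η / (T.natDegree + 1), by positivity, fun h hh0 hlow hup => ?_⟩
  have hgap : ∀ j : ℕ, T.coeff (j + 2) ≠ 0 → (j + 2) * (ρ - w h) < η := by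
    intro j hj
    have hle : j + 2 ≤ T.natDegree := le_natDegree_of_ne_zero hj
    have hle' : ((j : ℝ) + 2) ≤ T.natDegree := by exact_mod_cast hle
    have h3 : ρ - w h < η / (T.natDegree + 1) := by linarith
    have h4 : (ρ - w h) * (T.natDegree + 1) < η := by
      rwa [lt_div_iff₀ hDpos] at h3
    nlinarith
  have hnh : -h ≠ 0 := neg_ne_zero.mpr hh0
  have hwnh : w (-h) = w h := w.map_neg h hh0
  -- the derivative
  set N := (derivative T).eval (-h) with hN
  have hN1 : N = T.coeff 1 + ∑ j ∈ Finset.range (T.natDegree + 1),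
      T.coeff (j + 2) * ((j : Ω) + 2) * (-h) ^ (j + 1) := by
    have hdeg : (derivative T).natDegree < T.natDegree + 2 := by
      have := natDegree_derivative_le T
      omega
    rw [hN, eval_eq_sum_range' hdeg, Finset.sum_range_succ']
    rw [add_comm]
    congr 1
    · rw [coeff_derivative]
      simp
    · refine Finset.sum_congr rfl fun j _ => ?_
      rw [coeff_derivative]
      push_cast
      ring
  have hcast : ∀ j : ℕ, ((j : Ω) + 1 = 0 ∨ w ((j : Ω) + 1) = 0) := by
    intro j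
    by_cases hz : ((j : Ω) + 1) = 0
    · exact Or.inl hz
    · right
      have := hn (j + 1) (Nat.succ_ne_zero j)
      push_cast at this
      exact this
  -- tail of the derivative
  have htail : ∀ j : ℕ, T.coeff (j + 2) * ((j : Ω) + 2) * (-h) ^ (j + 1) ≠ 0 →
      w (T.coeff 1) < w (T.coeff (j + 2) * ((j : Ω) + 2) * (-h) ^ (j + 1)) := by
    intro j hj
    have hp : (-h) ^ (j + 1) ≠ 0 := pow_ne_zero _ hnh
    have hc : T.coeff (j + 2) ≠ 0 := fun h => hj (by rw [h]; ring)
    have h2' : ((j : Ω) + 2) ≠ 0 := fun h => hj (by rw [h]; ring)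
    rw [w.map_mul (mul_ne_zero hc h2') hp, w.map_mul hc h2', w.map_pow hnh, hwnh]
    have hw2 : w ((j : Ω) + 2) = 0 := by
      have := hcast (j + 1)
      push_cast at this
      rw [add_assoc, one_add_one_eq_two] at this
      exact this.resolve_left h2'
    rw [hw2]
    have h3 := hη2 j hc
    have h4 := hgap j hc
    push_cast
    have : (0 : ℝ) < ρ - w h := by linarith
    nlinarith
  have hex : ∃ δ : ℝ, w (T.coeff 1) < δ ∧ ∀ j ∈ Finset.range (T.natDegree + 1),
      w.Ge δ (T.coeff (j + 2) * ((j : Ω) + 2) * (-h) ^ (j + 1)) := by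
    obtain ⟨η₂, hη₂, hη₂'⟩ := exists_pos_le_forall
      ((Finset.range (T.natDegree + 1)).filter fun j =>
        T.coeff (j + 2) * ((j : Ω) + 2) * (-h) ^ (j + 1) ≠ 0)
      (fun j => w (T.coeff (j + 2) * ((j : Ω) + 2) * (-h) ^ (j + 1)) - w (T.coeff 1))
      (fun j hj => by
        have := htail j (Finset.mem_filter.mp hj).2
        linarith)
    refine ⟨w (T.coeff 1) + η₂, by linarith, fun j hj hne => ?_⟩
    have := hη₂' j (Finset.mem_filter.mpr ⟨hj, hne⟩)
    linarith
  obtain ⟨δ, hδ, hδ'⟩ := hex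
  have hsum : w.Ge δ (∑ j ∈ Finset.range (T.natDegree + 1),
      T.coeff (j + 2) * ((j : Ω) + 2) * (-h) ^ (j + 1)) := RVal.Ge.sum _ _ hδ'
  have hNval : N ≠ 0 ∧ w N = w (T.coeff 1) := by
    rw [hN1]
    by_cases hz : (∑ j ∈ Finset.range (T.natDegree + 1),
      T.coeff (j + 2) * ((j : Ω) + 2) * (-h) ^ (j + 1)) = 0
    · rw [hz, add_zero]
      exact ⟨h1, rfl⟩
    · exact w.add_of_lt h1 hz (lt_of_lt_of_le hδ (hsum hz))
  refine ⟨hNval.1, ?_⟩
  -- the numerator
  have hnum : h * N + T.eval (-h) = T.coeff 0 - ∑ j ∈ Finset.range (T.natDegree + 1),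
      T.coeff (j + 2) * ((j : Ω) + 1) * (-h) ^ (j + 2) := by
    have hT : T.eval (-h) = T.coeff 0 + T.coeff 1 * (-h) +
        ∑ j ∈ Finset.range (T.natDegree + 1), T.coeff (j + 2) * (-h) ^ (j + 2) := by
      rw [eval_eq_sum_range' (show T.natDegree < T.natDegree + 1 + 1 + 1 by omega),
        Finset.sum_range_succ', Finset.sum_range_succ']
      simp only [zero_add, pow_one, pow_zero, mul_one]
      have : ∀ j, T.coeff (j + 1 + 1) * (-h) ^ (j + 1 + 1) = T.coeff (j + 2) * (-h) ^ (j + 2) :=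
        fun j => rfl
      simp only [this]
      ring
    rw [hT, hN1, mul_add, Finset.mul_sum]
    have hkey : ∑ j ∈ Finset.range (T.natDegree + 1),
          h * (T.coeff (j + 2) * ((j : Ω) + 2) * (-h) ^ (j + 1)) +
        ∑ j ∈ Finset.range (T.natDegree + 1), T.coeff (j + 2) * (-h) ^ (j + 2) =
        - ∑ j ∈ Finset.range (T.natDegree + 1),
          T.coeff (j + 2) * ((j : Ω) + 1) * (-h) ^ (j + 2) := by
      rw [← Finset.sum_add_distrib, ← Finset.sum_neg_distrib]
      refine Finset.sum_congr rfl fun j _ => ?_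
      rw [show j + 2 = j + 1 + 1 from rfl, pow_succ (-h) (j + 1)]
      ring
    linear_combination hkey
  have hnumGe : w.Ge (w (T.coeff 1) + ρ) (h * N + T.eval (-h)) := by
    rw [hnum]
    refine RVal.Ge.sub (fun h => h0 h) (RVal.Ge.sum _ _ fun j _ hj => ?_)
    have hp : (-h) ^ (j + 2) ≠ 0 := pow_ne_zero _ hnh
    have hc : T.coeff (j + 2) ≠ 0 := fun h => hj (by rw [h]; ring)
    have h2' : ((j : Ω) + 1) ≠ 0 := fun h => hj (by rw [h]; ring)
    rw [w.map_mul (mul_ne_zero hc h2') hp, w.map_mul hc h2', w.map_pow hnh, hwnh,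
      (hcast j).resolve_left h2']
    have h3 := hη2 j hc
    have h4 := hgap j hc
    push_cast
    nlinarith
  intro hne
  have heq : h + T.eval (-h) / N = (h * N + T.eval (-h)) / N := by
    field_simp [hNval.1]
  rw [heq] at hne ⊢
  have hnum0 : h * N + T.eval (-h) ≠ 0 := fun hz => hne (by rw [hz, zero_div])
  rw [w.map_div hnum0 hNval.1, hNval.2]
  have := hnumGe hnum0
  linarith

theorem closure_of_isAlgebraic {Ω : Type*} [Field Ω] [CharZero Ω] (w : RVal Ω)
    (hn : ∀ m : ℕ, m ≠ 0 → w ((m : Ω)) = 0) (F : Subfield Ω)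
    (hval : ∀ x : Ω, x ≠ 0 → ∃ b ∈ F, b ≠ 0 ∧ w b = w x)
    (hres : ∀ x : Ω, x ≠ 0 → w x = 0 → ∃ c ∈ F, x = c ∨ 0 < w (x - c))
    (f : Ω) (halg : IsAlgebraic F f) (C : ℝ) : ∃ a ∈ F, w.Ge C (f - a) := by
  classical
  by_contra hcon
  push Not at hcon
  have hne : ∀ a ∈ F, f - a ≠ 0 := by
    intro a ha h0
    exact hcon a ha (by rw [h0]; exact RVal.Ge.zero)
  have hlt : ∀ a ∈ F, w (f - a) < C := by
    intro a ha
    by_contra h
    push Not at h
    exact hcon a ha (RVal.Ge.of_le h)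
  set S : Set ℝ := {r | ∃ a ∈ F, r = w (f - a)} with hS
  have hSne : S.Nonempty := ⟨w (f - 0), 0, F.zero_mem, rfl⟩
  have hSbdd : BddAbove S := ⟨C, by rintro r ⟨a, ha, rfl⟩; exact (hlt a ha).le⟩
  set ρ := sSup S with hρ
  have hle : ∀ a ∈ F, w (f - a) ≤ ρ := fun a ha => le_csSup hSbdd ⟨a, ha, rfl⟩
  -- the supremum is not attained
  have hlt' : ∀ a ∈ F, w (f - a) < ρ := by
    intro a ha
    have hg : f - a ≠ 0 := hne a ha
    obtain ⟨b, hb, hb0, hbw⟩ := hval _ hg
    have hq0 : (f - a) / b ≠ 0 := div_ne_zero hg hb0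
    have hqw : w ((f - a) / b) = 0 := by rw [w.map_div hg hb0, hbw, sub_self]
    obtain ⟨c, hc, hcc⟩ := hres _ hq0 hqw
    have ha' : a + b * c ∈ F := F.add_mem ha (F.mul_mem hb hc)
    have hfac : f - (a + b * c) = ((f - a) / b - c) * b := by
      field_simp
      ring
    have hne2 : (f - a) / b - c ≠ 0 := by
      intro h
      exact hne _ ha' (by rw [hfac, h, zero_mul])
    have hpos : 0 < w ((f - a) / b - c) := by
      rcases hcc with h | h
      · exact absurd (by rw [h, sub_self]) hne2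
      · exact h
    have h1 : w (f - (a + b * c)) = w ((f - a) / b - c) + w (f - a) := by
      rw [hfac, w.map_mul hne2 hb0, hbw]
    have h2 := hle _ ha'
    linarith
  -- good polynomials
  let Tp : Polynomial F → Polynomial Ω :=
    fun P => (P.map (algebraMap F Ω)).comp (X + Polynomial.C f)
  have hTd : ∀ P, Tp (derivative P) = derivative (Tp P) := by
    intro P
    simp only [Tp]
    rw [derivative_comp, derivative_map]
    simp
  have hTe : ∀ (P : Polynomial F) (a : F), (Tp P).eval (-(f - (a : Ω))) = ((P.eval a : F) : Ω) := by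
    intro P a
    simp only [Tp]
    rw [eval_comp]
    have h1 : (X + Polynomial.C f : Polynomial Ω).eval (-(f - (a : Ω))) = algebraMap F Ω a := by
      simp only [eval_add, eval_X, eval_C]
      change -(f - (a : Ω)) + f = (a : Ω)
      ring
    rw [h1, eval_map_algebraMap, aeval_algebraMap_apply]
    rfl
  let Good : Polynomial F → Prop := fun P => ∃ i : ℕ, 1 ≤ i ∧ (Tp P).coeff i ≠ 0 ∧
    ((Tp P).coeff 0 ≠ 0 → w ((Tp P).coeff i) + i * ρ ≤ w ((Tp P).coeff 0))
  obtain ⟨P₀, hP₀, hP₀f⟩ := halg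
  have hTP0 : (Tp P₀).coeff 0 = 0 := by
    rw [coeff_zero_eq_eval_zero]
    simp only [Tp]
    rw [eval_comp]
    have h1 : (X + Polynomial.C f : Polynomial Ω).eval 0 = f := by simp
    rw [h1, eval_map_algebraMap]
    exact hP₀f
  have hTP0ne : Tp P₀ ≠ 0 := by
    intro h
    have h1 : taylor f (P₀.map (algebraMap F Ω)) = 0 := by
      rw [taylor_apply]
      exact h
    have h2 : P₀.map (algebraMap F Ω) = 0 := taylor_injective f (by rw [h1, map_zero])
    exact hP₀ ((Polynomial.map_eq_zero _).mp h2)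
  have hgood0 : Good P₀ := by
    obtain ⟨i, hi⟩ : ∃ i, (Tp P₀).coeff i ≠ 0 := by
      by_contra hall
      push Not at hall
      exact hTP0ne (Polynomial.ext fun i => by rw [hall i, coeff_zero])
    refine ⟨i, ?_, hi, fun h => absurd hTP0 h⟩
    rcases Nat.eq_zero_or_pos i with h | h
    · rw [h] at hi
      exact absurd hTP0 hi
    · exact h
  obtain ⟨P, hP, hmin⟩ := WellFounded.has_min (measure (fun P : Polynomial F => P.natDegree)).wf
    {P | Good P} ⟨P₀, hgood0⟩
  have hdeg : P.natDegree ≠ 0 := by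
    intro h0
    obtain ⟨i, hi, hci, -⟩ := hP
    rw [natDegree_eq_zero] at h0
    obtain ⟨c, rfl⟩ := h0
    apply hci
    simp only [Tp]
    rw [map_C, C_comp, coeff_C, if_neg (by omega)]
  have hbad : ¬ Good (derivative P) := fun h =>
    hmin _ h (natDegree_derivative_lt hdeg)
  have hcoef : ∀ i : ℕ, (Tp (derivative P)).coeff i = (Tp P).coeff (i + 1) * ((i : Ω) + 1) := by
    intro i
    rw [hTd, coeff_derivative]
  have hcne : ∀ i : ℕ, ((i : Ω) + 1) ≠ 0 := fun i => Nat.cast_add_one_ne_zero i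
  have hcw : ∀ i : ℕ, w ((i : Ω) + 1) = 0 := by
    intro i
    have := hn (i + 1) (Nat.succ_ne_zero i)
    push_cast at this
    exact this
  have hnot : ∀ j : ℕ, (Tp P).coeff (j + 2) ≠ 0 →
      (Tp P).coeff 1 ≠ 0 ∧ w ((Tp P).coeff 1) < w ((Tp P).coeff (j + 2)) + (j + 1) * ρ := by
    intro j hj
    by_contra hcon2
    apply hbad
    refine ⟨j + 1, by omega, ?_, ?_⟩
    · rw [hcoef]
      exact mul_ne_zero hj (by exact_mod_cast hcne (j + 1))
    · intro hc0
      rw [hcoef] at hc0 ⊢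
      have hc1 : (Tp P).coeff 1 ≠ 0 := fun h => hc0 (by rw [zero_add, h, zero_mul])
      rw [not_and] at hcon2
      have h3 := hcon2 hc1
      push Not at h3
      rw [hcoef, w.map_mul hj (hcne (j + 1)), hcw (j + 1), zero_add,
        w.map_mul hc1 (hcne 0), hcw 0]
      push_cast
      linarith
  have hone : (Tp P).coeff 1 ≠ 0 ∧
      ((Tp P).coeff 0 ≠ 0 → w ((Tp P).coeff 1) + ρ ≤ w ((Tp P).coeff 0)) := by
    obtain ⟨i, hi, hci, hi0⟩ := hP
    rcases Nat.lt_or_ge 1 i with h | h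
    · obtain ⟨j, rfl⟩ : ∃ j, i = j + 2 := ⟨i - 2, by omega⟩
      obtain ⟨h1, h2⟩ := hnot j hci
      refine ⟨h1, fun h0 => ?_⟩
      have := hi0 h0
      push_cast at this
      linarith
    · obtain rfl : i = 1 := by omega
      refine ⟨hci, fun h0 => ?_⟩
      have := hi0 h0
      push_cast at this
      linarith
  obtain ⟨ε, hε, hstep⟩ := newton_step w hn (Tp P) ρ hone.1 hone.2 fun j hj => (hnot j hj).2
  obtain ⟨r, ⟨a, ha, rfl⟩, har⟩ := exists_lt_of_lt_csSup hSne (show ρ - ε < sSup S by linarith)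
  obtain ⟨hN, hGe⟩ := hstep (f - a) (hne a ha) har (hlt' a ha)
  have hN' : (derivative (Tp P)).eval (-(f - a)) = (((derivative P).eval ⟨a, ha⟩ : F) : Ω) := by
    rw [← hTd]
    exact hTe (derivative P) ⟨a, ha⟩
  have hE' : (Tp P).eval (-(f - a)) = ((P.eval ⟨a, ha⟩ : F) : Ω) := hTe P ⟨a, ha⟩
  have ha' : a - (Tp P).eval (-(f - a)) / (derivative (Tp P)).eval (-(f - a)) ∈ F := by
    rw [hN', hE']
    exact F.sub_mem ha (F.div_mem (Subtype.coe_prop _) (Subtype.coe_prop _))
  have heq : f - (a - (Tp P).eval (-(f - a)) / (derivative (Tp P)).eval (-(f - a))) =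
      f - a + (Tp P).eval (-(f - a)) / (derivative (Tp P)).eval (-(f - a)) := by ring
  have h1 := hlt' _ ha'
  have h2 := hne _ ha'
  rw [heq] at h1 h2
  have h3 := hGe h2
  linarith

end Pool.Agent.H15JM
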