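import Pool.Agent.Lib.JM_H15.Tay

/-!
# The valuation `V_γ` attached to a valuation and a derivation (OWNER: helper69)

`IsG v D γ f V Q` (Basic.lean): `V = min_m (v (dd D m f) + m γ)` and `Q` is the first index that
attains it.
-/

set_option autoImplicit false

open Finset

namespace Pool.Agent.H15JM

namespace RVal

variable {K : Type*} [Field K] (v : RVal K)

/-- `v.Gt c x` means that `x` is zero or has value larger than `c`. -/
def Gt (c : ℝ) (x : K) : Prop := x ≠ 0 → c < v x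

variable {v}

theorem Gt.zero {c : ℝ} : v.Gt c 0 := fun h => absurd rfl h

theorem Ge.gt {c c' : ℝ} {x : K} (hx : v.Ge c' x) (h : c < c') : v.Gt c x :=
  fun h0 => h.trans_le (hx h0)

theorem Gt.ge {c : ℝ} {x : K} (hx : v.Gt c x) : v.Ge c x := fun h0 => (hx h0).le

theorem Gt.add {c : ℝ} {x y : K} (hx : v.Gt c x) (hy : v.Gt c y) : v.Gt c (x + y) := by
  intro hxy
  by_cases h1 : x = 0
  · subst h1
    rw [zero_add] at hxy ⊢
    exact hy hxy
  by_cases h2 : y = 0
  · subst h2
    rw [add_zero] at hxy ⊢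
    exact hx hxy
  exact (lt_min (hx h1) (hy h2)).trans_le (v.map_add h1 h2 hxy)

theorem Gt.mul_ge {c d : ℝ} {x y : K} (hx : v.Gt c x) (hy : v.Ge d y) : v.Gt (c + d) (x * y) := by
  intro h
  have h1 := left_ne_zero_of_mul h
  have h2 := right_ne_zero_of_mul h
  rw [v.map_mul h1 h2]
  exact add_lt_add_of_lt_of_le (hx h1) (hy h2)

theorem Ge.mul_gt {c d : ℝ} {x y : K} (hx : v.Ge c x) (hy : v.Gt d y) : v.Gt (c + d) (x * y) := by
  intro h
  have h1 := left_ne_zero_of_mul h
  have h2 := right_ne_zero_of_mul h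
  rw [v.map_mul h1 h2]
  exact add_lt_add_of_le_of_lt (hx h1) (hy h2)

theorem Gt.sum {ι : Type*} {c : ℝ} (s : Finset ι) (f : ι → K) (hf : ∀ i ∈ s, v.Gt c (f i)) :
    v.Gt c (∑ i ∈ s, f i) := by
  classical
  induction s using Finset.induction_on with
  | empty => simpa using Gt.zero
  | insert a s ha ih =>
    rw [Finset.sum_insert ha]
    exact (hf a (Finset.mem_insert_self a s)).add (ih fun i hi => hf i (Finset.mem_insert_of_mem hi))

/-- Adding an element of larger value does not change the value. -/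
theorem add_of_gt {c : ℝ} {x y : K} (hx : x ≠ 0) (hv : v x = c) (hy : v.Gt c y) :
    x + y ≠ 0 ∧ v (x + y) = c := by
  by_cases h : y = 0
  · subst h
    rw [add_zero]
    exact ⟨hx, hv⟩
  · have := v.add_of_lt hx h (by rw [hv]; exact hy h)
    rw [hv] at this
    exact this

end RVal

variable {k K : Type*} [Field k] [Field K] [Algebra k K] [CharZero K]
variable {v : RVal K} {D : Derivation k K K} {γ : ℝ}

theorem IsG.ne_zero {f : K} {V : ℝ} {Q : ℕ} (h : IsG v D γ f V Q) : f ≠ 0 := by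
  rintro rfl
  exact h.1 (dd_map_zero D Q)

theorem IsG.unique {f : K} {V V' : ℝ} {Q Q' : ℕ} (h : IsG v D γ f V Q) (h' : IsG v D γ f V' Q') :
    V = V' ∧ Q = Q' := by
  obtain ⟨h1, h2, h3, h4⟩ := h
  obtain ⟨h1', h2', h3', h4'⟩ := h'
  have hV : V = V' := by
    apply le_antisymm
    · rw [← h2']; exact h3 _ h1'
    · rw [← h2]; exact h3' _ h1
  refine ⟨hV, ?_⟩
  rcases lt_trichotomy Q Q' with hq | hq | hq
  · exact absurd (h4' Q hq h1) (by rw [h2, hV]; exact lt_irrefl _)
  · exact hq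
  · exact absurd (h4 Q' hq h1') (by rw [h2', hV]; exact lt_irrefl _)

theorem IsG.ge {f : K} {V : ℝ} {Q : ℕ} (h : IsG v D γ f V Q) (m : ℕ) :
    v.Ge (V - m * γ) (dd D m f) := by
  intro h0
  have := h.2.2.1 m h0
  linarith

theorem IsG.gt {f : K} {V : ℝ} {Q : ℕ} (h : IsG v D γ f V Q) {m : ℕ} (hm : m < Q) :
    v.Gt (V - m * γ) (dd D m f) := by
  intro h0
  have := h.2.2.2 m hm h0
  linarith

/-- Existence on a `D`-stable subring where `v` is nonnegative. -/
theorem exists_isG (hγ : 0 < γ) (R : Subring K) (hR : ∀ f ∈ R, ∀ m, dd D m f ∈ R)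
    (hv : ∀ f ∈ R, f ≠ 0 → 0 ≤ v f) (f : K) (hf : f ∈ R) (hf0 : f ≠ 0) :
    ∃ V Q, IsG v D γ f V Q := by
  classical
  obtain ⟨N, hN⟩ := exists_nat_gt (v f / γ)
  have hN' : v f < N * γ := by
    rw [div_lt_iff₀ hγ] at hN
    exact hN
  let S : Finset ℕ := (Finset.range (N + 1)).filter fun m => dd D m f ≠ 0
  have h0 : 0 ∈ S := by
    simp only [S, Finset.mem_filter, Finset.mem_range]
    exact ⟨Nat.succ_pos N, by rw [dd_zero]; exact hf0⟩
  obtain ⟨Q, hQ, hmin⟩ := Finset.exists_min_image S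
    (fun m => toLex (v (dd D m f) + m * γ, m)) ⟨0, h0⟩
  have hQ0 : dd D Q f ≠ 0 := (Finset.mem_filter.mp hQ).2
  have hle0 : v (dd D Q f) + Q * γ ≤ v f := by
    have h := hmin 0 h0
    rw [Prod.Lex.toLex_le_toLex] at h
    rcases h with h | h
    · refine h.le.trans (le_of_eq ?_)
      simp
    · refine h.1.le.trans (le_of_eq ?_)
      simp
  have hbig : ∀ m, m ∉ S → dd D m f ≠ 0 → v (dd D Q f) + Q * γ < v (dd D m f) + m * γ := by
    intro m hm hm0
    have hm1 : N < m := by
      by_contra hcon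
      exact hm (Finset.mem_filter.mpr ⟨Finset.mem_range.mpr (by omega), hm0⟩)
    have hm2 : (N : ℝ) * γ ≤ m * γ := by
      have : (N : ℝ) ≤ m := by exact_mod_cast hm1.le
      exact mul_le_mul_of_nonneg_right this hγ.le
    have := hv _ (hR f hf m) hm0
    linarith
  refine ⟨v (dd D Q f) + Q * γ, Q, hQ0, rfl, ?_, ?_⟩
  · intro m hm0
    by_cases hm : m ∈ S
    · have h := hmin m hm
      rw [Prod.Lex.toLex_le_toLex] at h
      rcases h with h | h
      · exact h.le
      · exact h.1.le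
    · exact (hbig m hm hm0).le
  · intro m hmQ hm0
    by_cases hm : m ∈ S
    · have h := hmin m hm
      rw [Prod.Lex.toLex_le_toLex] at h
      rcases h with h | h
      · exact h
      · exact absurd h.2 (not_le.mpr hmQ)
    · exact hbig m hm hm0

theorem IsG.mul {f g : K} {V V' : ℝ} {Q Q' : ℕ} (h : IsG v D γ f V Q) (h' : IsG v D γ g V' Q') :
    IsG v D γ (f * g) (V + V') (Q + Q') := by
  classical
  have hge : ∀ (m : ℕ) (ij : ℕ × ℕ), ij ∈ antidiagonal m →
      v.Ge (V + V' - m * γ) (dd D ij.1 f * dd D ij.2 g) := by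
    intro m ij hij
    have hs := Finset.HasAntidiagonal.mem_antidiagonal.mp hij
    have h1 := (h.ge ij.1).mul (h'.ge ij.2)
    refine h1.mono (le_of_eq ?_)
    rw [← hs]
    push_cast
    ring
  have hgt : ∀ (m : ℕ) (ij : ℕ × ℕ), ij ∈ antidiagonal m → (ij.1 < Q ∨ ij.2 < Q') →
      v.Gt (V + V' - m * γ) (dd D ij.1 f * dd D ij.2 g) := by
    intro m ij hij hlt
    have hs := Finset.HasAntidiagonal.mem_antidiagonal.mp hij
    have he : V + V' - m * γ = (V - ij.1 * γ) + (V' - ij.2 * γ) := by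
      rw [← hs]
      push_cast
      ring
    rw [he]
    rcases hlt with hlt | hlt
    · exact (h.gt hlt).mul_ge (h'.ge ij.2)
    · exact (h.ge ij.1).mul_gt (h'.gt hlt)
  have hv1 : v (dd D Q f) = V - Q * γ := by linarith [h.2.1]
  have hv2 : v (dd D Q' g) = V' - Q' * γ := by linarith [h'.2.1]
  have hmain : dd D (Q + Q') (f * g) ≠ 0 ∧
      v (dd D (Q + Q') (f * g)) = V + V' - ((Q + Q' : ℕ) : ℝ) * γ := by
    rw [dd_mul, ← Finset.add_sum_erase _ _ (Finset.HasAntidiagonal.mem_antidiagonal.mpr rfl :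
      (Q, Q') ∈ antidiagonal (Q + Q'))]
    apply RVal.add_of_gt
    · exact mul_ne_zero h.1 h'.1
    · rw [v.map_mul h.1 h'.1, hv1, hv2]
      push_cast
      ring
    · apply RVal.Gt.sum
      intro ij hij
      obtain ⟨hne, hij⟩ := Finset.mem_erase.mp hij
      apply hgt _ _ hij
      have hs := Finset.HasAntidiagonal.mem_antidiagonal.mp hij
      by_contra hcon
      push Not at hcon
      apply hne
      ext
      · simp only; omega
      · simp only; omega
  refine ⟨hmain.1, ?_, ?_, ?_⟩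
  · rw [hmain.2]
    ring
  · intro m hm0
    have h1 : v.Ge (V + V' - m * γ) (dd D m (f * g)) := by
      rw [dd_mul]
      exact RVal.Ge.sum _ _ fun ij hij => hge m ij hij
    have := h1 hm0
    linarith
  · intro m hm hm0
    have h1 : v.Gt (V + V' - m * γ) (dd D m (f * g)) := by
      rw [dd_mul]
      refine RVal.Gt.sum _ _ fun ij hij => hgt m ij hij ?_
      have hs := Finset.HasAntidiagonal.mem_antidiagonal.mp hij
      by_contra hcon
      push Not at hcon
      omega
    have := h1 hm0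
    linarith

/-- The lexicographic ultrametric inequality, strict case. -/
theorem IsG.add_of_lt {f g : K} {V V' : ℝ} {Q Q' : ℕ} (h : IsG v D γ f V Q)
    (h' : IsG v D γ g V' Q') (hlt : V < V' ∨ (V = V' ∧ Q < Q')) : IsG v D γ (f + g) V Q := by
  have hle : V ≤ V' := by
    rcases hlt with hlt | hlt
    · exact hlt.le
    · exact hlt.1.le
  have hg : ∀ m, m ≤ Q → v.Gt (V - m * γ) (dd D m g) := by
    intro m hm h0
    rcases hlt with hlt | hlt
    · have := h'.ge m h0
      linarith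
    · have := h'.gt (lt_of_le_of_lt hm hlt.2) h0
      rw [hlt.1]
      exact this
  have hv1 : v (dd D Q f) = V - Q * γ := by linarith [h.2.1]
  have hmain := RVal.add_of_gt h.1 hv1 (hg Q le_rfl)
  refine ⟨?_, ?_, ?_, ?_⟩
  · rw [dd_add]; exact hmain.1
  · rw [dd_add, hmain.2]; ring
  · intro m hm0
    have h1 : v.Ge (V - m * γ) (dd D m (f + g)) := by
      rw [dd_add]
      exact (h.ge m).add ((h'.ge m).mono (by linarith))
    have := h1 hm0
    linarith
  · intro m hm hm0
    have h1 : v.Gt (V - m * γ) (dd D m (f + g)) := by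
      rw [dd_add]
      exact (h.gt hm).add (hg m hm.le)
    have := h1 hm0
    linarith

theorem IsG.le_add {f g : K} {V V' V'' : ℝ} {Q Q' Q'' : ℕ} (h : IsG v D γ f V Q)
    (h' : IsG v D γ g V' Q') (h'' : IsG v D γ (f + g) V'' Q'')
    (hle : toLex (V, Q) ≤ toLex (V', Q')) : toLex (V, Q) ≤ toLex (V'', Q'') := by
  rw [Prod.Lex.toLex_le_toLex] at hle ⊢
  have hVV : V ≤ V' := by
    rcases hle with h1 | h1
    · exact h1.le
    · exact h1.1.le
  have hv : v (dd D Q'' (f + g)) = V'' - Q'' * γ := by linarith [h''.2.1]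
  have h1 : V ≤ V'' := by
    have h2 : v.Ge (V - Q'' * γ) (dd D Q'' (f + g)) := by
      rw [dd_add]
      exact (h.ge Q'').add ((h'.ge Q'').mono (by linarith))
    have := h2 h''.1
    rw [hv] at this
    linarith
  rcases h1.lt_or_eq with h2 | h2
  · exact Or.inl h2
  · refine Or.inr ⟨h2, ?_⟩
    by_contra hcon
    simp only [not_le] at hcon
    have hg : v.Gt (V - Q'' * γ) (dd D Q'' g) := by
      intro h0
      rcases hle with h3 | h3
      · have := h'.ge Q'' h0
        simp only at h3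
        linarith
      · simp only at h3
        have := h'.gt (lt_of_lt_of_le hcon h3.2) h0
        rw [h3.1]
        exact this
    have h4 : v.Gt (V - Q'' * γ) (dd D Q'' (f + g)) := by
      rw [dd_add]
      exact (h.gt hcon).add hg
    have := h4 h''.1
    rw [hv] at this
    linarith

/-- The lexicographic ultrametric inequality. -/
theorem IsG.add_le {f g : K} {V V' V'' : ℝ} {Q Q' Q'' : ℕ} (h : IsG v D γ f V Q)
    (h' : IsG v D γ g V' Q') (h'' : IsG v D γ (f + g) V'' Q'') :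
    min (toLex (V, Q)) (toLex (V', Q')) ≤ toLex (V'', Q'') := by
  rcases le_total (toLex (V, Q)) (toLex (V', Q')) with hle | hle
  · rw [min_eq_left hle]
    exact h.le_add h' h'' hle
  · rw [min_eq_right hle]
    rw [add_comm] at h''
    exact h'.le_add h h'' hle

theorem IsG.smul {f : K} {V : ℝ} {Q : ℕ} (hk : ∀ c : k, c ≠ 0 → v (algebraMap k K c) = 0)
    (h : IsG v D γ f V Q) (c : k) (hc : c ≠ 0) : IsG v D γ (c • f) V Q := by
  have hc0 : algebraMap k K c ≠ 0 := (map_ne_zero (algebraMap k K)).mpr hc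
  have hne : ∀ m, dd D m (c • f) ≠ 0 ↔ dd D m f ≠ 0 := by
    intro m
    rw [dd_smul, Algebra.smul_def]
    constructor
    · intro h1 h2
      exact h1 (by rw [h2, mul_zero])
    · intro h1
      exact mul_ne_zero hc0 h1
  have hval : ∀ m, dd D m f ≠ 0 → v (dd D m (c • f)) = v (dd D m f) := by
    intro m hm
    rw [dd_smul, Algebra.smul_def, v.map_mul hc0 hm, hk c hc, zero_add]
  obtain ⟨h1, h2, h3, h4⟩ := h
  refine ⟨(hne Q).mpr h1, ?_, ?_, ?_⟩
  · rw [hval Q h1]; exact h2
  · intro m hm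
    rw [hval m ((hne m).mp hm)]
    exact h3 m ((hne m).mp hm)
  · intro m hm hm0
    rw [hval m ((hne m).mp hm0)]
    exact h4 m hm ((hne m).mp hm0)

theorem IsG.le {f : K} {V : ℝ} {Q : ℕ} (h : IsG v D γ f V Q) : V ≤ v f := by
  have h0 := h.ne_zero
  have := h.2.2.1 0 (by rw [dd_zero]; exact h0)
  rw [dd_zero] at this
  simpa using this

/-- Elements killed by `D`. -/
theorem isG_of_D_eq_zero {f : K} (hf : f ≠ 0) (hD : D f = 0) : IsG v D γ f (v f) 0 := by
  refine ⟨by rw [dd_zero]; exact hf, by rw [dd_zero]; simp, ?_, ?_⟩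
  · intro m hm
    by_cases h : m = 0
    · subst h
      rw [dd_zero]
      simp
    · exact absurd (dd_of_D_eq_zero D m h f hD) hm
  · intro m hm
    exact absurd hm (Nat.not_lt_zero m)

/-- The value of `f`, if it exists. -/
noncomputable def gval (v : RVal K) (D : Derivation k K K) (γ : ℝ) (f : K) : ℝ :=
  open Classical in if h : ∃ V Q, IsG v D γ f V Q then h.choose else 0

theorem gval_eq {f : K} {V : ℝ} {Q : ℕ} (h : IsG v D γ f V Q) : gval v D γ f = V := by
  have h' : ∃ V Q, IsG v D γ f V Q := ⟨V, Q, h⟩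
  rw [gval, dif_pos h']
  obtain ⟨Q', hQ'⟩ := h'.choose_spec
  exact (hQ'.unique h).1

/-- `V_γ` extends to a valuation of the field if every element is a quotient of elements of `R`. -/
theorem exists_gauss (hγ : 0 < γ) (R : Subring K) (hR : ∀ f ∈ R, ∀ m, dd D m f ∈ R)
    (hv : ∀ f ∈ R, f ≠ 0 → 0 ≤ v f)
    (hfrac : ∀ x : K, ∃ a ∈ R, ∃ b ∈ R, b ≠ 0 ∧ x = a / b) :
    ∃ V : RVal K, ∀ f ∈ R, f ≠ 0 → ∃ Q, IsG v D γ f (V f) Q := by
  choose a ha b hb hb0 hab using hfrac
  have hex : ∀ f ∈ R, f ≠ 0 → ∃ Q, IsG v D γ f (gval v D γ f) Q := by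
    intro f hf hf0
    obtain ⟨V, Q, h⟩ := exists_isG hγ R hR hv f hf hf0
    exact ⟨Q, by rw [gval_eq h]; exact h⟩
  have hmul : ∀ f ∈ R, ∀ g ∈ R, f ≠ 0 → g ≠ 0 →
      gval v D γ (f * g) = gval v D γ f + gval v D γ g := by
    intro f hf g hg hf0 hg0
    obtain ⟨Q, h⟩ := hex f hf hf0
    obtain ⟨Q', h'⟩ := hex g hg hg0
    exact gval_eq (h.mul h')
  have hadd : ∀ f ∈ R, ∀ g ∈ R, f ≠ 0 → g ≠ 0 → f + g ≠ 0 →
      min (gval v D γ f) (gval v D γ g) ≤ gval v D γ (f + g) := by
    intro f hf g hg hf0 hg0 hfg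
    obtain ⟨Q, h⟩ := hex f hf hf0
    obtain ⟨Q', h'⟩ := hex g hg hg0
    obtain ⟨Q'', h''⟩ := hex (f + g) (R.add_mem hf hg) hfg
    have h3 := h.add_le h' h''
    rcases min_le_iff.mp h3 with h4 | h4
    · rw [Prod.Lex.toLex_le_toLex] at h4
      refine (min_le_left _ _).trans ?_
      rcases h4 with h4 | h4
      · exact h4.le
      · exact h4.1.le
    · rw [Prod.Lex.toLex_le_toLex] at h4
      refine (min_le_right _ _).trans ?_
      rcases h4 with h4 | h4
      · exact h4.le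
      · exact h4.1.le
  have ha0 : ∀ x : K, x ≠ 0 → a x ≠ 0 := by
    intro x hx h
    apply hx
    rw [hab x, h, zero_div]
  let W : K → ℝ := fun x => gval v D γ (a x) - gval v D γ (b x)
  have hW : ∀ x c d : K, x ≠ 0 → c ∈ R → d ∈ R → d ≠ 0 → x = c / d →
      W x = gval v D γ c - gval v D γ d := by
    intro x c d hx hc hd hd0 hxe
    have hc0 : c ≠ 0 := by
      intro h
      apply hx
      rw [hxe, h, zero_div]
    have h1 : a x * d = c * b x := by
      have h2 := hab x
      rw [hxe] at h2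
      rw [div_eq_div_iff hd0 (hxe ▸ hb0 x)] at h2
      rw [hxe]
      exact h2.symm
    have h3 := hmul (a x) (ha x) d hd (ha0 x hx) hd0
    have h4 := hmul c hc (b x) (hb x) hc0 (hb0 x)
    rw [h1] at h3
    simp only [W]
    linarith
  refine ⟨⟨W, ?_, ?_⟩, ?_⟩
  · intro x y hx hy
    have h1 := hW (x * y) (a x * a y) (b x * b y) (mul_ne_zero hx hy)
      (R.mul_mem (ha x) (ha y)) (R.mul_mem (hb x) (hb y)) (mul_ne_zero (hb0 x) (hb0 y))
      (by conv_lhs => rw [hab x, hab y]
          rw [div_mul_div_comm])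
    rw [h1, hmul _ (ha x) _ (ha y) (ha0 x hx) (ha0 y hy),
      hmul _ (hb x) _ (hb y) (hb0 x) (hb0 y)]
    simp only [W]
    ring
  · intro x y hx hy hxy
    have he : x + y = (a x * b y + b x * a y) / (b x * b y) := by
      conv_lhs => rw [hab x, hab y]
      rw [div_add_div _ _ (hb0 x) (hb0 y)]
    have hn : a x * b y + b x * a y ≠ 0 := by
      intro h
      apply hxy
      rw [he, h, zero_div]
    have h1 := hW (x + y) (a x * b y + b x * a y) (b x * b y) hxy
      (R.add_mem (R.mul_mem (ha x) (hb y)) (R.mul_mem (hb x) (ha y)))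
      (R.mul_mem (hb x) (hb y)) (mul_ne_zero (hb0 x) (hb0 y)) he
    have h2 := hadd (a x * b y) (R.mul_mem (ha x) (hb y)) (b x * a y) (R.mul_mem (hb x) (ha y))
      (mul_ne_zero (ha0 x hx) (hb0 y)) (mul_ne_zero (hb0 x) (ha0 y hy)) hn
    rw [hmul _ (ha x) _ (hb y) (ha0 x hx) (hb0 y), hmul _ (hb x) _ (ha y) (hb0 x) (ha0 y hy)] at h2
    rw [h1, hmul _ (hb x) _ (hb y) (hb0 x) (hb0 y)]
    simp only [W]
    rcases min_le_iff.mp h2 with h3 | h3
    · exact (min_le_left _ _).trans (by linarith)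
    · exact (min_le_right _ _).trans (by linarith)
  · intro f hf hf0
    obtain ⟨Q, h⟩ := hex f hf hf0
    refine ⟨Q, ?_⟩
    have h1 := hW f f 1 hf0 hf R.one_mem one_ne_zero (by rw [div_one])
    have h2 : gval v D γ (1 : K) = 0 := by
      have h3 := hmul 1 R.one_mem 1 R.one_mem one_ne_zero one_ne_zero
      rw [mul_one] at h3
      linarith
    have h4 : W f = gval v D γ f := by rw [h1, h2, sub_zero]
    show IsG v D γ f (W f) Q
    rw [h4]
    exact h

/-- The values of the divided powers of `f` if `v f < v (D f) + γ'` for all `f`. -/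
theorem lt_dd {γ' : ℝ} (hD : ∀ f, D f ≠ 0 → v f < v (D f) + γ')
    (hn : ∀ m : ℕ, m ≠ 0 → v ((m : K)) = 0) {f : K} {m : ℕ} (hm : m ≠ 0) (hf : dd D m f ≠ 0) :
    v f < v (dd D m f) + m * γ' := by
  induction m with
  | zero => exact absurd rfl hm
  | succ m ih =>
    have hm1 : ((m : K) + 1) ≠ 0 := by exact_mod_cast Nat.succ_ne_zero m
    have h1 : D (dd D m f) = ((m : K) + 1) * dd D (m + 1) f := D_dd D m f
    have h2 : D (dd D m f) ≠ 0 := by
      rw [h1]
      exact mul_ne_zero hm1 hf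
    have h3 := hD _ h2
    have h4 : v ((m : K) + 1) = 0 := by
      have := hn (m + 1) (Nat.succ_ne_zero m)
      push_cast at this
      exact this
    rw [h1, v.map_mul hm1 hf, h4, zero_add] at h3
    by_cases hm0 : m = 0
    · subst hm0
      rw [dd_zero] at h3
      simp only [zero_add] at h3 ⊢
      push_cast
      linarith
    · have h5 : dd D m f ≠ 0 := by
        intro h
        rw [h, _root_.map_zero] at h2
        exact h2 rfl
      have h6 := ih hm0 h5
      push_cast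
      linarith

/-- `v f ≤ V f + (γ' - γ) Q f`. -/
theorem IsG.v_le {γ' : ℝ} (hD : ∀ f, D f ≠ 0 → v f < v (D f) + γ')
    (hn : ∀ m : ℕ, m ≠ 0 → v ((m : K)) = 0) {f : K} {V : ℝ} {Q : ℕ} (h : IsG v D γ f V Q) :
    v f ≤ V + (γ' - γ) * Q := by
  by_cases hQ : Q = 0
  · subst hQ
    have := h.2.1
    rw [dd_zero] at this
    push_cast at this ⊢
    linarith
  · have h1 := lt_dd hD hn hQ h.1
    have h2 := h.2.1
    linarith

/-- If `Q f ≥ 1` then the divided power of order `Q f - 1` of `f` has `Q = 1`. -/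
theorem IsG.pred (hn : ∀ m : ℕ, m ≠ 0 → v ((m : K)) = 0) {f : K} {V : ℝ} {Q : ℕ}
    (h : IsG v D γ f V (Q + 1)) : IsG v D γ (dd D Q f) (V - Q * γ) 1 := by
  have hc : ∀ m : ℕ, ((m + Q).choose m : K) ≠ 0 := by
    intro m
    have : (m + Q).choose m ≠ 0 := (Nat.choose_pos (Nat.le_add_right m Q)).ne'
    exact_mod_cast this
  have hcv : ∀ m : ℕ, v ((m + Q).choose m : K) = 0 := fun m =>
    hn _ (Nat.choose_pos (Nat.le_add_right m Q)).ne'
  have hne : ∀ m, dd D m (dd D Q f) ≠ 0 → dd D (m + Q) f ≠ 0 := by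
    intro m hm h0
    rw [dd_dd, h0, mul_zero] at hm
    exact hm rfl
  have hval : ∀ m, dd D (m + Q) f ≠ 0 → v (dd D m (dd D Q f)) = v (dd D (m + Q) f) := by
    intro m hm
    rw [dd_dd, v.map_mul (hc m) hm, hcv, zero_add]
  obtain ⟨h1, h2, h3, h4⟩ := h
  have h1' : dd D (1 + Q) f ≠ 0 := by rw [add_comm]; exact h1
  refine ⟨?_, ?_, ?_, ?_⟩
  · rw [dd_dd]
    exact mul_ne_zero (hc 1) h1'
  · rw [hval 1 h1', add_comm 1 Q]
    push_cast at h2 ⊢
    linarith
  · intro m hm
    have h5 := hne m hm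
    rw [hval m h5]
    have h6 := h3 _ h5
    push_cast at h6
    linarith
  · intro m hm hm0
    have hm' : m = 0 := by omega
    subst hm'
    rw [dd_zero] at hm0 ⊢
    have h6 := h4 Q (Nat.lt_succ_self Q) hm0
    push_cast
    linarith

/-- For `γ` close to `γ'` the element `f` has `Q = 0` (and so `V = v f`). -/
theorem exists_isG_zero {γ' : ℝ} (hγ' : 0 < γ') (hD : ∀ f, D f ≠ 0 → v f < v (D f) + γ')
    (hn : ∀ m : ℕ, m ≠ 0 → v ((m : K)) = 0) (R : Subring K) (hR : ∀ f ∈ R, ∀ m, dd D m f ∈ R)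
    (hv : ∀ f ∈ R, f ≠ 0 → 0 ≤ v f) (f : K) (hf : f ∈ R) (hf0 : f ≠ 0) :
    ∃ γ₀ < γ', ∀ γ, γ₀ ≤ γ → γ < γ' → IsG v D γ f (v f) 0 := by
  have hstep : ∀ N : ℕ, ∃ γ₀, γ' / 2 ≤ γ₀ ∧ γ₀ < γ' ∧
      ∀ m, m ≤ N → dd D m f ≠ 0 → v f ≤ v (dd D m f) + m * γ₀ := by
    intro N
    induction N with
    | zero =>
      refine ⟨γ' / 2, le_rfl, by linarith, ?_⟩
      intro m hm _
      have hm' : m = 0 := by omega
      subst hm'
      rw [dd_zero]
      simp
    | succ N ih =>
      obtain ⟨γ₀, h1, h2, h3⟩ := ih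
      have hN : (0 : ℝ) < (N : ℝ) + 1 := by positivity
      by_cases h0 : dd D (N + 1) f = 0
      · refine ⟨γ₀, h1, h2, ?_⟩
        intro m hm hm0
        rcases Nat.lt_or_ge N m with hm' | hm'
        · have : m = N + 1 := by omega
          subst this
          exact absurd h0 hm0
        · exact h3 m hm' hm0
      · have h4 := lt_dd hD hn (Nat.succ_ne_zero N) h0
        push_cast at h4
        have h5 : (v f - v (dd D (N + 1) f)) / ((N : ℝ) + 1) < γ' := by
          rw [div_lt_iff₀ hN]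
          linarith
        refine ⟨max γ₀ ((v f - v (dd D (N + 1) f)) / ((N : ℝ) + 1)), h1.trans (le_max_left _ _),
          max_lt h2 h5, ?_⟩
        intro m hm hm0
        rcases Nat.lt_or_ge N m with hm' | hm'
        · have : m = N + 1 := by omega
          subst this
          have h6 := le_max_right γ₀ ((v f - v (dd D (N + 1) f)) / ((N : ℝ) + 1))
          rw [div_le_iff₀ hN] at h6
          push_cast
          linarith
        · have h6 := h3 m hm' hm0
          have h7 : (m : ℝ) * γ₀ ≤ m * max γ₀ ((v f - v (dd D (N + 1) f)) / ((N : ℝ) + 1)) :=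
            mul_le_mul_of_nonneg_left (le_max_left _ _) (Nat.cast_nonneg m)
          linarith
  obtain ⟨N, hN⟩ := exists_nat_gt (v f / (γ' / 2))
  have hN' : v f < N * (γ' / 2) := by
    rw [div_lt_iff₀ (by linarith)] at hN
    exact hN
  obtain ⟨γ₀, h1, h2, h3⟩ := hstep N
  refine ⟨γ₀, h2, ?_⟩
  intro γ hγ₀ hγ
  refine ⟨by rw [dd_zero]; exact hf0, by rw [dd_zero]; simp, ?_, ?_⟩
  · intro m hm0
    rcases Nat.lt_or_ge N m with hm | hm
    · have h4 := hv _ (hR f hf m) hm0
      have h5 : (N : ℝ) * (γ' / 2) ≤ m * γ := by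
        have h6 : (N : ℝ) ≤ m := by exact_mod_cast hm.le
        have h7 : γ' / 2 ≤ γ := h1.trans hγ₀
        have h8 : 0 ≤ γ' / 2 := by linarith
        exact mul_le_mul h6 h7 h8 (Nat.cast_nonneg m)
      linarith
    · have h4 := h3 m hm hm0
      have h5 : (m : ℝ) * γ₀ ≤ m * γ := mul_le_mul_of_nonneg_left hγ₀ (Nat.cast_nonneg m)
      linarith
  · intro m hm
    exact absurd hm (Nat.not_lt_zero m)

end Pool.Agent.H15JM
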