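import Pool.Agent.Lib.JM_H15.Defs
import Pool.Agent.Lib.JM_H15.Disc
import Pool.Agent.Lib.JM_H15.Gauss

/-!
# The competitor (OWNER: helper15)
-/

set_option autoImplicit false

open MvPolynomial

namespace Pool.Agent.H15JM

variable {k : Type} [Field k] {n : ℕ}

/-- The chain rule for Jacobian determinants. -/
theorem jacD_chain (D : Fin n → Derivation k (FF k n) (FF k n)) (f : Fin n → FF k n) :
    jacD D f = jacD D (fun i => toFF (X i)) * jacD pd f := by
  rw [jacD, jacD, jacD, ← Matrix.det_mul]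
  congr 1
  ext j i
  rw [Matrix.mul_apply, Matrix.of_apply, derivation_eq (D j) (f i)]
  rfl

theorem jacD_dual (D : Fin n → Derivation k (FF k n) (FF k n)) (y : Fin n → FF k n)
    (hDy : ∀ i j, D j (y i) = if i = j then 1 else 0) : jacD D y = 1 := by
  rw [jacD]
  have : (Matrix.of fun j i => D j (y i)) = (1 : Matrix (Fin n) (Fin n) (FF k n)) := by
    ext j i
    rw [Matrix.of_apply, hDy, Matrix.one_apply]
    by_cases h : i = j
    · simp [h]
    · simp [h, Ne.symm h]
  rw [this, Matrix.det_one]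

theorem jacD_pd_X : jacD pd (fun i : Fin n => (toFF (X i) : FF k n)) = 1 := by
  apply jacD_dual
  intro i j
  rw [pd_toFF, pderiv_X]
  by_cases h : i = j
  · subst h; simp
  · simp [h, Pi.single_apply]

/-- Derivations dual to a family of elements commute. -/
theorem derivations_comm (D : Fin n → Derivation k (FF k n) (FF k n)) (y : Fin n → FF k n)
    (hDy : ∀ i j, D j (y i) = if i = j then 1 else 0) (i j : Fin n) (f : FF k n) :
    D i (D j f) = D j (D i f) := by
  have hP : jacD pd y ≠ 0 := by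
    intro h
    have h1 := jacD_chain D y
    rw [jacD_dual D y hDy, h, mul_zero] at h1
    exact one_ne_zero h1
  set E : Derivation k (FF k n) (FF k n) := ⁅D i, D j⁆ with hE
  have hEy : ∀ m, E (y m) = 0 := by
    intro m
    rw [hE, Derivation.commutator_apply, hDy, hDy]
    have h0 : ∀ (a : Fin n) (p : Prop) [Decidable p], D a (if p then 1 else 0) = 0 := by
      intro a p _
      split_ifs
      · exact (D a).map_one_eq_zero
      · exact _root_.map_zero _
    rw [h0, h0, sub_zero]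
  have hx : (fun m => E (toFF (X m))) = 0 := by
    have h1 : Matrix.vecMul (fun m => E (toFF (X m))) (Matrix.of fun j i => pd j (y i)) = 0 := by
      ext m
      rw [Matrix.vecMul, Pi.zero_apply, ← hEy m, derivation_eq E (y m)]
      rfl
    exact Matrix.eq_zero_of_vecMul_eq_zero hP h1
  have h2 : E f = 0 := by
    rw [derivation_eq E f]
    refine Finset.sum_eq_zero fun m _ => ?_
    have := congrFun hx m
    simp only [Pi.zero_apply] at this
    rw [this, zero_mul]
  rw [hE, Derivation.commutator_apply, sub_eq_zero] at h2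
  exact h2

namespace ValX

variable (v : ValX k n)

theorem map_const (c : k) (hc : c ≠ 0) : v.toRVal (algebraMap k (FF k n) c) = 0 := by
  have h : ∀ a : k, a ≠ 0 → 0 ≤ v.toRVal (algebraMap k (FF k n) a) := by
    intro a ha
    have := v.nonneg' (C a) (by simpa using ha)
    rwa [← MvPolynomial.algebraMap_eq, AlgHom.commutes] at this
  have h1 := h c hc
  have h2 := h c⁻¹ (inv_ne_zero hc)
  have hc' : algebraMap k (FF k n) c ≠ 0 := by simpa using hc
  rw [map_inv₀, v.toRVal.map_inv hc'] at h2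
  linarith

theorem le_logDisc (f : Fin n → FF k n) (hf : jacD pd f ≠ 0) :
    ((∑ i, v (f i) - v (jacD pd f) : ℝ) : EReal) ≤ v.logDisc :=
  le_iSup (fun f : {f : Fin n → FF k n // jacD pd f ≠ 0} =>
    ((∑ i, v (f.1 i) - v (jacD pd f.1) : ℝ) : EReal)) ⟨f, hf⟩

theorem logDisc_le (A : ℝ)
    (h : ∀ f : Fin n → FF k n, jacD pd f ≠ 0 → ∑ i, v (f i) - v (jacD pd f) ≤ A) :
    v.logDisc ≤ (A : EReal) :=
  iSup_le fun f => EReal.coe_le_coe_iff.mpr (h f.1 f.2)

theorem coe_toReal (h : v.logDisc < ⊤) : ((v.logDisc.toReal : ℝ) : EReal) = v.logDisc := by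
  apply EReal.coe_toReal h.ne
  intro hbot
  have h1 := v.le_logDisc (fun i => toFF (X i)) (by rw [jacD_pd_X]; exact one_ne_zero)
  rw [hbot] at h1
  exact (EReal.coe_ne_bot _) (le_bot_iff.mp h1)

theorem le_toReal (h : v.logDisc < ⊤) (f : Fin n → FF k n) (hf : jacD pd f ≠ 0) :
    ∑ i, v (f i) - v (jacD pd f) ≤ v.logDisc.toReal := by
  have h1 := v.le_logDisc f hf
  rw [← v.coe_toReal h] at h1
  exact EReal.coe_le_coe_iff.mp h1

theorem toReal_le (h : v.logDisc < ⊤) (A : ℝ)
    (hA : ∀ f : Fin n → FF k n, jacD pd f ≠ 0 → ∑ i, v (f i) - v (jacD pd f) ≤ A) :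
    v.logDisc.toReal ≤ A := by
  have h1 := v.logDisc_le A hA
  rw [← v.coe_toReal h] at h1
  exact EReal.coe_le_coe_iff.mp h1

theorem idealVal_le (b : Ideal (MvPolynomial (Fin n) k)) {f : MvPolynomial (Fin n) k}
    (hf : f ∈ b) (hf0 : f ≠ 0) : v.idealVal b ≤ v (toFF f) := by
  apply csInf_le
  · refine ⟨0, ?_⟩
    rintro t ⟨g, _, hg0, rfl⟩
    exact v.nonneg' g hg0
  · exact ⟨f, hf, hf0, rfl⟩

theorem le_idealVal (b : Ideal (MvPolynomial (Fin n) k)) (hb : b ≠ ⊥) (c : ℝ)
    (h : ∀ f ∈ b, f ≠ 0 → c ≤ v (toFF f)) : c ≤ v.idealVal b := by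
  apply le_csInf
  · obtain ⟨f, hf, hf0⟩ := Submodule.exists_mem_ne_zero_of_ne_bot hb
    exact ⟨_, f, hf, hf0, rfl⟩
  · rintro t ⟨g, hg, hg0, rfl⟩
    exact h g hg hg0

theorem idealVal_nonneg (b : Ideal (MvPolynomial (Fin n) k)) : 0 ≤ v.idealVal b := by
  apply Real.sInf_nonneg
  rintro t ⟨g, _, hg0, rfl⟩
  exact v.nonneg' g hg0

/-- Larger valuations (on the polynomials) have larger values on graded sequences. -/
theorem seqVal_mono (w : ValX k n) (a : GradedSeq k n)
    (h : ∀ p : MvPolynomial (Fin n) k, p ≠ 0 → v (toFF p) ≤ w (toFF p)) :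
    v.seqVal a ≤ w.seqVal a := by
  apply le_csInf
  · obtain ⟨m, hm, hm'⟩ := a.exists_ne_bot
    exact ⟨_, m, hm, hm', rfl⟩
  · rintro t ⟨m, hm, hm', rfl⟩
    refine le_trans (csInf_le ?_ ⟨m, hm, hm', rfl⟩) ?_
    · refine ⟨0, ?_⟩
      rintro t ⟨j, _, _, rfl⟩
      exact div_nonneg (v.idealVal_nonneg _) (Nat.cast_nonneg j)
    · apply div_le_div_of_nonneg_right _ (Nat.cast_nonneg m)
      apply w.le_idealVal _ hm'
      intro f hf hf0
      exact (v.idealVal_le _ hf hf0).trans (h f hf0)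

theorem seqVal_trivial (w : ValX k n) (a : GradedSeq k n) (h : ¬ w.Nontrivial) :
    w.seqVal a ≤ 0 := by
  obtain ⟨m, hm, hm'⟩ := a.exists_ne_bot
  obtain ⟨f, hf, hf0⟩ := Submodule.exists_mem_ne_zero_of_ne_bot hm'
  have h1 : w.idealVal (a.ideal m) ≤ 0 := by
    refine (w.idealVal_le _ hf hf0).trans (le_of_eq ?_)
    by_contra h2
    exact h ⟨toFF f, toFF_ne_zero hf0, h2⟩
  refine le_trans (csInf_le ?_ ⟨m, hm, hm', rfl⟩) ?_
  · refine ⟨0, ?_⟩
    rintro t ⟨j, _, _, rfl⟩
    exact div_nonneg (w.idealVal_nonneg _) (Nat.cast_nonneg j)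
  · exact div_nonpos_of_nonpos_of_nonneg h1 (Nat.cast_nonneg m)

/-- The multiple of a valuation. -/
noncomputable def scale (V : RVal (FF k n)) (c : ℝ) (hc : 0 < c)
    (hV : ∀ p : MvPolynomial (Fin n) k, p ≠ 0 → 0 ≤ V (toFF p)) : ValX k n where
  toFun x := c * V x
  map_mul' x y hx hy := by rw [V.map_mul hx hy, mul_add]
  map_add' x y hx hy hxy := by
    rw [← mul_min_of_nonneg _ _ hc.le]
    exact mul_le_mul_of_nonneg_left (V.map_add hx hy hxy) hc.le
  nonneg' p hp := mul_nonneg hc.le (hV p hp)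

end ValX

/-- If `v` computes and `V` is a valuation with `V ≤ v` on the polynomials and with log
discrepancy at most `A(v) - δ`, then `v ≤ (1 + δ / (A(v) + v(q))) V` fails for some polynomial. -/
theorem exists_big (v : ValX k n) (q : Ideal (MvPolynomial (Fin n) k)) (hq : q ≠ ⊥)
    (a : GradedSeq k n) (hcomp : v.Computes q a) (V : RVal (FF k n)) (δ : ℝ) (hδ : 0 < δ)
    (hV0 : ∀ p : MvPolynomial (Fin n) k, p ≠ 0 → 0 ≤ V (toFF p))
    (hVv : ∀ p : MvPolynomial (Fin n) k, p ≠ 0 → V (toFF p) ≤ v (toFF p))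
    (hA : ∀ f : Fin n → FF k n, jacD pd f ≠ 0 →
      ∑ i, V (f i) - V (jacD pd f) ≤ v.logDisc.toReal - δ)
    (hpos : ∃ f : Fin n → FF k n, jacD pd f ≠ 0 ∧ 0 < ∑ i, V (f i) - V (jacD pd f)) :
    ∃ p : MvPolynomial (Fin n) k, p ≠ 0 ∧
      (1 + δ * (v.logDisc.toReal + v.idealVal q)⁻¹) * V (toFF p) < v (toFF p) := by
  obtain ⟨hnt, hfin, hrat, hmax⟩ := hcomp
  set A : ℝ := v.logDisc.toReal with hAdef
  set S : ℝ := A + v.idealVal q with hS
  obtain ⟨f₀, hf₀, hf₀'⟩ := hpos
  have hA0 : δ < A := by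
    have := hA f₀ hf₀
    linarith
  have hq0 := v.idealVal_nonneg q
  have hS0 : 0 < S := by linarith
  by_contra hcon
  push Not at hcon
  set c : ℝ := 1 + δ * S⁻¹ with hc
  have hc0 : 0 < c := by positivity
  set w : ValX k n := ValX.scale V c hc0 hV0 with hw
  have hwapp : ∀ x, w x = c * V x := fun x => rfl
  have hseq : v.seqVal a ≤ w.seqVal a := ValX.seqVal_mono v w a fun p hp => hcon p hp
  have hseq0 : 0 < v.seqVal a := by
    have := hrat
    rw [ValX.ratio] at this
    by_contra h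
    push Not at h
    have := div_nonpos_of_nonpos_of_nonneg h hS0.le
    linarith
  have hwnt : w.Nontrivial := by
    by_contra h
    have := ValX.seqVal_trivial w a h
    linarith
  have hwA : ∀ f : Fin n → FF k n, jacD pd f ≠ 0 →
      ∑ i, w (f i) - w (jacD pd f) ≤ c * (A - δ) := by
    intro f hf
    simp only [hwapp]
    rw [← Finset.mul_sum, ← mul_sub]
    exact mul_le_mul_of_nonneg_left (hA f hf) hc0.le
  have hwfin : w.logDisc < ⊤ := lt_of_le_of_lt (w.logDisc_le _ hwA) (EReal.coe_lt_top _)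
  have hw1 : w.logDisc.toReal ≤ c * (A - δ) := w.toReal_le hwfin _ hwA
  have hw2 : 0 < w.logDisc.toReal := by
    have := w.le_toReal hwfin f₀ hf₀
    simp only [hwapp] at this
    rw [← Finset.mul_sum, ← mul_sub] at this
    have h2 : 0 < c * (∑ i, V (f₀ i) - V (jacD pd f₀)) := mul_pos hc0 hf₀'
    linarith
  have hwq : w.idealVal q ≤ c * v.idealVal q := by
    have h1 : c⁻¹ * w.idealVal q ≤ v.idealVal q := by
      apply v.le_idealVal q hq
      intro f hf hf0
      have h2 := w.idealVal_le q hf hf0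
      rw [hwapp] at h2
      have h3 := mul_le_mul_of_nonneg_left (hVv f hf0) hc0.le
      rw [inv_mul_le_iff₀ hc0]
      linarith
    rwa [inv_mul_le_iff₀ hc0] at h1
  have hwq0 := w.idealVal_nonneg q
  have hSw : w.logDisc.toReal + w.idealVal q < S := by
    have h1 : w.logDisc.toReal + w.idealVal q ≤ c * (S - δ) := by
      have : c * (S - δ) = c * (A - δ) + c * v.idealVal q := by rw [hS]; ring
      linarith
    have h2 : c * (S - δ) = S - δ ^ 2 * S⁻¹ := by
      rw [hc]
      field_simp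
      ring
    have h3 : 0 < δ ^ 2 * S⁻¹ := by positivity
    linarith
  have hlt : v.ratio q a < w.ratio q a := by
    rw [ValX.ratio, ValX.ratio]
    calc v.seqVal a / S < v.seqVal a / (w.logDisc.toReal + w.idealVal q) :=
          div_lt_div_of_pos_left hseq0 (by linarith) hSw
      _ ≤ _ := div_le_div_of_nonneg_right hseq (by linarith)
  exact absurd (hmax w hwnt hwfin) (not_le.mpr hlt)

end Pool.Agent.H15JM
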