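import Pool.Agent.Lib.JM_H15.Defs

/-!
# Choice of the parameters `y_1, …, y_N, z = x_j` and the dual derivations
-/

set_option autoImplicit false

open MvPolynomial

namespace Pool.Agent.H15JM

variable {k : Type} [Field k]

/-- If `N` rational functions have values independent over `ℚ` then so have some `N` polynomials.
(The values of the numerators and denominators span a space of dimension at least `N`.) -/
theorem exists_poly_indep {n N : ℕ} (v : ValX k n) (f : Fin N → FF k n) (hf : ∀ i, f i ≠ 0)
    (hind : LinearIndependent ℚ fun i => v (f i)) :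
    ∃ y : Fin N → MvPolynomial (Fin n) k, (∀ i, y i ≠ 0) ∧
      LinearIndependent ℚ fun i => v (toFF (y i)) := by
  classical
  choose p q hq hpq using fun i => exists_frac (f i)
  have hp : ∀ i, p i ≠ 0 := by
    intro i h
    apply hf i
    rw [hpq i, h, _root_.map_zero, zero_div]
  let g : Fin N ⊕ Fin N → MvPolynomial (Fin n) k := Sum.elim p q
  have hg : ∀ s, g s ≠ 0 := by
    rintro (i | i)
    · exact hp i
    · exact hq i
  let u : Fin N ⊕ Fin N → ℝ := fun s => v (toFF (g s))
  obtain ⟨b, hbu, hspan, hbind⟩ := exists_linearIndependent ℚ (Set.range u)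
  have hbfin : b.Finite := (Set.finite_range u).subset hbu
  have := hbfin.fintype
  have hle : Set.range (fun i => v (f i)) ≤ (Submodule.span ℚ b : Set ℝ) := by
    rintro _ ⟨i, rfl⟩
    have h1 : v (f i) = u (Sum.inl i) - u (Sum.inr i) := by
      show v (f i) = v (toFF (p i)) - v (toFF (q i))
      rw [hpq i]
      exact v.toRVal.map_div (toFF_ne_zero (hp i)) (toFF_ne_zero (hq i))
    show v (f i) ∈ Submodule.span ℚ b
    rw [h1, hspan]
    exact Submodule.sub_mem _ (Submodule.subset_span ⟨_, rfl⟩) (Submodule.subset_span ⟨_, rfl⟩)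
  have hcard := linearIndependent_le_span' _ hind b hle
  rw [Cardinal.mk_fin] at hcard
  have hcard' : Fintype.card (Fin N) ≤ Fintype.card b := by
    rw [Fintype.card_fin]
    exact_mod_cast hcard
  obtain ⟨e⟩ := Function.Embedding.nonempty_of_card_le hcard'
  choose s hs using fun i => hbu (e i).2
  refine ⟨fun i => g (s i), fun i => hg _, ?_⟩
  have h2 := hbind.comp e e.injective
  have h3 : (fun i => v (toFF (g (s i)))) = ((fun x : b => (x : ℝ)) ∘ e) := by
    funext i
    exact hs i
  rw [h3]
  exact h2

/-- The value of a nonzero constant is zero. -/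
theorem val_algebraMap {n : ℕ} (v : ValX k n) {c : k} (hc : c ≠ 0) :
    v (algebraMap k (FF k n) c) = 0 := by
  have h1 : ∀ c : k, c ≠ 0 → 0 ≤ v (algebraMap k (FF k n) c) := by
    intro c hc
    have h := v.nonneg' (C c) (by simpa using hc)
    rwa [← MvPolynomial.algebraMap_eq, AlgHom.commutes] at h
  refine le_antisymm ?_ (h1 c hc)
  have h2 := h1 c⁻¹ (inv_ne_zero hc)
  have h3 : algebraMap k (FF k n) c ≠ 0 := by simpa using hc
  have h4 : v (algebraMap k (FF k n) c⁻¹) = - v (algebraMap k (FF k n) c) := by
    rw [map_inv₀]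
    exact v.toRVal.map_inv h3
  linarith

/-- A finite nonempty sum of nonzero elements with distinct values is not zero, and its value is
the least value. -/
theorem RVal.sum_ne_zero {K : Type*} [Field K] (v : RVal K) {ι : Type*} (s : Finset ι)
    (f : ι → K) (hf : ∀ i ∈ s, f i ≠ 0) (hinj : Set.InjOn (fun i => v (f i)) (s : Set ι))
    (hs : s.Nonempty) :
    ∑ i ∈ s, f i ≠ 0 ∧ ∃ i ∈ s, v (∑ i ∈ s, f i) = v (f i) := by
  classical
  induction hs using Finset.Nonempty.cons_induction with
  | singleton a => simpa using hf a (Finset.mem_singleton_self a)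
  | cons a s ha hs ih =>
    obtain ⟨h1, i, hi, h2⟩ := ih (fun i hi => hf i (Finset.mem_cons_of_mem hi))
      (hinj.mono (by
        intro x hx
        exact Finset.mem_coe.2 (Finset.mem_cons_of_mem (Finset.mem_coe.1 hx))))
    have hne : v (f a) ≠ v (f i) := by
      intro h
      have := hinj (Finset.mem_coe.2 (Finset.mem_cons_self a s))
        (Finset.mem_coe.2 (Finset.mem_cons_of_mem hi)) h
      rw [this] at ha
      exact ha hi
    rw [Finset.sum_cons]
    have hfa := hf a (Finset.mem_cons_self a s)
    rcases lt_or_gt_of_ne hne with hlt | hgt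
    · have := v.add_of_lt hfa h1 (by rw [h2]; exact hlt)
      exact ⟨this.1, a, Finset.mem_cons_self a s, this.2⟩
    · have := v.add_of_lt h1 hfa (by rw [h2]; exact hgt)
      rw [add_comm] at this
      exact ⟨this.1, i, Finset.mem_cons_of_mem hi, this.2.trans h2⟩

/-- Elements with independent values are algebraically independent. (Distinct monomials have
distinct values, `v` is trivial on `k`.) -/
theorem algebraicIndependent_of_values {n N : ℕ} (v : ValX k n) (y : Fin N → FF k n)
    (hy : ∀ i, y i ≠ 0) (hind : LinearIndependent ℚ fun i => v (y i)) :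
    AlgebraicIndependent k y := by
  rw [algebraicIndependent_iff]
  intro p hp
  by_contra hp0
  have hsupp : p.support.Nonempty := by
    rw [Finset.nonempty_iff_ne_empty]
    intro h
    exact hp0 (MvPolynomial.support_eq_empty.1 h)
  have hmon : ∀ s : Fin N →₀ ℕ, (∏ i, y i ^ s i) ≠ 0 := fun s =>
    Finset.prod_ne_zero_iff.2 fun i _ => pow_ne_zero _ (hy i)
  have hval : ∀ s ∈ p.support, v (algebraMap k (FF k n) (p.coeff s) * ∏ i, y i ^ s i) =
      ∑ i, (s i : ℝ) * v (y i) := by
    intro s hs
    have hc : p.coeff s ≠ 0 := MvPolynomial.mem_support_iff.1 hs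
    have hc' : algebraMap k (FF k n) (p.coeff s) ≠ 0 := by simpa using hc
    have h1 : v (algebraMap k (FF k n) (p.coeff s) * ∏ i, y i ^ s i) =
        v (algebraMap k (FF k n) (p.coeff s)) + v (∏ i, y i ^ s i) :=
      v.toRVal.map_mul hc' (hmon s)
    have h2 : v (∏ i, y i ^ s i) = ∑ i, v (y i ^ s i) :=
      v.toRVal.map_prod _ _ fun i _ => pow_ne_zero _ (hy i)
    rw [h1, val_algebraMap v hc, zero_add, h2]
    refine Finset.sum_congr rfl fun i _ => ?_
    exact v.toRVal.map_pow (hy i) _
  have h := v.toRVal.sum_ne_zero p.support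
    (fun s => algebraMap k (FF k n) (p.coeff s) * ∏ i, y i ^ s i) (by
      intro s hs
      refine mul_ne_zero ?_ (hmon s)
      simpa using MvPolynomial.mem_support_iff.1 hs) (by
      intro s hs t ht hst
      have hst' : (∑ i, (s i : ℝ) * v (y i)) = ∑ i, (t i : ℝ) * v (y i) := by
        rw [← hval s hs, ← hval t ht]
        exact hst
      rw [Fintype.linearIndependent_iff] at hind
      have h3 := hind (fun i => (s i : ℚ) - (t i : ℚ)) (by
        simp only [Rat.smul_def]
        push_cast
        simp only [sub_mul, Finset.sum_sub_distrib]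
        rw [hst', sub_self])
      ext i
      have h4 := h3 i
      have h5 : (s i : ℚ) = t i := sub_eq_zero.1 h4
      exact_mod_cast h5) hsupp
  apply h.1
  rw [MvPolynomial.aeval_def, MvPolynomial.eval₂_eq'] at hp
  exact hp

/-- The coordinates are a transcendence basis. -/
theorem isTranscendenceBasis_coord {n : ℕ} :
    IsTranscendenceBasis k (fun j : Fin n => (toFF (X j : MvPolynomial (Fin n) k) : FF k n)) := by
  have : Algebra.IsAlgebraic (MvPolynomial (Fin n) k) (FF k n) := by
    rw [IsFractionRing.comap_isAlgebraic_iff (K := FF k n)]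
    infer_instance
  exact (IsTranscendenceBasis.mvPolynomial (Fin n) k).algebraMap_comp

/-- `N` algebraically independent elements of `k(x_0, …, x_N)` are completed to a transcendence
basis by one of the `x_j`. -/
theorem exists_coordinate {N : ℕ} (y : Fin N → FF k (N + 1)) (hy : AlgebraicIndependent k y) :
    ∃ j : Fin (N + 1), IsTranscendenceBasis k
      (Fin.snoc y (toFF (X j)) : Fin (N + 1) → FF k (N + 1)) := by
  have hX := isTranscendenceBasis_coord (k := k) (n := N + 1)
  by_cases hall : ∀ j : Fin (N + 1), IsAlgebraic (Algebra.adjoin k (Set.range y))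
      (toFF (X j : MvPolynomial (Fin (N + 1)) k) : FF k (N + 1))
  · exfalso
    have halg : Algebra.IsAlgebraic (Algebra.adjoin k (Set.range y)) (FF k (N + 1)) :=
      hX.isAlgebraic_iff.2 hall
    have hyb := hy.isTranscendenceBasis_iff_isAlgebraic.2 halg
    have h1 := hX.lift_cardinalMk_eq hyb
    simp only [Cardinal.mk_fin, Cardinal.lift_natCast] at h1
    have h2 : N + 1 = N := by exact_mod_cast h1
    omega
  · push Not at hall
    obtain ⟨j, hj⟩ := hall
    refine ⟨j, ?_⟩
    have h1 := (hy.option_iff_transcendental (toFF (X j))).2 hj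
    have h2 : AlgebraicIndependent k (Fin.snoc y (toFF (X j)) : Fin (N + 1) → FF k (N + 1)) := by
      rw [← algebraicIndependent_equiv (finSuccEquivLast (n := N)).symm]
      convert h1 using 1
      funext o
      cases o with
      | none => simp
      | some i => simp
    refine h2.isTranscendenceBasis_of_lift_trdeg_le_of_finite ?_
    rw [← hX.lift_cardinalMk_eq_trdeg]

theorem derivation_sum_apply {n : ℕ} {ι : Type*} (s : Finset ι)
    (D : ι → Derivation k (FF k n) (FF k n)) (f : FF k n) : (∑ i ∈ s, D i) f = ∑ i ∈ s, D i f := by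
  classical
  induction s using Finset.induction_on with
  | empty => simp
  | insert a s ha ih => rw [Finset.sum_insert ha, Finset.sum_insert ha, Derivation.add_apply, ih]

/-- The Jacobian determinant of a transcendence basis is not zero in characteristic zero.
(Otherwise some nonzero combination `E` of the `pd j` kills the `t i`; a derivation that
kills `t` kills every element algebraic over `k(t)`; but `E (x_j) ≠ 0` for some `j`.) -/
theorem jacD_ne_zero [CharZero k] {n : ℕ} (t : Fin n → FF k n) (ht : IsTranscendenceBasis k t) :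
    jacD pd t ≠ 0 := by
  classical
  intro hdet
  obtain ⟨c, hc0, hc⟩ := Matrix.exists_vecMul_eq_zero_iff.2 hdet
  -- the derivation
  let E : Derivation k (FF k n) (FF k n) := ∑ j, c j • pd j
  have hE : ∀ f, E f = ∑ j, c j * pd j f := by
    intro f
    show (∑ j, c j • (pd j : Derivation k (FF k n) (FF k n))) f = _
    rw [derivation_sum_apply]
    rfl
  have hEt : ∀ i, E (t i) = 0 := by
    intro i
    have := congrFun hc i
    rw [hE]
    simpa [Matrix.vecMul, dotProduct] using this
  -- the field of constants of `E`
  let F : IntermediateField k (FF k n) := IntermediateField.adjoin k (Set.range t)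
  have hEF : ∀ x ∈ F, E x = 0 := by
    intro x hx
    refine IntermediateField.adjoin_induction (p := fun x _ => E x = 0) k ?_ ?_ ?_ ?_ ?_ hx
    · rintro _ ⟨i, rfl⟩
      exact hEt i
    · intro a
      exact E.map_algebraMap a
    · intro x y _ _ hx hy
      rw [_root_.map_add, hx, hy, add_zero]
    · intro x _ hx
      rw [E.leibniz_inv, hx, smul_zero]
    · intro x y _ _ hx hy
      rw [E.leibniz, hx, hy, smul_zero, smul_zero, add_zero]
  -- `E` as a derivation over `F`
  let E' : Derivation F (FF k n) (FF k n) :=
    { toFun := E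
      map_add' := fun x y => _root_.map_add E x y
      map_smul' := by
        intro a x
        have h0 : E (algebraMap F (FF k n) a) = 0 := hEF _ a.2
        rw [Algebra.smul_def, E.leibniz, h0]
        simp [Algebra.smul_def]
      map_one_eq_zero' := E.map_one_eq_zero
      leibniz' := fun x y => E.leibniz x y }
  have halg : Algebra.IsAlgebraic F (FF k n) := ht.isAlgebraic_field
  have hzero : ∀ x, E' x = 0 := by
    intro x
    have hint : IsIntegral F x := (halg.isAlgebraic x).isIntegral
    have h1 := E'.map_aeval (minpoly F x) x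
    rw [minpoly.aeval, _root_.map_zero] at h1
    have hsep : (minpoly F x).Separable := (minpoly.irreducible hint).separable
    have h2 := hsep.aeval_derivative_ne_zero (minpoly.aeval F x)
    rw [smul_eq_mul] at h1
    rcases mul_eq_zero.1 h1.symm with h | h
    · exact absurd h h2
    · exact h
  apply hc0
  funext j
  have h3 : E (toFF (X j)) = 0 := hzero _
  rw [hE, Finset.sum_eq_single j] at h3
  · rw [pd_toFF, pderiv_X_self, _root_.map_one, mul_one] at h3
    exact h3
  · intro i _ hij
    rw [pd_toFF, pderiv_X_of_ne (Ne.symm hij), _root_.map_zero, mul_zero]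
  · intro h
    exact absurd (Finset.mem_univ j) h

/-- Dual derivations (the inverse of the Jacobian matrix times the `pd j`). -/
theorem exists_dual_derivations {n : ℕ} (t : Fin n → FF k n) (ht : jacD pd t ≠ 0) :
    ∃ D : Fin n → Derivation k (FF k n) (FF k n), ∀ i j, D j (t i) = if i = j then 1 else 0 := by
  classical
  set M : Matrix (Fin n) (Fin n) (FF k n) := Matrix.of fun j i => pd j (t i) with hM
  have hdet : IsUnit M.det := isUnit_iff_ne_zero.2 ht
  refine ⟨fun j => ∑ l, (M⁻¹) j l • pd l, fun i j => ?_⟩
  show (∑ l, (M⁻¹) j l • pd l : Derivation k (FF k n) (FF k n)) (t i) = _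
  rw [derivation_sum_apply]
  have h1 : (M⁻¹ * M) j i = ∑ l, (M⁻¹) j l * pd l (t i) := by
    rw [Matrix.mul_apply]
    rfl
  have h2 : (∑ l, ((M⁻¹) j l • pd l : Derivation k (FF k n) (FF k n)) (t i)) =
      ∑ l, (M⁻¹) j l * pd l (t i) := rfl
  rw [h2, ← h1, Matrix.nonsing_inv_mul _ hdet, Matrix.one_apply]
  simp only [eq_comm]

/-- Taylor expansion of order one at the point `c`. -/
theorem taylor_one {n : ℕ} (c : Fin n → k) (p : MvPolynomial (Fin n) k) :
    ∃ (a : k) (g : Fin n → MvPolynomial (Fin n) k), p = C a + ∑ i, (X i - C (c i)) * g i := by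
  classical
  induction p using MvPolynomial.induction_on with
  | C a => exact ⟨a, fun _ => 0, by simp⟩
  | add p q hp hq =>
    obtain ⟨a, g, hg⟩ := hp
    obtain ⟨b, h, hh⟩ := hq
    refine ⟨a + b, fun i => g i + h i, ?_⟩
    rw [hg, hh]
    simp only [mul_add, Finset.sum_add_distrib, C_add]
    ring
  | mul_X p j hp =>
    obtain ⟨a, g, hg⟩ := hp
    refine ⟨c j * a, fun i => C (c j) * g i + if i = j then p else 0, ?_⟩
    have h1 : ∑ i, (X i - C (c i)) * (C (c j) * g i + if i = j then p else 0) =
        C (c j) * ∑ i, (X i - C (c i)) * g i + (X j - C (c j)) * p := by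
      rw [Finset.mul_sum]
      simp only [mul_add, Finset.sum_add_distrib]
      congr 1
      · refine Finset.sum_congr rfl fun i _ => ?_
        ring
      · simp
    rw [h1, C_mul]
    have h2 : ∑ i, (X i - C (c i)) * g i = p - C a := by rw [hg]; ring
    rw [h2]
    ring

end Pool.Agent.H15JM
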