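import Pool.Agent.Lib.JM_H15.Basic

/-!
# The completion of a valued field with a bounded derivation

Plan: `‖x‖ = exp (- v x)` makes `K` a normed field (ultrametric); `Ω = UniformSpace.Completion K`;
`w x = - log ‖x‖`; the derivation is Lipschitz, so it extends by continuity; the bound
`w f - w (E f) ≤ γ'` and the ultrametric inequality pass to the limit; roots of `1 + h`, `w h > 0`,
exist by the contraction `q ↦ q + (1 + h - (1 + q) ^ e) / e` of the ball `‖q‖ ≤ ‖h‖`.
-/

set_option autoImplicit false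

open Finset

namespace Pool.Agent.H15JM

section Root

variable {Ω : Type*} [NormedField Ω]

theorem um_sub (hum : ∀ x y : Ω, ‖x + y‖ ≤ max ‖x‖ ‖y‖) (x y : Ω) :
    ‖x - y‖ ≤ max ‖x‖ ‖y‖ := by
  have := hum x (-y)
  rwa [← sub_eq_add_neg, norm_neg] at this

theorem um_sum (hum : ∀ x y : Ω, ‖x + y‖ ≤ max ‖x‖ ‖y‖) {ι : Type*} (s : Finset ι) (f : ι → Ω)
    {ρ : ℝ} (hρ : 0 ≤ ρ) (hf : ∀ i ∈ s, ‖f i‖ ≤ ρ) : ‖∑ i ∈ s, f i‖ ≤ ρ := by
  classical
  induction s using Finset.induction_on with
  | empty => simpa using hρ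
  | insert a s ha ih =>
    rw [Finset.sum_insert ha]
    exact (hum _ _).trans (max_le (hf a (Finset.mem_insert_self a s))
      (ih fun i hi => hf i (Finset.mem_insert_of_mem hi)))

theorem one_ball_norm (hum : ∀ x y : Ω, ‖x + y‖ ≤ max ‖x‖ ‖y‖) {ρ : ℝ} (hρ1 : ρ < 1) {u : Ω}
    (hu : ‖u - 1‖ ≤ ρ) : ‖u‖ ≤ 1 := by
  have := hum (u - 1) 1
  rw [sub_add_cancel, norm_one] at this
  exact this.trans (max_le (hu.trans hρ1.le) le_rfl)

theorem one_ball_mul (hum : ∀ x y : Ω, ‖x + y‖ ≤ max ‖x‖ ‖y‖) {ρ : ℝ} (hρ : 0 ≤ ρ)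
    (hρ1 : ρ < 1) {u v : Ω} (hu : ‖u - 1‖ ≤ ρ) (hv : ‖v - 1‖ ≤ ρ) : ‖u * v - 1‖ ≤ ρ := by
  have h : u * v - 1 = (u - 1) * v + (v - 1) := by ring
  rw [h]
  refine (hum _ _).trans (max_le ?_ hv)
  rw [norm_mul]
  calc ‖u - 1‖ * ‖v‖ ≤ ρ * 1 := mul_le_mul hu (one_ball_norm hum hρ1 hv) (norm_nonneg _) hρ
    _ = ρ := mul_one _

theorem one_ball_pow (hum : ∀ x y : Ω, ‖x + y‖ ≤ max ‖x‖ ‖y‖) {ρ : ℝ} (hρ : 0 ≤ ρ)
    (hρ1 : ρ < 1) {u : Ω} (hu : ‖u - 1‖ ≤ ρ) (m : ℕ) : ‖u ^ m - 1‖ ≤ ρ := by
  induction m with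
  | zero => simpa using hρ
  | succ m ih =>
    rw [pow_succ]
    exact one_ball_mul hum hρ hρ1 ih hu

theorem root_contract (hum : ∀ x y : Ω, ‖x + y‖ ≤ max ‖x‖ ‖y‖) {ρ : ℝ} (hρ : 0 ≤ ρ)
    (hρ1 : ρ < 1) (e : ℕ) (he : ‖(e : Ω)‖ = 1) {x y : Ω} (hx : ‖x - 1‖ ≤ ρ) (hy : ‖y - 1‖ ≤ ρ) :
    ‖(x - y) - (x ^ e - y ^ e) / e‖ ≤ ρ * ‖x - y‖ := by
  have he0 : (e : Ω) ≠ 0 := by
    intro h
    rw [h, norm_zero] at he
    exact zero_ne_one he
  have key : (x - y) - (x ^ e - y ^ e) / e
      = -((∑ i ∈ range e, (x ^ i * y ^ (e - 1 - i) - 1)) / e) * (x - y) := by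
    have h1 := geom_sum₂_mul x y e
    have h2 : ∑ i ∈ range e, (x ^ i * y ^ (e - 1 - i) - 1)
        = (∑ i ∈ range e, x ^ i * y ^ (e - 1 - i)) - e := by
      rw [Finset.sum_sub_distrib]
      simp
    rw [h2, ← h1]
    field_simp
    ring
  rw [key, norm_mul, norm_neg, norm_div, he, div_one]
  refine mul_le_mul_of_nonneg_right ?_ (norm_nonneg _)
  refine um_sum hum _ _ hρ fun i _ => ?_
  exact one_ball_mul hum hρ hρ1 (one_ball_pow hum hρ hρ1 hx i) (one_ball_pow hum hρ hρ1 hy _)

theorem exists_root_of_complete [CompleteSpace Ω] (hum : ∀ x y : Ω, ‖x + y‖ ≤ max ‖x‖ ‖y‖)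
    (e : ℕ) (he : ‖(e : Ω)‖ = 1) (h : Ω) (hh : ‖h‖ < 1) : ∃ r : Ω, r ^ e = 1 + h := by
  have he0 : (e : Ω) ≠ 0 := by
    intro h
    rw [h, norm_zero] at he
    exact zero_ne_one he
  set ρ : ℝ := ‖h‖ with hρdef
  have hρ : 0 ≤ ρ := norm_nonneg _
  set s : Set Ω := Metric.closedBall (1 : Ω) ρ with hs
  have hmem : ∀ x : Ω, x ∈ s ↔ ‖x - 1‖ ≤ ρ := fun x => by
    rw [hs, Metric.mem_closedBall, dist_eq_norm]
  let T : Ω → Ω := fun x => x + (1 + h - x ^ e) / e
  have hTT : ∀ x y : Ω, T x - T y = (x - y) - (x ^ e - y ^ e) / e := by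
    intro x y
    simp only [T]
    field_simp
    ring
  have hT1 : T 1 - 1 = h / e := by
    simp only [T]
    field_simp
    ring
  have hcon : ∀ x ∈ s, ∀ y ∈ s, ‖T x - T y‖ ≤ ρ * ‖x - y‖ := by
    intro x hx y hy
    rw [hTT]
    exact root_contract hum hρ hh e he ((hmem x).1 hx) ((hmem y).1 hy)
  have h1s : (1 : Ω) ∈ s := by
    rw [hmem, sub_self, norm_zero]
    exact hρ
  have hmaps : Set.MapsTo T s s := by
    intro x hx
    rw [hmem]
    have e1 : T x - 1 = (T x - T 1) + (T 1 - 1) := by ring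
    rw [e1]
    refine (hum _ _).trans (max_le ?_ ?_)
    · refine (hcon x hx 1 h1s).trans ?_
      have : ‖x - 1‖ ≤ 1 := ((hmem x).1 hx).trans hh.le
      calc ρ * ‖x - 1‖ ≤ ρ * 1 := mul_le_mul_of_nonneg_left this hρ
        _ = ρ := mul_one _
    · rw [hT1, norm_div, he, div_one]
  have hclosed : IsComplete s := Metric.isClosed_closedBall.isComplete
  have hcontr : ContractingWith ‖h‖₊ (hmaps.restrict T s s) := by
    refine ⟨?_, LipschitzWith.of_dist_le_mul fun x y => ?_⟩
    · exact_mod_cast hh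
    · rw [Subtype.dist_eq, Subtype.dist_eq, dist_eq_norm, dist_eq_norm]
      exact hcon x x.2 y y.2
  obtain ⟨r, _, hfix, _⟩ := hcontr.exists_fixedPoint' hclosed hmaps h1s (edist_ne_top _ _)
  refine ⟨r, ?_⟩
  have h2 : T r = r := hfix
  have h3 : (1 + h - r ^ e) / e = 0 := by
    have : r + (1 + h - r ^ e) / e = r := h2
    simpa using this
  rcases div_eq_zero_iff.1 h3 with h4 | h4
  · exact (sub_eq_zero.1 h4).symm
  · exact absurd h4 he0

end Root

section Norm

variable {K : Type*} [Field K] (v : RVal K)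

/-- The absolute value of a real valuation. -/
noncomputable def nrm (x : K) : ℝ := by
  classical
  exact if x = 0 then 0 else Real.exp (- v x)

theorem nrm_zero : nrm v 0 = 0 := by simp [nrm]

theorem nrm_of_ne {x : K} (hx : x ≠ 0) : nrm v x = Real.exp (- v x) := by simp [nrm, hx]

theorem nrm_nonneg (x : K) : 0 ≤ nrm v x := by
  by_cases hx : x = 0
  · rw [hx, nrm_zero]
  · rw [nrm_of_ne v hx]
    exact (Real.exp_pos _).le

theorem nrm_pos {x : K} (hx : x ≠ 0) : 0 < nrm v x := by
  rw [nrm_of_ne v hx]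
  exact Real.exp_pos _

theorem nrm_mul (x y : K) : nrm v (x * y) = nrm v x * nrm v y := by
  by_cases hx : x = 0
  · rw [hx, zero_mul, nrm_zero, zero_mul]
  by_cases hy : y = 0
  · rw [hy, mul_zero, nrm_zero, mul_zero]
  rw [nrm_of_ne v hx, nrm_of_ne v hy, nrm_of_ne v (mul_ne_zero hx hy), v.map_mul hx hy, neg_add,
    Real.exp_add]

theorem nrm_neg (x : K) : nrm v (-x) = nrm v x := by
  by_cases hx : x = 0
  · rw [hx, neg_zero]
  rw [nrm_of_ne v hx, nrm_of_ne v (neg_ne_zero.mpr hx), v.map_neg x hx]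

theorem nrm_add (x y : K) : nrm v (x + y) ≤ max (nrm v x) (nrm v y) := by
  by_cases hx : x = 0
  · rw [hx, zero_add]
    exact le_max_right _ _
  by_cases hy : y = 0
  · rw [hy, add_zero]
    exact le_max_left _ _
  by_cases hxy : x + y = 0
  · rw [hxy, nrm_zero]
    exact le_max_of_le_left (nrm_nonneg v x)
  rw [nrm_of_ne v hx, nrm_of_ne v hy, nrm_of_ne v hxy]
  have h := v.map_add hx hy hxy
  rcases min_le_iff.1 h with h1 | h1
  · exact le_max_of_le_left (Real.exp_le_exp.2 (by linarith))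
  · exact le_max_of_le_right (Real.exp_le_exp.2 (by linarith))

/-- The normed field structure given by a real valuation. -/
@[reducible] noncomputable def nfield : NormedField K :=
  { (inferInstance : Field K) with
    norm := nrm v
    dist := fun x y => nrm v (x - y)
    dist_self := fun x => by rw [sub_self, nrm_zero]
    dist_comm := fun x y => by rw [← neg_sub, nrm_neg]
    dist_triangle := fun x y z => by
      have h := nrm_add v (x - y) (y - z)
      rw [sub_add_sub_cancel] at h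
      have h1 := nrm_nonneg v (x - y)
      have h2 := nrm_nonneg v (y - z)
      rcases le_max_iff.1 h with h3 | h3
      · linarith
      · linarith
    eq_of_dist_eq_zero := fun {x y} h => by
      by_contra hne
      exact (nrm_pos v (sub_ne_zero.mpr hne)).ne' h
    dist_eq := fun x y => by
      have : x - y = -(-x + y) := by ring
      rw [this, nrm_neg]
    norm_mul := fun x y => nrm_mul v x y }

end Norm

section Main

open UniformSpace

variable {k K : Type} [Field k] [NormedField K] [Algebra k K]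

theorem compl_um (hum : ∀ x y : K, ‖x + y‖ ≤ max ‖x‖ ‖y‖) (x y : Completion K) :
    ‖x + y‖ ≤ max ‖x‖ ‖y‖ := by
  induction x, y using Completion.induction_on₂ with
  | hp => exact isClosed_le (by fun_prop) (by fun_prop)
  | ih x y =>
    rw [← Completion.coe_add, Completion.norm_coe, Completion.norm_coe, Completion.norm_coe]
    exact hum x y

/-- The valuation of the completion. -/
noncomputable def complVal (hum : ∀ x y : K, ‖x + y‖ ≤ max ‖x‖ ‖y‖) : RVal (Completion K) where
  toFun x := - Real.log ‖x‖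
  map_mul' x y hx hy := by
    rw [norm_mul, Real.log_mul (norm_ne_zero_iff.2 hx) (norm_ne_zero_iff.2 hy), neg_add]
  map_add' x y hx hy hxy := by
    have h := compl_um hum x y
    rcases le_max_iff.1 h with h1 | h1
    · exact min_le_of_left_le (neg_le_neg (Real.log_le_log (norm_pos_iff.2 hxy) h1))
    · exact min_le_of_right_le (neg_le_neg (Real.log_le_log (norm_pos_iff.2 hxy) h1))

theorem complVal_apply (hum : ∀ x y : K, ‖x + y‖ ≤ max ‖x‖ ‖y‖) (x : Completion K) :
    complVal hum x = - Real.log ‖x‖ := rfl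

/-- The algebra structure of the completion. -/
noncomputable abbrev complAlg : Algebra k (Completion K) :=
  ((Completion.coeRingHom (α := K)).comp (algebraMap k K)).toAlgebra

theorem lip_cont (D : Derivation k K K) {C : ℝ} (hC : 0 ≤ C) (hD : ∀ f, ‖D f‖ ≤ C * ‖f‖) :
    UniformContinuous fun x => D x := by
  have : LipschitzWith ⟨C, hC⟩ fun x => D x := by
    refine LipschitzWith.of_dist_le_mul fun x y => ?_
    rw [dist_eq_norm, dist_eq_norm, ← map_sub]
    exact hD (x - y)
  exact this.uniformContinuous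

/-- The extension of a bounded derivation to the completion. -/
noncomputable def complMap (D : Derivation k K K) : Completion K → Completion K :=
  Completion.map fun x => D x

theorem complMap_coe (D : Derivation k K K) {C : ℝ} (hC : 0 ≤ C) (hD : ∀ f, ‖D f‖ ≤ C * ‖f‖)
    (x : K) : complMap D (x : Completion K) = ((D x : K) : Completion K) :=
  Completion.map_coe (lip_cont D hC hD) x

theorem complMap_cont (D : Derivation k K K) : Continuous (complMap D) :=
  Completion.continuous_map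

theorem complMap_add (D : Derivation k K K) {C : ℝ} (hC : 0 ≤ C) (hD : ∀ f, ‖D f‖ ≤ C * ‖f‖)
    (x y : Completion K) : complMap D (x + y) = complMap D x + complMap D y := by
  have hc := complMap_cont D
  induction x, y using Completion.induction_on₂ with
  | hp => exact isClosed_eq (by fun_prop) (by fun_prop)
  | ih x y =>
    rw [← Completion.coe_add, complMap_coe D hC hD, complMap_coe D hC hD, complMap_coe D hC hD,
      map_add, Completion.coe_add]

theorem complMap_mul (D : Derivation k K K) {C : ℝ} (hC : 0 ≤ C) (hD : ∀ f, ‖D f‖ ≤ C * ‖f‖)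
    (x y : Completion K) : complMap D (x * y) = x * complMap D y + y * complMap D x := by
  have hc := complMap_cont D
  induction x, y using Completion.induction_on₂ with
  | hp => exact isClosed_eq (by fun_prop) (by fun_prop)
  | ih x y =>
    rw [← Completion.coe_mul, complMap_coe D hC hD, complMap_coe D hC hD, complMap_coe D hC hD,
      Derivation.leibniz, smul_eq_mul, smul_eq_mul, Completion.coe_add, Completion.coe_mul,
      Completion.coe_mul]

theorem complMap_norm (D : Derivation k K K) {C : ℝ} (hC : 0 ≤ C) (hD : ∀ f, ‖D f‖ ≤ C * ‖f‖)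
    (x : Completion K) : ‖complMap D x‖ ≤ C * ‖x‖ := by
  have hc := complMap_cont D
  induction x using Completion.induction_on with
  | hp => exact isClosed_le (by fun_prop) (by fun_prop)
  | ih x =>
    rw [complMap_coe D hC hD, Completion.norm_coe, Completion.norm_coe]
    exact hD x

theorem exists_completion_aux (hum : ∀ x y : K, ‖x + y‖ ≤ max ‖x‖ ‖y‖)
    (hn : ∀ m : ℕ, m ≠ 0 → ‖(m : K)‖ = 1)
    (D : Derivation k K K) (γ' : ℝ) (hD : ∀ f, ‖D f‖ ≤ Real.exp γ' * ‖f‖) :
    ∃ (Ω : Type) (_ : Field Ω) (_ : Algebra k Ω) (ι : K →ₐ[k] Ω) (w : RVal Ω)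
      (E : Derivation k Ω Ω),
      (∀ x, x ≠ 0 → w (ι x) = - Real.log ‖x‖) ∧ (∀ x, E (ι x) = ι (D x)) ∧
      (∀ f, E f ≠ 0 → w f - w (E f) ≤ γ') ∧
      (∀ x : Ω, ∀ C : ℝ, ∃ a : K, w.Ge C (x - ι a)) ∧
      (∀ h : Ω, (h ≠ 0 → 0 < w h) → ∀ e : ℕ, e ≠ 0 → ∃ r : Ω, r ^ e = 1 + h) := by
  have hC : 0 ≤ Real.exp γ' := (Real.exp_pos _).le
  let alg : Algebra k (Completion K) := complAlg
  have halg : ∀ c : k, algebraMap k (Completion K) c
      = ((algebraMap k K c : K) : Completion K) := fun c => rfl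
  let ι : K →ₐ[k] Completion K :=
    { (Completion.coeRingHom (α := K)) with commutes' := fun c => rfl }
  have hι : ∀ x : K, ι x = (x : Completion K) := fun x => rfl
  let L : Completion K →ₗ[k] Completion K :=
    { toFun := complMap D
      map_add' := complMap_add D hC hD
      map_smul' := fun c x => by
        rw [Algebra.smul_def, RingHom.id_apply, Algebra.smul_def, halg, complMap_mul D hC hD,
          complMap_coe D hC hD, Derivation.map_algebraMap, Completion.coe_zero, mul_zero,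
          add_zero] }
  let E : Derivation k (Completion K) (Completion K) :=
    Derivation.mk' L fun x y => complMap_mul D hC hD x y
  have hE : ∀ x, E x = complMap D x := fun x => rfl
  refine ⟨Completion K, inferInstance, alg, ι, complVal hum, E, ?_, ?_, ?_, ?_, ?_⟩
  · intro x hx
    rw [hι, complVal_apply, Completion.norm_coe]
  · intro x
    rw [hE, hι, hι, complMap_coe D hC hD]
  · intro f hf
    rw [hE] at hf ⊢
    have h1 := complMap_norm D hC hD f
    have hf0 : f ≠ 0 := by
      intro h0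
      rw [h0, norm_zero, mul_zero] at h1
      exact hf (by rw [h0]; exact norm_le_zero_iff.1 h1)
    rw [complVal_apply, complVal_apply]
    have h2 := Real.log_le_log (norm_pos_iff.2 hf) h1
    rw [Real.log_mul (Real.exp_pos _).ne' (norm_ne_zero_iff.2 hf0), Real.log_exp] at h2
    linarith
  · intro x C
    obtain ⟨y, hy⟩ := (Completion.denseRange_coe (α := K)).exists_dist_lt x (Real.exp_pos (-C))
    refine ⟨y, fun hne => ?_⟩
    rw [hι] at hne ⊢
    rw [complVal_apply]
    rw [dist_eq_norm] at hy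
    have := Real.log_lt_log (norm_pos_iff.2 hne) hy
    rw [Real.log_exp] at this
    linarith
  · intro h hh e he
    have hnorm : ‖h‖ < 1 := by
      by_cases h0 : h = 0
      · rw [h0, norm_zero]
        exact one_pos
      · have h1 := hh h0
        rw [complVal_apply] at h1
        exact (Real.log_neg_iff (norm_pos_iff.2 h0)).1 (by linarith)
    refine exists_root_of_complete (compl_um hum) e ?_ h hnorm
    have : ((e : K) : Completion K) = (e : Completion K) :=
      map_natCast (Completion.coeRingHom (α := K)) e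
    rw [← this, Completion.norm_coe]
    exact hn e he

end Main

theorem exists_completion {k K : Type} [Field k] [Field K] [Algebra k K] [CharZero K] (v : RVal K)
    (_hk : ∀ c : k, c ≠ 0 → v (algebraMap k K c) = 0)
    (hn : ∀ m : ℕ, m ≠ 0 → v ((m : K)) = 0)
    (D : Derivation k K K) (γ' : ℝ) (hD : ∀ f, D f ≠ 0 → v f - v (D f) ≤ γ') :
    ∃ (Ω : Type) (_ : Field Ω) (_ : Algebra k Ω) (ι : K →ₐ[k] Ω) (w : RVal Ω)
      (E : Derivation k Ω Ω),
      (∀ x, x ≠ 0 → w (ι x) = v x) ∧ (∀ x, E (ι x) = ι (D x)) ∧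
      (∀ f, E f ≠ 0 → w f - w (E f) ≤ γ') ∧
      (∀ x : Ω, ∀ C : ℝ, ∃ a : K, w.Ge C (x - ι a)) ∧
      (∀ h : Ω, (h ≠ 0 → 0 < w h) → ∀ e : ℕ, e ≠ 0 → ∃ r : Ω, r ^ e = 1 + h) := by
  let nf : NormedField K := nfield v
  have hnorm : ∀ x : K, ‖x‖ = nrm v x := fun x => rfl
  obtain ⟨Ω, iF, iA, ι, w, E, h1, h2, h3, h4, h5⟩ :=
    exists_completion_aux (k := k) (K := K) (fun x y => nrm_add v x y)
      (fun m hm => by
        rw [hnorm, nrm_of_ne v (Nat.cast_ne_zero.2 hm), hn m hm, neg_zero, Real.exp_zero])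
      D γ' (fun f => by
        rw [hnorm, hnorm]
        by_cases hf : D f = 0
        · rw [hf, nrm_zero]
          exact mul_nonneg (Real.exp_pos _).le (nrm_nonneg v f)
        · have hf0 : f ≠ 0 := by
            intro h0
            exact hf (by rw [h0, map_zero])
          rw [nrm_of_ne v hf, nrm_of_ne v hf0, ← Real.exp_add]
          exact Real.exp_le_exp.2 (by linarith [hD f hf]))
  refine ⟨Ω, iF, iA, ι, w, E, ?_, h2, h3, h4, h5⟩
  intro x hx
  rw [h1 x hx, hnorm, nrm_of_ne v hx, Real.log_exp, neg_neg]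

end Pool.Agent.H15JM
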