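import Pool.Agent.Lib.JM_H15.Basic

/-!
# Distinct values and dimensions (OWNER: helper98)
-/

set_option autoImplicit false

open Finset

namespace Pool.Agent.H15JM

variable {k K : Type*} [Field k] [Field K] [Algebra k K]

section CombMin

variable {Γ : Type*} [LinearOrder Γ] (L : K → Γ) (C : Submodule k K)

omit [LinearOrder Γ] in
theorem L_neg (hsmul : ∀ c : k, c ≠ 0 → ∀ x ∈ C, x ≠ 0 → L (c • x) = L x) {x : K} (hx : x ∈ C)
    (hx0 : x ≠ 0) : L (-x) = L x := by
  have := hsmul (-1) (neg_ne_zero.mpr one_ne_zero) x hx hx0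
  rwa [neg_smul, one_smul] at this

theorem L_add_of_lt (hadd : ∀ x ∈ C, ∀ y ∈ C, x ≠ 0 → y ≠ 0 → x + y ≠ 0 →
      min (L x) (L y) ≤ L (x + y))
    (hsmul : ∀ c : k, c ≠ 0 → ∀ x ∈ C, x ≠ 0 → L (c • x) = L x) {x y : K} (hx : x ∈ C)
    (hy : y ∈ C) (hx0 : x ≠ 0) (hy0 : y ≠ 0) (h : L x < L y) : x + y ≠ 0 ∧ L (x + y) = L x := by
  have hne : x + y ≠ 0 := by
    intro h0
    rw [eq_neg_of_add_eq_zero_left h0, L_neg L C hsmul hy hy0] at h
    exact lt_irrefl _ h
  refine ⟨hne, le_antisymm ?_ ?_⟩
  · by_contra hcon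
    push Not at hcon
    have h1 := hadd (x + y) (C.add_mem hx hy) (-y) (C.neg_mem hy) hne (neg_ne_zero.mpr hy0)
      (by simpa using hx0)
    rw [L_neg L C hsmul hy hy0, add_neg_cancel_right] at h1
    exact absurd h1 (not_le.mpr (lt_min hcon h))
  · have := hadd x hx y hy hx0 hy0 hne
    rwa [min_eq_left h.le] at this

end CombMin

/-- Elements with distinct values are independent and their combinations have one of the given
values. -/
theorem comb_min {Γ : Type*} [LinearOrder Γ] (L : K → Γ) (C : Submodule k K)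
    (hadd : ∀ x ∈ C, ∀ y ∈ C, x ≠ 0 → y ≠ 0 → x + y ≠ 0 → min (L x) (L y) ≤ L (x + y))
    (hsmul : ∀ c : k, c ≠ 0 → ∀ x ∈ C, x ≠ 0 → L (c • x) = L x)
    (S : Finset K) (hS : ∀ s ∈ S, s ∈ C ∧ s ≠ 0) (hinj : Set.InjOn L S)
    (c : K → k) (hc : ∃ s ∈ S, c s ≠ 0) :
    ∑ s ∈ S, c s • s ≠ 0 ∧ ∃ s ∈ S, L (∑ s ∈ S, c s • s) = L s := by
  classical
  have key : ∀ T : Finset K, T ⊆ S → T.Nonempty → (∀ t ∈ T, c t ≠ 0) →
      ∑ s ∈ T, c s • s ≠ 0 ∧ ∃ s ∈ T, L (∑ s ∈ T, c s • s) = L s := by
    intro T
    induction T using Finset.induction_on with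
    | empty => intro _ h; exact absurd h (by simp)
    | insert a T ha ih =>
      intro hTS _ hcT
      have haS : a ∈ S := hTS (Finset.mem_insert_self a T)
      have hca : c a ≠ 0 := hcT a (Finset.mem_insert_self a T)
      have ha1 : c a • a ∈ C := C.smul_mem _ (hS a haS).1
      have ha0 : c a • a ≠ 0 := smul_ne_zero hca (hS a haS).2
      have hLa : L (c a • a) = L a := hsmul _ hca a (hS a haS).1 (hS a haS).2
      rcases T.eq_empty_or_nonempty with hT | hT
      · subst hT
        refine ⟨by simpa using ⟨hca, (hS a haS).2⟩, a, Finset.mem_insert_self a _, ?_⟩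
        simpa using hLa
      · have hTS' : T ⊆ S := fun t ht => hTS (Finset.mem_insert_of_mem ht)
        obtain ⟨h1, s, hs, hLs⟩ := ih hTS' hT fun t ht => hcT t (Finset.mem_insert_of_mem ht)
        have h2 : ∑ s ∈ T, c s • s ∈ C :=
          C.sum_mem fun t ht => C.smul_mem _ (hS t (hTS' ht)).1
        have hne : L a ≠ L s := by
          intro h
          have := hinj (Finset.mem_coe.mpr haS) (Finset.mem_coe.mpr (hTS' hs)) h
          rw [this] at ha
          exact ha hs
        rw [Finset.sum_insert ha]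
        rcases lt_or_gt_of_ne hne with h | h
        · have := L_add_of_lt L C hadd hsmul ha1 h2 ha0 h1 (by rw [hLa, hLs]; exact h)
          exact ⟨this.1, a, Finset.mem_insert_self a _, this.2.trans hLa⟩
        · have := L_add_of_lt L C hadd hsmul h2 ha1 h1 ha0 (by rw [hLa, hLs]; exact h)
          rw [add_comm (c a • a)]
          exact ⟨this.1, s, Finset.mem_insert_of_mem hs, this.2.trans hLs⟩
  obtain ⟨s₀, hs₀, hcs₀⟩ := hc
  have hsum : ∑ s ∈ S, c s • s = ∑ s ∈ S.filter (fun s => c s ≠ 0), c s • s := by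
    rw [Finset.sum_filter]
    refine Finset.sum_congr rfl fun s _ => ?_
    by_cases h : c s = 0
    · simp [h]
    · simp [h]
  rw [hsum]
  obtain ⟨h1, s, hs, h2⟩ := key (S.filter fun s => c s ≠ 0) (Finset.filter_subset _ _)
    ⟨s₀, Finset.mem_filter.mpr ⟨hs₀, hcs₀⟩⟩ fun t ht => (Finset.mem_filter.mp ht).2
  exact ⟨h1, s, (Finset.mem_filter.mp hs).1, h2⟩

/-- Elements of a value-distinct finite set are linearly independent. -/
theorem linearIndepOn_of_inj {Γ : Type*} [LinearOrder Γ] (L : K → Γ) (C : Submodule k K)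
    (hadd : ∀ x ∈ C, ∀ y ∈ C, x ≠ 0 → y ≠ 0 → x + y ≠ 0 → min (L x) (L y) ≤ L (x + y))
    (hsmul : ∀ c : k, c ≠ 0 → ∀ x ∈ C, x ≠ 0 → L (c • x) = L x)
    (S : Finset K) (hS : ∀ s ∈ S, s ∈ C ∧ s ≠ 0) (hinj : Set.InjOn L S) (c : K → k)
    (h0 : ∑ s ∈ S, c s • s = 0) : ∀ s ∈ S, c s = 0 := by
  by_contra hcon
  push Not at hcon
  exact (comb_min L C hadd hsmul S hS hinj c hcon).1 h0

theorem val_smul (v : RVal K) (hk : ∀ c : k, c ≠ 0 → v (algebraMap k K c) = 0) (c : k)
    (hc : c ≠ 0) (x : K) (hx : x ≠ 0) : v (c • x) = v x := by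
  rw [Algebra.smul_def, v.map_mul (by simpa using hc) hx, hk c hc, zero_add]

/-- If the residue field is `k` then a subspace of dimension `N` contains `N` elements with
distinct values. -/
theorem exists_distinct_values (v : RVal K) (hk : ∀ c : k, c ≠ 0 → v (algebraMap k K c) = 0)
    (hres : ∀ f : K, f ≠ 0 → v f = 0 →
      ∃ c : k, f = algebraMap k K c ∨ 0 < v (f - algebraMap k K c))
    (W : Submodule k K) [FiniteDimensional k W] :
    ∃ S : Finset K, S.card = Module.finrank k W ∧ (∀ s ∈ S, s ∈ W ∧ s ≠ 0) ∧ Set.InjOn v S := by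
  classical
  have key : ∀ m : ℕ, m ≤ Module.finrank k W →
      ∃ S : Finset K, S.card = m ∧ (∀ s ∈ S, s ∈ W ∧ s ≠ 0) ∧ Set.InjOn v S := by
    intro m
    induction m with
    | zero => intro _; exact ⟨∅, by simp, by simp, by simp⟩
    | succ m ih =>
      intro hm
      obtain ⟨S, hSc, hSW, hSi⟩ := ih (by omega)
      have hsp : Submodule.span k (S : Set K) ≤ W :=
        Submodule.span_le.mpr fun s hs => (hSW s hs).1
      have hlt : ∃ g ∈ W, g ∉ Submodule.span k (S : Set K) := by
        by_contra hcon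
        push Not at hcon
        have hle : W ≤ Submodule.span k (S : Set K) := hcon
        have h1 := Submodule.finrank_mono hle
        have h2 := finrank_span_finset_le_card (R := k) S
        unfold Set.finrank at h2
        omega
      obtain ⟨g, hgW, hg⟩ := hlt
      have hgne : ∀ w ∈ Submodule.span k (S : Set K), g + w ≠ 0 := by
        intro w hw h0
        apply hg
        rw [eq_neg_of_add_eq_zero_left h0]
        exact Submodule.neg_mem _ hw
      have hex : ∃ w ∈ Submodule.span k (S : Set K), ∀ s ∈ S, v (g + w) ≠ v s := by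
        by_contra hcon
        push Not at hcon
        have hT : ((S.image v).filter fun t =>
            ∃ w ∈ Submodule.span k (S : Set K), v (g + w) = t).Nonempty := by
          obtain ⟨s, hs, hsv⟩ := hcon 0 (Submodule.zero_mem _)
          exact ⟨v s, Finset.mem_filter.mpr
            ⟨Finset.mem_image_of_mem _ hs, 0, Submodule.zero_mem _, hsv⟩⟩
        obtain ⟨t, ht, htmax⟩ := Finset.exists_max_image _ id hT
        obtain ⟨-, w, hw, hwt⟩ := Finset.mem_filter.mp ht
        obtain ⟨s, hs, hws⟩ := hcon w hw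
        have hs0 : s ≠ 0 := (hSW s hs).2
        have hgw := hgne w hw
        have hq0 : (g + w) / s ≠ 0 := div_ne_zero hgw hs0
        have hqv : v ((g + w) / s) = 0 := by rw [v.map_div hgw hs0, hws, sub_self]
        obtain ⟨c, hc⟩ := hres _ hq0 hqv
        have hsmem : s ∈ Submodule.span k (S : Set K) := Submodule.subset_span hs
        have hw' : w + -(c • s) ∈ Submodule.span k (S : Set K) :=
          Submodule.add_mem _ hw (Submodule.neg_mem _ (Submodule.smul_mem _ _ hsmem))
        have hne' := hgne _ hw'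
        have hfac : g + (w + -(c • s)) = ((g + w) / s - algebraMap k K c) * s := by
          rw [sub_mul, div_mul_cancel₀ _ hs0, Algebra.smul_def]
          ring
        have hpos : 0 < v ((g + w) / s - algebraMap k K c) := by
          rcases hc with hc | hc
          · exact absurd (by rw [hfac, hc, sub_self, zero_mul]) hne'
          · exact hc
        have hne2 : (g + w) / s - algebraMap k K c ≠ 0 := by
          intro h
          rw [h, zero_mul] at hfac
          exact hne' hfac
        have hval : v (g + (w + -(c • s))) = v ((g + w) / s - algebraMap k K c) + v s := by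
          rw [hfac, v.map_mul hne2 hs0]
        obtain ⟨s', hs', hws'⟩ := hcon _ hw'
        have hmem : v (g + (w + -(c • s))) ∈ (S.image v).filter fun t =>
            ∃ w ∈ Submodule.span k (S : Set K), v (g + w) = t :=
          Finset.mem_filter.mpr ⟨by rw [hws']; exact Finset.mem_image_of_mem _ hs', _, hw', rfl⟩
        have := htmax _ hmem
        simp only [id] at this
        rw [hval, ← hwt, hws] at this
        linarith
      obtain ⟨w, hw, hwS⟩ := hex
      have hnot : g + w ∉ S := fun h => hwS _ h rfl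
      refine ⟨insert (g + w) S, by rw [Finset.card_insert_of_notMem hnot, hSc], ?_, ?_⟩
      · intro s hs
        rcases Finset.mem_insert.mp hs with rfl | hs
        · exact ⟨W.add_mem hgW (hsp hw), hgne w hw⟩
        · exact hSW s hs
      · rw [Finset.coe_insert, Set.injOn_insert (by exact_mod_cast hnot)]
        refine ⟨hSi, ?_⟩
        rintro ⟨s, hs, hsv⟩
        exact hwS s (by exact_mod_cast hs) hsv.symm
  exact key _ le_rfl

/-- The elements of value at least `c` form a submodule. -/
def geSub (V : RVal K) (hk : ∀ c : k, c ≠ 0 → V (algebraMap k K c) = 0) (a : ℝ) :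
    Submodule k K where
  carrier := {x | V.Ge a x}
  add_mem' := fun hx hy => RVal.Ge.add hx hy
  zero_mem' := RVal.Ge.zero
  smul_mem' := by
    intro c x hx h0
    have hc : c ≠ 0 := by rintro rfl; simp at h0
    have hx0 : x ≠ 0 := by rintro rfl; simp at h0
    rw [val_smul V hk c hc x hx0]
    exact hx hx0

theorem mem_geSub (V : RVal K) (hk : ∀ c : k, c ≠ 0 → V (algebraMap k K c) = 0) (a : ℝ) (x : K) :
    x ∈ geSub V hk a ↔ V.Ge a x := Iff.rfl

theorem geSub_mul (V : RVal K) (hk : ∀ c : k, c ≠ 0 → V (algebraMap k K c) = 0) (a b : ℝ) :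
    geSub V hk a * geSub V hk b ≤ geSub V hk (a + b) :=
  Submodule.mul_le.mpr fun _ hx _ hy => RVal.Ge.mul hx hy

/-- The monomials in `y` of degree `i`. -/
def monSpan (k : Type*) {K : Type*} [Field k] [Field K] [Algebra k K] {n : ℕ} (y : Fin n → K)
    (i : ℕ) : Submodule k K :=
  Submodule.span k {x | ∃ a : Fin n → ℕ, ∑ j, a j = i ∧ x = ∏ j, y j ^ a j}

theorem pow_le_monSpan {n : ℕ} (y : Fin n → K) (i : ℕ) :
    (Submodule.span k (Set.range y)) ^ i ≤ monSpan k y i := by
  induction i with
  | zero =>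
    rw [pow_zero, Submodule.one_eq_span]
    refine Submodule.span_le.mpr ?_
    rintro x hx
    rw [Set.mem_singleton_iff] at hx
    subst hx
    exact Submodule.subset_span ⟨fun _ => 0, by simp, by simp⟩
  | succ i ih =>
    rw [pow_succ]
    refine (mul_le_mul' ih le_rfl).trans ?_
    unfold monSpan
    rw [Submodule.span_mul_span]
    refine Submodule.span_mono ?_
    rintro _ ⟨x, ⟨a, ha, rfl⟩, _, ⟨j, rfl⟩, rfl⟩
    refine ⟨Function.update a j (a j + 1), ?_, ?_⟩
    · rw [← ha, Finset.sum_update_of_mem (Finset.mem_univ j),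
        ← Finset.add_sum_erase _ _ (Finset.mem_univ j), Finset.sdiff_singleton_eq_erase]
      ring
    · simp only
      rw [← Finset.mul_prod_erase _ _ (Finset.mem_univ j),
        ← Finset.mul_prod_erase (a := j) _ (fun l => y l ^ (Function.update a j (a j + 1)) l)
          (Finset.mem_univ j), Function.update_self]
      have : ∏ x ∈ Finset.univ.erase j, y x ^ Function.update a j (a j + 1) x
          = ∏ x ∈ Finset.univ.erase j, y x ^ a x := by
        refine Finset.prod_congr rfl fun l hl => ?_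
        rw [Function.update_of_ne (Finset.ne_of_mem_erase hl)]
      rw [this, pow_succ]
      ring

/-- The monomials with all exponents smaller than `M`. -/
def boxSpan (k : Type*) {K : Type*} [Field k] [Field K] [Algebra k K] {n : ℕ} (y : Fin n → K)
    (M : ℕ) : Submodule k K :=
  Submodule.span k (Set.range fun a : Fin n → Fin M => ∏ j, y j ^ (a j : ℕ))

theorem monSpan_le_boxSpan {n : ℕ} (y : Fin n → K) (i M : ℕ) (h : i < M) :
    monSpan k y i ≤ boxSpan k y M := by
  refine Submodule.span_le.mpr ?_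
  rintro _ ⟨a, ha, rfl⟩
  refine Submodule.subset_span ⟨fun j => ⟨a j, ?_⟩, rfl⟩
  have : a j ≤ ∑ l, a l := Finset.single_le_sum (fun _ _ => Nat.zero_le _) (Finset.mem_univ j)
  omega

theorem finrank_boxSpan_le {n : ℕ} (y : Fin n → K) (M : ℕ) :
    Module.finrank k (boxSpan k y M) ≤ M ^ n := by
  have := finrank_range_le_card (R := k) (fun a : Fin n → Fin M => ∏ j, y j ^ (a j : ℕ))
  unfold Set.finrank at this
  unfold boxSpan
  refine this.trans ?_
  simp

instance {n : ℕ} (y : Fin n → K) (M : ℕ) : FiniteDimensional k (boxSpan k y M) := by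
  unfold boxSpan
  exact FiniteDimensional.span_of_finite k (Set.finite_range _)

/-- The decomposition of `R`. -/
theorem le_boxSpan_sup {n : ℕ} (R : Subalgebra k K) (y : Fin n → K) (hy : ∀ i, y i ∈ R)
    (hRy : ∀ r ∈ R, ∃ c : k, ∃ r' : Fin n → K, (∀ i, r' i ∈ R) ∧
      r = algebraMap k K c + ∑ i, y i * r' i) (M : ℕ) :
    Subalgebra.toSubmodule R ≤
      boxSpan k y M ⊔ (Submodule.span k (Set.range y)) ^ M * Subalgebra.toSubmodule R := by
  have h1 : Subalgebra.toSubmodule R ≤
      1 ⊔ Submodule.span k (Set.range y) * Subalgebra.toSubmodule R := by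
    intro r hr
    obtain ⟨c, r', hr', rfl⟩ := hRy r hr
    refine Submodule.add_mem_sup ?_ ?_
    · exact Submodule.algebraMap_mem c
    · refine Submodule.sum_mem _ fun i _ => ?_
      exact Submodule.mul_mem_mul (Submodule.subset_span ⟨i, rfl⟩) (hr' i)
  have h2 : ∀ m : ℕ, m ≤ M → Subalgebra.toSubmodule R ≤
      boxSpan k y M ⊔ (Submodule.span k (Set.range y)) ^ m * Subalgebra.toSubmodule R := by
    intro m
    induction m with
    | zero =>
      intro _
      rw [pow_zero, one_mul]
      exact le_sup_right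
    | succ m ih =>
      intro hm
      refine (ih (by omega)).trans (sup_le le_sup_left ?_)
      refine (mul_le_mul' le_rfl h1).trans ?_
      rw [Submodule.mul_sup, mul_one, ← mul_assoc, ← pow_succ]
      exact sup_le_sup_right ((pow_le_monSpan y m).trans (monSpan_le_boxSpan y m M (by omega))) _
  exact h2 M le_rfl

/-- Upper bound for the number of distinct values. `R` is a subring with `R = k + Σ y_i R`. -/
theorem count_le {n : ℕ} (V : RVal K) (hk : ∀ c : k, c ≠ 0 → V (algebraMap k K c) = 0)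
    (R : Subalgebra k K) (y : Fin n → K) (hy : ∀ i, y i ∈ R)
    (hRy : ∀ r ∈ R, ∃ c : k, ∃ r' : Fin n → K, (∀ i, r' i ∈ R) ∧
      r = algebraMap k K c + ∑ i, y i * r' i)
    (hV : ∀ r ∈ R, r ≠ 0 → 0 ≤ V r) (c₀ : ℝ) (hc₀ : 0 < c₀) (hyc : ∀ i, V.Ge c₀ (y i))
    {Γ : Type*} [LinearOrder Γ] (L : K → Γ)
    (hadd : ∀ x ∈ R, ∀ y ∈ R, x ≠ 0 → y ≠ 0 → x + y ≠ 0 → min (L x) (L y) ≤ L (x + y))
    (hsmul : ∀ c : k, c ≠ 0 → ∀ x ∈ R, x ≠ 0 → L (c • x) = L x)
    (hLV : ∀ x ∈ R, ∀ y ∈ R, x ≠ 0 → y ≠ 0 → L x = L y → V x = V y)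
    (Λ : ℝ) (S : Finset K) (hS : ∀ s ∈ S, s ∈ R ∧ s ≠ 0 ∧ V s ≤ Λ) (hinj : Set.InjOn L S)
    (M : ℕ) (hM : Λ < M * c₀) : S.card ≤ M ^ n := by
  classical
  -- the second summand has large value
  have hpow : ∀ m : ℕ, (Submodule.span k (Set.range y)) ^ m * Subalgebra.toSubmodule R ≤
      geSub V hk (m * c₀) := by
    intro m
    induction m with
    | zero =>
      rw [pow_zero, one_mul]
      intro r hr hr0
      simpa using hV r hr hr0
    | succ m ih =>
      rw [pow_succ', mul_assoc]
      have hY : Submodule.span k (Set.range y) ≤ geSub V hk c₀ := by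
        refine Submodule.span_le.mpr ?_
        rintro _ ⟨i, rfl⟩
        exact hyc i
      refine (mul_le_mul' hY ih).trans ((geSub_mul V hk c₀ (m * c₀)).trans ?_)
      intro x hx
      rw [mem_geSub] at hx ⊢
      refine hx.mono ?_
      push_cast
      linarith
  have hdec : ∀ s : S, ∃ p : boxSpan k y M, ∃ q ∈ geSub V hk (M * c₀), (s : K) = (p : K) + q := by
    intro s
    have h := le_boxSpan_sup R y hy hRy M (hS s s.2).1
    obtain ⟨p, hp, q, hq, h⟩ := Submodule.mem_sup.mp h
    exact ⟨⟨p, hp⟩, q, hpow M hq, h.symm⟩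
  choose p q hq hpq using hdec
  refine le_trans ?_ (finrank_boxSpan_le (k := k) y M)
  by_contra hcon
  push Not at hcon
  have hnot : ¬ LinearIndependent k p := by
    intro h
    have := h.fintype_card_le_finrank
    simp only [Fintype.card_coe] at this
    omega
  rw [Fintype.not_linearIndependent_iff] at hnot
  obtain ⟨g, hg0, i, hi⟩ := hnot
  let c : K → k := fun x => if hx : x ∈ S then g ⟨x, hx⟩ else 0
  have hc : ∀ s : S, c s = g s := by
    intro s
    simp [c]
  have hsum : ∑ s ∈ S, c s • s = ∑ s : S, g s • q s := by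
    rw [← Finset.sum_coe_sort S fun s => c s • s]
    have h1 : ∀ s : S, c (s : K) • (s : K) = g s • ((p s : boxSpan k y M) : K) + g s • q s := by
      intro s
      rw [hc s, ← smul_add, ← hpq s]
    rw [Finset.sum_congr rfl fun s _ => h1 s, Finset.sum_add_distrib]
    have h2 : ∑ s : S, g s • ((p s : boxSpan k y M) : K) = 0 := by
      have := congrArg (fun z : boxSpan k y M => (z : K)) hg0
      simpa using this
    rw [h2, zero_add]
  have hmem : ∑ s ∈ S, c s • s ∈ geSub V hk (M * c₀) := by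
    rw [hsum]
    exact Submodule.sum_mem _ fun s _ => Submodule.smul_mem _ _ (hq s)
  obtain ⟨hne, s, hs, hLs⟩ := comb_min L (Subalgebra.toSubmodule R) hadd hsmul S
    (fun s hs => ⟨(hS s hs).1, (hS s hs).2.1⟩) hinj c
    ⟨i, i.2, by rw [hc i]; exact hi⟩
  have hR : ∑ s ∈ S, c s • s ∈ R :=
    (Subalgebra.toSubmodule R).sum_mem fun t ht =>
      (Subalgebra.toSubmodule R).smul_mem _ (hS t ht).1
  have hVs := hLV _ hR s (hS s hs).1 hne (hS s hs).2.1 hLs
  have h1 : (M : ℝ) * c₀ ≤ V (∑ s ∈ S, c s • s) := hmem hne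
  have h2 := (hS s hs).2.2
  rw [hVs] at h1
  linarith

end Pool.Agent.H15JM
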