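import Pool.Agent.Lib.JM_H15.Deriv

/-!
# Valuations computing the Arnold multiplicity on affine space: the definitions

`k` is a field of characteristic zero, `FF k n` is the function field of affine `n`-space,
`pd i` is the partial derivative with respect to the `i`-th coordinate on it.
-/

set_option autoImplicit false

open MvPolynomial

namespace Pool.Agent.H15JM

variable (k : Type) [Field k] (n : ℕ)

/-- `Val_X` for `X` the affine `n`-space: the real valuations of the function field that have a
center on `X`, that is, that are nonnegative on the (nonzero) polynomials. (The values on the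
nonzero constants are then `0`.) -/
structure ValX extends RVal (FF k n) where
  nonneg' : ∀ f : MvPolynomial (Fin n) k, f ≠ 0 → 0 ≤ toFun (toFF f)

instance : CoeFun (ValX k n) fun _ => FF k n → ℝ := ⟨fun v => v.toFun⟩

variable {k n}

/-- The valuation is not trivial. -/
def ValX.Nontrivial (v : ValX k n) : Prop := ∃ f : FF k n, f ≠ 0 ∧ v f ≠ 0

/-- The log discrepancy `A(v)`: the supremum, over all `n`-tuples `f_1, …, f_n` of rational
functions whose Jacobian determinant `J = det (∂ f_i / ∂ x_j)` is not zero, of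
`v(f_1) + … + v(f_n) - v(J)`. (As `dlog f_1 ∧ … ∧ dlog f_n = J / (f_1 ⋯ f_n) dx_1 ∧ … ∧ dx_n` is a
form with logarithmic poles on a suitable log resolution, this is the usual log discrepancy.) -/
noncomputable def ValX.logDisc (v : ValX k n) : EReal :=
  ⨆ f : {f : Fin n → FF k n // jacD pd f ≠ 0}, ((∑ i, v (f.1 i) - v (jacD pd f.1) : ℝ) : EReal)

/-- `v(b)` for an ideal `b`. -/
noncomputable def ValX.idealVal (v : ValX k n) (b : Ideal (MvPolynomial (Fin n) k)) : ℝ :=
  sInf {t | ∃ f ∈ b, f ≠ 0 ∧ t = v (toFF f)}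

variable (k n) in
/-- A graded sequence of ideals `(a_m)`, `m ≥ 1`, some of which are not zero. -/
structure GradedSeq where
  /-- the ideals -/
  ideal : ℕ → Ideal (MvPolynomial (Fin n) k)
  mul_le : ∀ i j, 1 ≤ i → 1 ≤ j → ideal i * ideal j ≤ ideal (i + j)
  exists_ne_bot : ∃ m, 1 ≤ m ∧ ideal m ≠ ⊥

/-- `v(a_•)`, the limit, or infimum, of `v(a_m) / m` over the `m ≥ 1` with `a_m ≠ 0`. -/
noncomputable def ValX.seqVal (v : ValX k n) (a : GradedSeq k n) : ℝ :=
  sInf {t | ∃ m, 1 ≤ m ∧ a.ideal m ≠ ⊥ ∧ t = v.idealVal (a.ideal m) / m}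

/-- The quotient `v(a_•) / (A(v) + v(q))`, for `A(v) < ∞`. -/
noncomputable def ValX.ratio (v : ValX k n) (q : Ideal (MvPolynomial (Fin n) k))
    (a : GradedSeq k n) : ℝ :=
  v.seqVal a / (v.logDisc.toReal + v.idealVal q)

/-- `v` computes `Arn^q(a_•)`, and `Arn^q(a_•) > 0`: the supremum of `w(a_•) / (A(w) + w(q))` over
the nontrivial `w` in `Val_X` with `A(w) < ∞` is positive and is attained at `v`. -/
def ValX.Computes (v : ValX k n) (q : Ideal (MvPolynomial (Fin n) k)) (a : GradedSeq k n) :
    Prop :=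
  v.Nontrivial ∧ v.logDisc < ⊤ ∧ 0 < v.ratio q a ∧
    ∀ w : ValX k n, w.Nontrivial → w.logDisc < ⊤ → w.ratio q a ≤ v.ratio q a

/-- The residue field of `v` is `k` (for `k` algebraically closed: the transcendence degree of
`v` is `0`). -/
def ValX.ResidueFieldIs (v : ValX k n) : Prop :=
  ∀ f : FF k n, f ≠ 0 → v f = 0 →
    ∃ c : k, f = algebraMap k (FF k n) c ∨ 0 < v (f - algebraMap k (FF k n) c)

end Pool.Agent.H15JM
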