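import Pool.Agent.Lib.JM_H15.Basic

/-!
# Partial derivatives on the field of rational functions
-/

set_option autoImplicit false

open MvPolynomial

namespace Pool.Agent.H15JM

variable (k : Type) [Field k] (n : ℕ)

/-- The function field of the affine space of dimension `n` over `k`. -/
abbrev FF := FractionRing (MvPolynomial (Fin n) k)

variable {k n}

/-- The inclusion of the polynomials. -/
noncomputable def toFF : MvPolynomial (Fin n) k →ₐ[k] FF k n :=
  IsScalarTower.toAlgHom k (MvPolynomial (Fin n) k) (FF k n)

theorem toFF_apply (p : MvPolynomial (Fin n) k) :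
    toFF p = algebraMap (MvPolynomial (Fin n) k) (FF k n) p := rfl

theorem toFF_injective : Function.Injective (toFF (k := k) (n := n)) :=
  IsFractionRing.injective _ _

theorem toFF_ne_zero {p : MvPolynomial (Fin n) k} (hp : p ≠ 0) : toFF p ≠ 0 := fun h =>
  hp (toFF_injective (by rw [h, _root_.map_zero]))

/-- auxiliary: the ring homomorphism `p ↦ p + ε ∂p`. -/
noncomputable def dualHom (i : Fin n) : MvPolynomial (Fin n) k →+* TrivSqZeroExt (FF k n) (FF k n)
    where
  toFun p := TrivSqZeroExt.inl (toFF p) + TrivSqZeroExt.inr (toFF (pderiv i p))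
  map_one' := by
    rw [Derivation.map_one_eq_zero, _root_.map_one, _root_.map_zero]
    ext <;> simp
  map_mul' p q := by
    rw [Derivation.leibniz, _root_.map_mul, _root_.map_add]
    ext
    · simp
    · simp [mul_comm]
  map_zero' := by
    rw [_root_.map_zero, _root_.map_zero]
    ext <;> simp
  map_add' p q := by
    rw [_root_.map_add, _root_.map_add, _root_.map_add]
    ext <;> simp

theorem dualHom_isUnit (i : Fin n) (p : nonZeroDivisors (MvPolynomial (Fin n) k)) :
    IsUnit (dualHom i (p : MvPolynomial (Fin n) k)) := by
  rw [TrivSqZeroExt.isUnit_iff_isUnit_fst]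
  have h : TrivSqZeroExt.fst (dualHom i (p : MvPolynomial (Fin n) k)) = toFF (p : MvPolynomial (Fin n) k) := by
    simp [dualHom]
  rw [h]
  exact isUnit_iff_ne_zero.mpr (toFF_ne_zero (nonZeroDivisors.ne_zero p.2))

/-- auxiliary: the extension of `dualHom` to the field. -/
noncomputable def dualLift (i : Fin n) : FF k n →+* TrivSqZeroExt (FF k n) (FF k n) :=
  IsLocalization.lift (M := nonZeroDivisors (MvPolynomial (Fin n) k)) (dualHom_isUnit i)

theorem dualLift_toFF (i : Fin n) (p : MvPolynomial (Fin n) k) :
    dualLift i (toFF p) = TrivSqZeroExt.inl (toFF p) + TrivSqZeroExt.inr (toFF (pderiv i p)) := by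
  rw [toFF_apply, dualLift, IsLocalization.lift_eq]
  rfl

theorem dualLift_fst (i : Fin n) (f : FF k n) : TrivSqZeroExt.fst (dualLift i f) = f := by
  have h : (TrivSqZeroExt.fstHom (FF k n) (FF k n) (FF k n)).toRingHom.comp (dualLift i)
      = RingHom.id (FF k n) := by
    apply IsLocalization.ringHom_ext (nonZeroDivisors (MvPolynomial (Fin n) k))
    ext p
    · have := dualLift_toFF i (C p : MvPolynomial (Fin n) k)
      simp only [toFF_apply] at this
      simp [this]
    · have := dualLift_toFF i (X p : MvPolynomial (Fin n) k)
      simp only [toFF_apply] at this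
      simp [this]
  exact RingHom.congr_fun h f

/-- The partial derivative with respect to the `i`-th coordinate on the function field of affine
space: the unique derivation over `k` that extends `MvPolynomial.pderiv i`. -/
noncomputable def pd (i : Fin n) : Derivation k (FF k n) (FF k n) where
  toFun f := TrivSqZeroExt.snd (dualLift i f)
  map_add' f g := by rw [_root_.map_add, TrivSqZeroExt.snd_add]
  map_smul' c f := by
    have h : c • f = toFF (C c) * f := by
      rw [← MvPolynomial.algebraMap_eq, AlgHom.commutes, Algebra.smul_def]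
    rw [h, _root_.map_mul, dualLift_toFF, pderiv_C, _root_.map_zero]
    simp [← MvPolynomial.algebraMap_eq, Algebra.smul_def]
  map_one_eq_zero' := by
    change TrivSqZeroExt.snd (dualLift i 1) = 0
    rw [_root_.map_one, TrivSqZeroExt.snd_one]
  leibniz' f g := by
    change TrivSqZeroExt.snd (dualLift i (f * g)) = f • TrivSqZeroExt.snd (dualLift i g)
      + g • TrivSqZeroExt.snd (dualLift i f)
    rw [_root_.map_mul, TrivSqZeroExt.snd_mul, dualLift_fst, dualLift_fst]
    simp [mul_comm]

theorem pd_toFF (i : Fin n) (p : MvPolynomial (Fin n) k) : pd i (toFF p) = toFF (pderiv i p) := by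
  change TrivSqZeroExt.snd (dualLift i (toFF p)) = _
  rw [dualLift_toFF]
  simp

/-- Every rational function is a quotient of polynomials. -/
theorem exists_frac (f : FF k n) : ∃ p q : MvPolynomial (Fin n) k, q ≠ 0 ∧ f = toFF p / toFF q := by
  obtain ⟨p, q, hq, h⟩ := IsFractionRing.div_surjective (A := MvPolynomial (Fin n) k) f
  exact ⟨p, q, nonZeroDivisors.ne_zero hq, h.symm⟩

/-- A derivation of the function field is a combination of the partial derivatives. -/
theorem derivation_eq (E : Derivation k (FF k n) (FF k n)) (f : FF k n) :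
    E f = ∑ i, E (toFF (X i)) * pd i f := by
  have hpol : ∀ p : MvPolynomial (Fin n) k, E (toFF p) = ∑ i, E (toFF (X i)) * pd i (toFF p) := by
    intro p
    induction p using MvPolynomial.induction_on with
    | C a =>
      have h : toFF (C a : MvPolynomial (Fin n) k) = algebraMap k (FF k n) a := by
        rw [← MvPolynomial.algebraMap_eq, AlgHom.commutes]
      simp [h]
    | add p q hp hq =>
      simp only [_root_.map_add, hp, hq, mul_add, Finset.sum_add_distrib]
    | mul_X p j hp =>
      rw [_root_.map_mul, E.leibniz, hp]
      have h1 : ∑ i, E (toFF (X i)) * pd i (toFF p * toFF (X j))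
          = ∑ i, (toFF p * (E (toFF (X i)) * pd i (toFF (X j)))
            + toFF (X j) * (E (toFF (X i)) * pd i (toFF p))) := by
        refine Finset.sum_congr rfl fun i _ => ?_
        rw [Derivation.leibniz, smul_eq_mul, smul_eq_mul]
        ring
      rw [h1, Finset.sum_add_distrib, ← Finset.mul_sum, ← Finset.mul_sum]
      have h2 : ∑ i, E (toFF (X i)) * pd i (toFF (X j)) = E (toFF (X j)) := by
        rw [Finset.sum_eq_single j]
        · rw [pd_toFF, pderiv_X_self, _root_.map_one, mul_one]
        · intro i _ hij
          rw [pd_toFF, pderiv_X_of_ne (Ne.symm hij), _root_.map_zero, mul_zero]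
        · intro h; exact absurd (Finset.mem_univ j) h
      rw [h2, smul_eq_mul, smul_eq_mul]
  obtain ⟨p, q, hq, rfl⟩ := exists_frac f
  have hq' := toFF_ne_zero hq
  have key : ∀ F : Derivation k (FF k n) (FF k n),
      F (toFF p / toFF q) = (F (toFF p) * toFF q - toFF p * F (toFF q)) / toFF q ^ 2 := by
    intro F
    have h := F.leibniz (toFF p / toFF q) (toFF q)
    rw [div_mul_cancel₀ _ hq', smul_eq_mul, smul_eq_mul] at h
    field_simp
    field_simp at h
    linear_combination -h
  rw [key E, hpol p, hpol q]
  simp only [key]
  rw [Finset.sum_mul, Finset.mul_sum, ← Finset.sum_sub_distrib, Finset.sum_div]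
  refine Finset.sum_congr rfl fun i _ => ?_
  ring

end Pool.Agent.H15JM
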