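import Pool.Agent.Lib.JM_H15.Basic

/-!
# Values of polynomials in the parameters (OWNER: helper69)
-/

set_option autoImplicit false

open Finset

namespace Pool.Agent.H15JM

variable {k K : Type*} [Field k] [Field K] [Algebra k K] [CharZero K]

theorem exists_pderiv_ne_zero [CharZero k] {n : ℕ} (p : MvPolynomial (Fin n) k)
    (hp : p.totalDegree ≠ 0) : ∃ j, MvPolynomial.pderiv j p ≠ 0 := by
  by_contra hcon
  push Not at hcon
  apply hp
  have hsupp : ∀ m ∈ p.support, m = 0 := by
    intro m hm
    by_contra hm0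
    obtain ⟨j, hj⟩ : ∃ j, m j ≠ 0 := by
      by_contra h
      push Not at h
      exact hm0 (Finsupp.ext fun j => by simpa using h j)
    have h1 := congrArg (MvPolynomial.coeff (m - Finsupp.single j 1)) (hcon j)
    rw [MvPolynomial.coeff_pderiv, MvPolynomial.coeff_zero] at h1
    have h2 : m - Finsupp.single j 1 + Finsupp.single j 1 = m := by
      apply tsub_add_cancel_of_le
      rw [Finsupp.single_le_iff]
      omega
    rw [h2] at h1
    rcases mul_eq_zero.mp h1 with h3 | h3
    · exact (MvPolynomial.mem_support_iff.mp hm) h3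
    · exact Nat.cast_add_one_ne_zero _ h3
  rw [MvPolynomial.totalDegree_eq_zero_iff_eq_C]
  ext m
  rw [MvPolynomial.coeff_C]
  split_ifs with h
  · rw [h]
  · by_contra h2
    exact h (hsupp m (MvPolynomial.mem_support_iff.mpr h2)).symm

theorem totalDegree_pderiv_lt {n : ℕ} (p : MvPolynomial (Fin n) k) (j : Fin n)
    (hp : p.totalDegree ≠ 0) :
    (MvPolynomial.pderiv j p).totalDegree < p.totalDegree := by
  rw [MvPolynomial.totalDegree, Finset.sup_lt_iff (Nat.pos_of_ne_zero hp)]
  intro m hm
  have h1 := MvPolynomial.mem_support_iff.mp hm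
  rw [MvPolynomial.coeff_pderiv] at h1
  have h2 := MvPolynomial.mem_support_iff.mpr (left_ne_zero_of_mul h1)
  have h3 := MvPolynomial.le_totalDegree h2
  rw [Finsupp.sum_add_index' (by simp) (by simp), Finsupp.sum_single_index rfl] at h3
  exact h3

omit [CharZero K] in
theorem D_aeval {n : ℕ} (D : Fin n → Derivation k K K) (y : Fin n → K)
    (hDy : ∀ i j, D j (y i) = if i = j then 1 else 0) (j : Fin n) (p : MvPolynomial (Fin n) k) :
    D j (MvPolynomial.aeval y p) = MvPolynomial.aeval y (MvPolynomial.pderiv j p) := by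
  induction p using MvPolynomial.induction_on with
  | C a => simp
  | add p q hp hq => rw [_root_.map_add, _root_.map_add, hp, hq, _root_.map_add, _root_.map_add]
  | mul_X p i hp =>
    rw [_root_.map_mul, MvPolynomial.aeval_X, (D j).leibniz, hp, hDy, MvPolynomial.pderiv_mul,
      _root_.map_add, _root_.map_mul, _root_.map_mul, MvPolynomial.aeval_X, smul_eq_mul, smul_eq_mul,
      MvPolynomial.pderiv_X]
    by_cases h : i = j
    · subst h
      simp
      ring
    · simp [h, mul_comm]

/-- A polynomial of degree `d` in the parameters has value at most `d * A`. -/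
theorem izumi {n : ℕ} (v : RVal K) (hk : ∀ c : k, c ≠ 0 → v (algebraMap k K c) = 0)
    (D : Fin n → Derivation k K K) (y : Fin n → K)
    (hDy : ∀ i j, D j (y i) = if i = j then 1 else 0) (A : ℝ) (hA0 : 0 ≤ A)
    (hA : ∀ j g, D j g ≠ 0 → v g - v (D j g) ≤ A) (p : MvPolynomial (Fin n) k) (hp : p ≠ 0) :
    MvPolynomial.aeval y p ≠ 0 ∧ v (MvPolynomial.aeval y p) ≤ p.totalDegree * A := by
  haveI : CharZero k := (algebraMap k K).charZero
  induction hd : p.totalDegree using Nat.strong_induction_on generalizing p with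
  | _ d ih =>
    by_cases hd0 : d = 0
    · rw [hd0] at hd
      have h1 := MvPolynomial.totalDegree_eq_zero_iff_eq_C.mp hd
      have h2 : MvPolynomial.coeff 0 p ≠ 0 := by
        intro h3
        rw [h3, _root_.map_zero] at h1
        exact hp h1
      rw [h1, MvPolynomial.aeval_C]
      refine ⟨by simpa using h2, ?_⟩
      rw [hk _ h2, hd0]
      simp
    · rw [← hd] at hd0
      obtain ⟨j, hj⟩ := exists_pderiv_ne_zero p hd0
      have h1 := totalDegree_pderiv_lt p j hd0
      rw [hd] at h1
      obtain ⟨h2, h3⟩ := ih _ h1 _ hj rfl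
      rw [← D_aeval D y hDy] at h2 h3
      refine ⟨fun h4 => h2 (by rw [h4, _root_.map_zero]), ?_⟩
      have h5 := hA j _ h2
      have h6 : ((MvPolynomial.pderiv j p).totalDegree : ℝ) + 1 ≤ d := by exact_mod_cast h1
      have h7 := mul_le_mul_of_nonneg_right h6 hA0
      linarith

/-- The polynomial with the given coefficients. -/
noncomputable def polyOf (k : Type*) [Field k] (n E : ℕ) :
    ((Fin n → Fin E) → k) →ₗ[k] MvPolynomial (Fin n) k where
  toFun c := ∑ a : Fin n → Fin E,
    MvPolynomial.monomial (Finsupp.equivFunOnFinite.symm fun i => ((a i : Fin E) : ℕ)) (c a)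
  map_add' c d := by
    rw [← Finset.sum_add_distrib]
    exact Finset.sum_congr rfl fun a _ => by rw [Pi.add_apply, _root_.map_add]
  map_smul' r c := by
    rw [RingHom.id_apply, Finset.smul_sum]
    exact Finset.sum_congr rfl fun a _ => by
      rw [Pi.smul_apply, MvPolynomial.smul_monomial]

theorem polyOf_coeff (k : Type*) [Field k] (n E : ℕ) (c : (Fin n → Fin E) → k)
    (a : Fin n → Fin E) :
    MvPolynomial.coeff (Finsupp.equivFunOnFinite.symm fun i => ((a i : Fin E) : ℕ))
      (polyOf k n E c) = c a := by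
  classical
  rw [polyOf]
  simp only [LinearMap.coe_mk, AddHom.coe_mk]
  rw [MvPolynomial.coeff_sum, Finset.sum_eq_single a]
  · rw [MvPolynomial.coeff_monomial, if_pos rfl]
  · intro b _ hb
    rw [MvPolynomial.coeff_monomial, if_neg]
    intro h
    apply hb
    have h1 := Finsupp.equivFunOnFinite.symm.injective h
    funext i
    exact Fin.ext (congrFun h1 i)
  · intro h
    exact absurd (Finset.mem_univ a) h

theorem polyOf_injective (k : Type*) [Field k] (n E : ℕ) :
    Function.Injective (polyOf k n E) := by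
  intro c d h
  funext a
  rw [← polyOf_coeff k n E c a, ← polyOf_coeff k n E d a, h]

theorem polyOf_totalDegree (k : Type*) [Field k] (n E : ℕ) (c : (Fin n → Fin E) → k) :
    (polyOf k n E c).totalDegree ≤ n * E := by
  rw [polyOf]
  simp only [LinearMap.coe_mk, AddHom.coe_mk]
  refine MvPolynomial.totalDegree_finsetSum_le fun a _ => ?_
  refine (MvPolynomial.totalDegree_monomial_le _ _).trans ?_
  rw [Finsupp.sum_fintype _ _ (by simp)]
  calc ∑ i : Fin n, id ((Finsupp.equivFunOnFinite.symm fun i => ((a i : Fin E) : ℕ)) i)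
      ≤ ∑ i : Fin n, E := Finset.sum_le_sum fun i _ => by
        simp
    _ = n * E := by simp

/-- There is a subspace of dimension `E ^ n` of the algebra generated by the parameters all of
whose nonzero elements have value at most `n E A`. -/
theorem exists_subspace {n : ℕ} (v : RVal K) (hk : ∀ c : k, c ≠ 0 → v (algebraMap k K c) = 0)
    (D : Fin n → Derivation k K K) (y : Fin n → K)
    (hDy : ∀ i j, D j (y i) = if i = j then 1 else 0) (A : ℝ) (hA0 : 0 ≤ A)
    (hA : ∀ j g, D j g ≠ 0 → v g - v (D j g) ≤ A) (E : ℕ) :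
    ∃ W : Submodule k K, FiniteDimensional k W ∧ Module.finrank k W = E ^ n ∧
      (∀ x ∈ W, x ∈ Algebra.adjoin k (Set.range y)) ∧ ∀ x ∈ W, x ≠ 0 → v x ≤ n * E * A := by
  classical
  set φ : ((Fin n → Fin E) → k) →ₗ[k] K :=
    (MvPolynomial.aeval y : MvPolynomial (Fin n) k →ₐ[k] K).toLinearMap.comp (polyOf k n E) with hφ
  have hinj : Function.Injective φ := by
    rw [injective_iff_map_eq_zero]
    intro c hc
    by_contra hc0
    have h1 : polyOf k n E c ≠ 0 := fun h => hc0 (polyOf_injective k n E (by rw [h, _root_.map_zero]))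
    exact (izumi v hk D y hDy A hA0 hA _ h1).1 hc
  refine ⟨LinearMap.range φ, inferInstance, ?_, ?_, ?_⟩
  · rw [LinearMap.finrank_range_of_inj hinj, Module.finrank_fintype_fun_eq_card]
    simp
  · rintro x ⟨c, rfl⟩
    rw [Algebra.adjoin_range_eq_range_aeval]
    exact ⟨_, rfl⟩
  · rintro x ⟨c, rfl⟩ hx
    have h1 : polyOf k n E c ≠ 0 := by
      intro h
      apply hx
      rw [hφ, LinearMap.comp_apply, h, _root_.map_zero]
    have h2 := (izumi v hk D y hDy A hA0 hA _ h1).2
    refine h2.trans ?_
    apply mul_le_mul_of_nonneg_right _ hA0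
    exact_mod_cast polyOf_totalDegree k n E c

end Pool.Agent.H15JM
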