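import Pool.Agent.Lib.JM_H15.Gauss2
import Pool.Agent.Lib.JM_H15.Count

/-!
# The family of elements with distinct `(V, Q)` (OWNER: helper15)
-/

set_option autoImplicit false

open Finset
open scoped Pointwise

namespace Pool.Agent.H15JM

variable {k K : Type*} [Field k] [Field K] [Algebra k K] [CharZero K]

theorem isG_one (v : RVal K) (D : Derivation k K K) (γ : ℝ) : IsG v D γ (1 : K) 0 0 := by
  have := isG_of_D_eq_zero (v := v) (D := D) (γ := γ) (one_ne_zero (α := K)) D.map_one_eq_zero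
  rwa [v.map_one] at this

theorem IsG.pow {v : RVal K} {D : Derivation k K K} {γ : ℝ} {f : K} {V : ℝ} {Q : ℕ}
    (h : IsG v D γ f V Q) (t : ℕ) : IsG v D γ (f ^ t) (t * V) (t * Q) := by
  induction t with
  | zero => simpa using isG_one v D γ
  | succ t ih =>
    rw [pow_succ]
    have := ih.mul h
    convert this using 1
    · push_cast; ring
    · ring

theorem family_count {n : ℕ} (v : RVal K) (D : Derivation k K K) (γ : ℝ)
    (hk : ∀ c : k, c ≠ 0 → v (algebraMap k K c) = 0)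
    (hn : ∀ m : ℕ, m ≠ 0 → v ((m : K)) = 0)
    (R : Subalgebra k K)
    (y : Fin n → K) (hy : ∀ i, y i ∈ R)
    (hRy : ∀ r ∈ R, ∃ c : k, ∃ r' : Fin n → K, (∀ i, r' i ∈ R) ∧
      r = algebraMap k K c + ∑ i, y i * r' i)
    (V : RVal K) (hV : ∀ f ∈ R, f ≠ 0 → ∃ Q, IsG v D γ f (V f) Q)
    (hV0 : ∀ f ∈ R, f ≠ 0 → 0 ≤ V f)
    (hfrac : ∀ x : K, ∃ a ∈ R, ∃ b ∈ R, b ≠ 0 ∧ x = a / b)
    (c₀ : ℝ) (hc₀ : 0 < c₀) (hyc : ∀ i, V.Ge c₀ (y i))
    (B : Finset ℝ) (lam : ℝ) (hB : ∀ β ∈ B, β ≤ lam ∧ ∃ b ∈ R, IsG v D γ b β 0)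
    (f : K) (hf : f ∈ R) (Vs : ℝ) (Qs : ℕ) (hfG : IsG v D γ f Vs (Qs + 1)) :
    ∃ C₁ : ℝ, 0 ≤ C₁ ∧ ∀ r T M : ℕ, r * lam + T * Vs + C₁ < M * c₀ →
      (r • B).card * T * (Qs + 1) ≤ M ^ n := by
  classical
  have hval : ∀ x ∈ R, ∀ V' Q', IsG v D γ x V' Q' → V x = V' := by
    intro x hx V' Q' h
    obtain ⟨Q, hQ⟩ := hV x hx h.ne_zero
    exact (hQ.unique h).1
  have hVs : V f = Vs := hval f hf _ _ hfG
  have hVs0 : 0 ≤ Vs := hVs ▸ hV0 f hf hfG.ne_zero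
  -- the quotient g = h₁ / h₂ with Q = 1
  obtain ⟨h₁, hh₁, h₂, hh₂, hh₂0, hg⟩ := hfrac (dd D Qs f)
  have hgG : IsG v D γ (dd D Qs f) (Vs - Qs * γ) 1 := hfG.pred hn
  obtain ⟨Q₂, hQ₂⟩ := hV h₂ hh₂ hh₂0
  set V₂ : ℝ := V h₂ with hV₂
  have hQ₁ : IsG v D γ h₁ (Vs - Qs * γ + V₂) (1 + Q₂) := by
    have h := hgG.mul hQ₂
    rwa [hg, div_mul_cancel₀ _ hh₂0] at h
  set V₁ : ℝ := Vs - Qs * γ + V₂ with hV₁
  have hV₁' : V h₁ = V₁ := hval h₁ hh₁ _ _ hQ₁
  have hV₁0 : 0 ≤ V₁ := hV₁' ▸ hV0 h₁ hh₁ hQ₁.ne_zero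
  have hV₂0 : 0 ≤ V₂ := hV0 h₂ hh₂ hh₂0
  -- the function Q
  let Qf : K → ℕ := fun x => if h : x ∈ R ∧ x ≠ 0 then (hV x h.1 h.2).choose else 0
  have hQf : ∀ x ∈ R, x ≠ 0 → IsG v D γ x (V x) (Qf x) := by
    intro x hx hx0
    have : Qf x = (hV x hx hx0).choose := by simp only [Qf]; rw [dif_pos ⟨hx, hx0⟩]
    rw [this]
    exact (hV x hx hx0).choose_spec
  let L : K → ℝ ×ₗ ℕ := fun x => toLex (V x, Qf x)
  have hL : ∀ x ∈ R, ∀ V' Q', IsG v D γ x V' Q' → L x = toLex (V', Q') := by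
    intro x hx V' Q' h
    have h' := (hQf x hx h.ne_zero).unique h
    simp only [L]
    rw [h'.1, h'.2]
  refine ⟨Qs * V₁ + Qs * V₂, by positivity, fun r T M hM => ?_⟩
  -- representatives of the sumset
  have hrep : ∀ r : ℕ, ∀ β ∈ r • B, β ≤ r * lam ∧ ∃ b ∈ R, IsG v D γ b β 0 := by
    intro r
    induction r with
    | zero =>
      intro β hβ
      rw [zero_nsmul] at hβ
      have : β = 0 := by simpa using hβ
      subst this
      exact ⟨by simp, 1, R.one_mem, isG_one v D γ⟩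
    | succ r ih =>
      intro β hβ
      rw [succ_nsmul, Finset.mem_add] at hβ
      obtain ⟨β₁, h₁, β₂, h₂, rfl⟩ := hβ
      obtain ⟨h1a, b₁, hb₁, hb₁'⟩ := ih β₁ h₁
      obtain ⟨h2a, b₂, hb₂, hb₂'⟩ := hB β₂ h₂
      refine ⟨by push_cast; linarith, b₁ * b₂, R.mul_mem hb₁ hb₂, ?_⟩
      simpa using hb₁'.mul hb₂'
  have hrep' := hrep r
  choose! b hb using fun β (hβ : β ∈ r • B) => (hrep' β hβ).2
  let e : ℝ × ℕ × ℕ → K := fun p => b p.1 * f ^ p.2.1 * (h₁ ^ p.2.2 * h₂ ^ (Qs - p.2.2))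
  let P : Finset (ℝ × ℕ × ℕ) := (r • B) ×ˢ (range T ×ˢ range (Qs + 1))
  have hP : P.card = (r • B).card * T * (Qs + 1) := by
    simp only [P, card_product, card_range]
    ring
  have heR : ∀ p ∈ P, e p ∈ R := by
    intro p hp
    simp only [P, mem_product, mem_range] at hp
    exact R.mul_mem (R.mul_mem (hb p.1 hp.1).1 (R.pow_mem hf _))
      (R.mul_mem (R.pow_mem hh₁ _) (R.pow_mem hh₂ _))
  have heG : ∀ p ∈ P, IsG v D γ (e p) (p.1 + p.2.1 * Vs + (p.2.2 * V₁ + ((Qs - p.2.2 : ℕ) : ℝ) * V₂))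
      (p.2.1 * (Qs + 1) + p.2.2 + Qs * Q₂) := by
    intro p hp
    simp only [P, mem_product, mem_range] at hp
    have := ((hb p.1 hp.1).2.mul (hfG.pow p.2.1)).mul ((hQ₁.pow p.2.2).mul (hQ₂.pow (Qs - p.2.2)))
    convert this using 1
    obtain ⟨s, hs⟩ := Nat.exists_eq_add_of_le (Nat.lt_succ_iff.mp hp.2.2)
    have h3 : Qs - p.2.2 = s := by omega
    rw [h3]
    have h4 : Qs * Q₂ = p.2.2 * Q₂ + s * Q₂ := by rw [hs]; ring
    rw [h4]
    ring
  have heL : Set.InjOn (L ∘ e) P := by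
    intro p hp p' hp' hpp
    have h1 := hL _ (heR p hp) _ _ (heG p hp)
    have h2 := hL _ (heR p' hp') _ _ (heG p' hp')
    simp only [Function.comp] at hpp
    rw [h1, h2] at hpp
    have h3 := congrArg ofLex hpp
    simp only [ofLex_toLex, Prod.mk.injEq] at h3
    obtain ⟨h4, h5⟩ := h3
    have h5 := Nat.add_right_cancel h5
    simp only [P, coe_product, Set.mem_prod, mem_coe, mem_range] at hp hp'
    have h6 : p.2.2 = p'.2.2 := by
      have := congrArg (· % (Qs + 1)) h5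
      simp only [Nat.mul_add_mod_self_right] at this
      rwa [Nat.mod_eq_of_lt hp.2.2, Nat.mod_eq_of_lt hp'.2.2] at this
    have h7 : p.2.1 = p'.2.1 := by
      rw [h6] at h5
      exact Nat.eq_of_mul_eq_mul_right (Nat.succ_pos Qs) (Nat.add_right_cancel h5)
    have h8 : p.1 = p'.1 := by
      rw [h6, h7] at h4
      linarith
    exact Prod.ext h8 (Prod.ext h7 h6)
  have heinj : Set.InjOn e P := fun p hp p' hp' h => heL hp hp' (by simp only [Function.comp, h])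
  have hcount := count_le V (hk := ?_) R y hy hRy hV0 c₀ hc₀ hyc L ?_ ?_ ?_
    (r * lam + T * Vs + (Qs * V₁ + Qs * V₂)) (P.image e) ?_ ?_ M hM
  · rw [card_image_of_injOn heinj, hP] at hcount
    exact hcount
  · intro c hc
    have h := isG_of_D_eq_zero (v := v) (D := D) (γ := γ) (f := algebraMap k K c)
      (by simpa using hc) (D.map_algebraMap c)
    rw [hval _ (R.algebraMap_mem c) _ _ h, hk c hc]
  · intro x hx z hz hx0 hz0 hxz
    exact (hQf x hx hx0).add_le (hQf z hz hz0) (hQf _ (R.add_mem hx hz) hxz)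
  · intro c hc x hx hx0
    have h := (hQf x hx hx0).smul hk c hc
    exact hL _ (R.smul_mem hx c) _ _ h
  · intro x _ z _ _ _ hxz
    have := congrArg (fun u => (ofLex u).1) hxz
    simpa [L] using this
  · intro s hs
    obtain ⟨p, hp, rfl⟩ := mem_image.mp hs
    have hG := heG p hp
    refine ⟨heR p hp, hG.ne_zero, ?_⟩
    rw [hval _ (heR p hp) _ _ hG]
    simp only [P, mem_product, mem_range] at hp
    have h1 := (hrep' p.1 hp.1).1
    have h2 : (p.2.1 : ℝ) * Vs ≤ T * Vs :=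
      mul_le_mul_of_nonneg_right (by exact_mod_cast hp.2.1.le) hVs0
    have h3 : (p.2.2 : ℝ) * V₁ ≤ Qs * V₁ :=
      mul_le_mul_of_nonneg_right (by exact_mod_cast (Nat.lt_succ_iff.mp hp.2.2)) hV₁0
    have h4 : ((Qs - p.2.2 : ℕ) : ℝ) * V₂ ≤ Qs * V₂ :=
      mul_le_mul_of_nonneg_right (by exact_mod_cast Nat.sub_le _ _) hV₂0
    linarith
  · intro s hs s' hs' hss
    obtain ⟨p, hp, rfl⟩ := mem_image.mp (mem_coe.mp hs)
    obtain ⟨p', hp', rfl⟩ := mem_image.mp (mem_coe.mp hs')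
    rw [heL hp hp' hss]

end Pool.Agent.H15JM
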