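import Mathlib

/-!
# The numerical contradiction (OWNER: helper15)
-/

set_option autoImplicit false

namespace Pool.Agent.H15JM

theorem numeric (d E Qs : ℕ) (A' κ c₀ Vs C₁ : ℝ) (hA' : 0 < A') (hκ : 0 < κ) (hc₀ : 0 < c₀)
    (hVs : 0 < Vs) (hC₁ : 0 ≤ C₁) (hE0 : 0 < E) (hQ : κ * Vs < Qs)
    (hE : 2 ^ d * (d.factorial : ℝ) * 3 ^ (d + 1) * ((d + 1) * A') ^ d < κ * c₀ ^ (d + 1) * E)
    (H : ∀ L T M : ℕ, 1 ≤ L → (L + d) * ((d + 1) * E * A') + T * Vs + C₁ < M * c₀ →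
      (E : ℝ) ^ (d + 1) * L ^ d * T * Qs ≤ 2 ^ d * d.factorial * M ^ (d + 1)) : False := by
  set lam : ℝ := (d + 1) * E * A' with hlam
  have hE0' : (0 : ℝ) < E := by exact_mod_cast hE0
  have hlam0 : 0 < lam := by positivity
  set C₂ : ℝ := d * lam + Vs + C₁ + c₀ with hC₂
  have hC₂0 : 0 < C₂ := by positivity
  obtain ⟨L, hL⟩ := exists_nat_gt (C₂ / lam)
  have hL1 : C₂ < L * lam := by rwa [div_lt_iff₀ hlam0] at hL
  have hL0 : (0 : ℝ) < L := by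
    by_contra h
    push Not at h
    have : (L : ℝ) * lam ≤ 0 := mul_nonpos_of_nonpos_of_nonneg h hlam0.le
    linarith
  obtain ⟨T, hT1, hT2⟩ : ∃ T : ℕ, L * lam ≤ T * Vs ∧ T * Vs ≤ L * lam + Vs := by
    refine ⟨⌈L * lam / Vs⌉₊, ?_, ?_⟩
    · have := Nat.le_ceil (L * lam / Vs)
      rwa [div_le_iff₀ hVs] at this
    · have := (Nat.ceil_lt_add_one (a := L * lam / Vs) (by positivity)).le
      have h2 := mul_le_mul_of_nonneg_right this hVs.le
      rwa [add_mul, one_mul, div_mul_cancel₀ _ hVs.ne'] at h2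
  obtain ⟨M, hM1, hM2⟩ : ∃ M : ℕ, (L + d) * lam + T * Vs + C₁ < M * c₀ ∧ M * c₀ ≤ 3 * (L * lam) := by
    set Λ : ℝ := (L + d) * lam + T * Vs + C₁ with hΛ
    have hΛ0 : 0 ≤ Λ := by positivity
    refine ⟨⌊Λ / c₀⌋₊ + 1, ?_, ?_⟩
    · have := Nat.lt_floor_add_one (Λ / c₀)
      rw [div_lt_iff₀ hc₀] at this
      push_cast
      exact this
    · have := Nat.floor_le (a := Λ / c₀) (by positivity)
      have h2 := mul_le_mul_of_nonneg_right this hc₀.le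
      rw [div_mul_cancel₀ _ hc₀.ne'] at h2
      push_cast
      rw [add_mul, one_mul]
      have e : Λ = L * lam + d * lam + T * Vs + C₁ := by rw [hΛ]; ring
      linarith
  have h := H L T M (by exact_mod_cast hL0) hM1
  -- E^(d+1) L^d (T Vs) (Qs/Vs)
  have h1 : (E : ℝ) ^ (d + 1) * L ^ d * (L * lam) * κ * c₀ ^ (d + 1)
      ≤ 2 ^ d * d.factorial * (3 * (L * lam)) ^ (d + 1) := by
    have a1 : (E : ℝ) ^ (d + 1) * L ^ d * (L * lam) * κ ≤ (E : ℝ) ^ (d + 1) * L ^ d * T * Qs := by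
      have b1 : (L * lam) * κ ≤ T * Qs := by
        have : (L * lam) * κ ≤ (T * Vs) * κ := mul_le_mul_of_nonneg_right hT1 hκ.le
        have h3 : (T : ℝ) * (κ * Vs) ≤ T * Qs :=
          mul_le_mul_of_nonneg_left hQ.le (Nat.cast_nonneg T)
        linarith
      have b2 : (0 : ℝ) ≤ (E : ℝ) ^ (d + 1) * L ^ d := by positivity
      have := mul_le_mul_of_nonneg_left b1 b2
      linarith
    have a2 : (M * c₀) ^ (d + 1) ≤ (3 * (L * lam)) ^ (d + 1) :=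
      pow_le_pow_left₀ (by positivity) hM2 _
    have a3 : (0 : ℝ) ≤ c₀ ^ (d + 1) := by positivity
    have a4 := mul_le_mul_of_nonneg_right (a1.trans h) a3
    have a5 : (2 : ℝ) ^ d * d.factorial * M ^ (d + 1) * c₀ ^ (d + 1)
        = 2 ^ d * d.factorial * (M * c₀) ^ (d + 1) := by
      rw [mul_pow]; ring
    rw [a5] at a4
    have a6 := mul_le_mul_of_nonneg_left a2 (show (0 : ℝ) ≤ 2 ^ d * d.factorial by positivity)
    exact a4.trans a6
  have h2 : (3 * (L * lam)) ^ (d + 1) = 3 ^ (d + 1) * (L ^ d * (L * lam)) * lam ^ d := by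
    rw [mul_pow, mul_pow, pow_succ (L : ℝ) d, pow_succ lam d]; ring
  rw [h2] at h1
  have hLL : (0 : ℝ) < L ^ d * (L * lam) := by positivity
  have h3 : (E : ℝ) ^ (d + 1) * κ * c₀ ^ (d + 1) ≤ 2 ^ d * d.factorial * 3 ^ (d + 1) * lam ^ d := by
    have : (L ^ d * (L * lam)) * ((E : ℝ) ^ (d + 1) * κ * c₀ ^ (d + 1))
        ≤ (L ^ d * (L * lam)) * (2 ^ d * d.factorial * 3 ^ (d + 1) * lam ^ d) := by linarith
    exact le_of_mul_le_mul_left this hLL
  have h4 : lam ^ d = ((d + 1) * A') ^ d * E ^ d := by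
    rw [hlam, ← mul_pow]; ring
  rw [h4, pow_succ] at h3
  have hEd : (0 : ℝ) < (E : ℝ) ^ d := by positivity
  have h5 : (E : ℝ) ^ d * (κ * c₀ ^ (d + 1) * E)
      ≤ (E : ℝ) ^ d * (2 ^ d * d.factorial * 3 ^ (d + 1) * ((d + 1) * A') ^ d) := by linarith
  have h6 := le_of_mul_le_mul_left h5 hEd
  linarith

end Pool.Agent.H15JM
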