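import Pool.Agent.Lib.JM_H15.Tay

/-!
# The supremum of `v f - v (D f)` is not attained (OWNER: helper15)
-/

set_option autoImplicit false

open Finset

namespace Pool.Agent.H15JM

variable {k K : Type*} [Field k] [Field K] [Algebra k K] [CharZero K]

theorem strict {d : ℕ} (v : RVal K) (hn : ∀ m : ℕ, m ≠ 0 → v ((m : K)) = 0)
    (hres : ∀ f : K, f ≠ 0 → v f = 0 →
      ∃ c : k, f = algebraMap k K c ∨ 0 < v (f - algebraMap k K c))
    (D : Derivation k K K) (γ : ℝ) (hsup : ∀ f, D f ≠ 0 → v f - v (D f) ≤ γ)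
    (w : Fin d → K) (hw0 : ∀ i, w i ≠ 0) (hwD : ∀ i, D (w i) = 0)
    (hval : ∀ f, f ≠ 0 → ∃ m : ℕ, m ≠ 0 ∧ ∃ a : Fin d → ℤ, m * v f = ∑ i, a i * v (w i))
    (f : K) (hf : D f ≠ 0) : v f < v (D f) + γ := by
  have hf0 : f ≠ 0 := by
    rintro rfl
    exact hf (_root_.map_zero D)
  refine lt_of_le_of_ne (by have := hsup f hf; linarith) fun heq => ?_
  obtain ⟨m, hm, a, ha⟩ := hval f hf0
  obtain ⟨m, rfl⟩ := Nat.exists_eq_succ_of_ne_zero hm
  set g : K := ∏ i, w i ^ a i with hg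
  have hg0 : g ≠ 0 := Finset.prod_ne_zero_iff.mpr fun i _ => zpow_ne_zero _ (hw0 i)
  have hgv : v g = (m.succ : ℝ) * v f := by
    rw [hg, v.map_prod _ _ fun i _ => zpow_ne_zero _ (hw0 i), ha]
    exact Finset.sum_congr rfl fun i _ => v.map_zpow (hw0 i) (a i)
  have hinv : ∀ x : K, D x = 0 → D x⁻¹ = 0 := by
    intro x hx
    by_cases hx0 : x = 0
    · simp [hx0]
    have h := D.leibniz x x⁻¹
    rw [mul_inv_cancel₀ hx0, D.map_one_eq_zero, hx, smul_zero, add_zero, smul_eq_mul] at h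
    exact (mul_eq_zero.mp h.symm).resolve_left hx0
  have hmul : ∀ x y : K, D x = 0 → D y = 0 → D (x * y) = 0 := by
    intro x y hx hy
    rw [D.leibniz, hx, hy, smul_zero, smul_zero, add_zero]
  have hpow : ∀ (x : K) (j : ℕ), D x = 0 → D (x ^ j) = 0 := by
    intro x j hx
    induction j with
    | zero => rw [pow_zero, D.map_one_eq_zero]
    | succ j ih => rw [pow_succ]; exact hmul _ _ ih hx
  have hzpow : ∀ (x : K) (j : ℤ), D x = 0 → D (x ^ j) = 0 := by
    intro x j hx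
    cases j with
    | ofNat j => rw [Int.ofNat_eq_natCast, zpow_natCast]; exact hpow x j hx
    | negSucc j => rw [zpow_negSucc]; exact hinv _ (hpow x _ hx)
  have hgD : D g = 0 := by
    rw [hg]
    have : ∀ s : Finset (Fin d), D (∏ i ∈ s, w i ^ a i) = 0 := by
      intro s
      induction s using Finset.induction_on with
      | empty => rw [Finset.prod_empty, D.map_one_eq_zero]
      | insert b s hb ih =>
        rw [Finset.prod_insert hb]
        exact hmul _ _ (hzpow _ _ (hwD b)) ih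
    exact this _
  have hgi : D g⁻¹ = 0 := hinv _ hgD
  -- the element of value zero
  have hx0 : f ^ (m + 1) * g⁻¹ ≠ 0 := mul_ne_zero (pow_ne_zero _ hf0) (inv_ne_zero hg0)
  have hxv : v (f ^ (m + 1) * g⁻¹) = 0 := by
    rw [v.map_mul (pow_ne_zero _ hf0) (inv_ne_zero hg0), v.map_pow hf0, v.map_inv hg0, hgv]
    push_cast
    ring
  obtain ⟨c, hc⟩ := hres _ hx0 hxv
  have hDx : D (f ^ (m + 1) * g⁻¹) = ((m : K) + 1) * f ^ m * D f * g⁻¹ := by
    rw [D.leibniz, hgi, smul_zero, zero_add, D.leibniz_pow]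
    simp only [smul_eq_mul, nsmul_eq_mul, Nat.add_sub_cancel]
    push_cast
    ring
  have hm1 : ((m : K) + 1) ≠ 0 := by exact_mod_cast Nat.succ_ne_zero m
  have hne1 : ((m : K) + 1) * f ^ m ≠ 0 := mul_ne_zero hm1 (pow_ne_zero _ hf0)
  have hne2 : ((m : K) + 1) * f ^ m * D f ≠ 0 := mul_ne_zero hne1 hf
  have hDx0 : D (f ^ (m + 1) * g⁻¹) ≠ 0 := by
    rw [hDx]
    exact mul_ne_zero hne2 (inv_ne_zero hg0)
  have hDxv : v (D (f ^ (m + 1) * g⁻¹)) = -γ := by
    have hv1 : v ((m : K) + 1) = 0 := by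
      have := hn (m + 1) (Nat.succ_ne_zero m)
      push_cast at this
      exact this
    rw [hDx, v.map_mul hne2 (inv_ne_zero hg0), v.map_mul hne1 hf,
      v.map_mul hm1 (pow_ne_zero _ hf0), hv1, v.map_pow hf0, v.map_inv hg0, hgv]
    push_cast
    linarith
  have hDc : D (algebraMap k K c) = 0 := D.map_algebraMap c
  rcases hc with hc | hc
  · rw [hc, hDc] at hDx0
    exact hDx0 rfl
  · have h1 : D (f ^ (m + 1) * g⁻¹ - algebraMap k K c) = D (f ^ (m + 1) * g⁻¹) := by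
      rw [_root_.map_sub, hDc, sub_zero]
    have h2 := hsup (f ^ (m + 1) * g⁻¹ - algebraMap k K c) (by rw [h1]; exact hDx0)
    rw [h1, hDxv] at h2
    linarith

end Pool.Agent.H15JM
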