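import Mathlib

/-!
# Growth of iterated sumsets (OWNER: helper42)

For an abelian group `G` and a finite `B` that contains `b_0, …, b_d` with the
`b_i - b_0` independent over `ℤ`: `|B| * C(r-1,d) ≤ 2^d |rB|` for `r ≥ 1`.  Induction on `d`: let
`e` be the multiple `L (b_1 - b_0)` in `B - B` with `|L|` maximal.  Then no difference is `l e`
with `|l| ≥ 2`, so `B` meets each coset of `ℤe` in at most 2 points; let `π : G → G/ℤe`. Since
`e = b - b'`, `|(r+1)B| ≥ |rB ∪ (rB+e)| ≥ |rB| + |r π(B)|` (each coset met by `rB` contains an element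
of `(rB+e) \ rB`). Sum up and use `|B| ≤ 2 |π B|` and the induction hypothesis for `π B`.
-/

set_option autoImplicit false

open Finset
open scoped Pointwise

namespace Pool.Agent.H15JM

/-- One step: `|rB| + |π(rB)| ≤ |(r+1)B|` for the projection `π` modulo a difference of elements of
`B` of infinite order. -/
theorem sumset_step {G : Type} [AddCommGroup G] [DecidableEq G] (B : Finset G) (b b' e : G)
    (hb : b ∈ B) (hb' : b' ∈ B) (he : e = b - b') (hinf : ∀ n : ℤ, n • e = 0 → n = 0)
    [DecidableEq (G ⧸ AddSubgroup.zmultiples e)] (r : ℕ) :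
    (r • B).card + ((r • B).image (QuotientAddGroup.mk' (AddSubgroup.zmultiples e))).card ≤
      ((r + 1) • B).card := by
  set π := QuotientAddGroup.mk' (AddSubgroup.zmultiples e) with hπ
  set S := r • B with hS
  have key : ∀ c ∈ S.image π, ∃ x ∈ S, π x = c ∧ x + e ∉ S := by
    intro c hc
    obtain ⟨x₀, hx₀, rfl⟩ := Finset.mem_image.1 hc
    by_contra hcon
    push Not at hcon
    have hall : ∀ n : ℕ, x₀ + n • e ∈ S ∧ π (x₀ + n • e) = π x₀ := by
      intro n
      induction n with
      | zero => simp [hx₀]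
      | succ n ih =>
        refine ⟨?_, ?_⟩
        · have := hcon _ ih.1 ih.2
          rw [succ_nsmul, ← add_assoc]
          exact this
        · rw [map_add]
          have : π ((n + 1) • e) = 0 := by
            rw [hπ, QuotientAddGroup.mk'_apply, QuotientAddGroup.eq_zero_iff]
            exact AddSubgroup.nsmul_mem_zmultiples _ _
          rw [this, add_zero]
    have hinj : Function.Injective fun n : ℕ => x₀ + n • e := by
      intro m n hmn
      have h1 : m • e = n • e := by simpa using hmn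
      have h2 : ((m : ℤ) - n) • e = 0 := by
        rw [sub_smul, natCast_zsmul, natCast_zsmul, h1, sub_self]
      have := hinf _ h2
      omega
    exact (Set.infinite_of_injective_forall_mem hinj (s := (S : Set G)) fun n =>
      Finset.mem_coe.2 (hall n).1) S.finite_toSet
  choose! g hgS hgπ hge using key
  have hT : ∀ x ∈ S, ∀ y ∈ B, x + y ∈ (r + 1) • B := by
    intro x hx y hy
    rw [succ_nsmul]
    exact Finset.add_mem_add hx hy
  have hdisj : Disjoint S ((S.image π).image fun c => g c + e) := by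
    rw [Finset.disjoint_left]
    intro x hx hx'
    obtain ⟨c, hc, rfl⟩ := Finset.mem_image.1 hx'
    exact hge c hc hx
  have hginj : Set.InjOn (fun c => g c + e) (S.image π : Set _) := by
    intro c hc c' hc' hcc
    have h1 : g c = g c' := add_right_cancel hcc
    rw [← hgπ c hc, ← hgπ c' hc', h1]
  calc S.card + (S.image π).card
      = S.card + ((S.image π).image fun c => g c + e).card := by
        rw [Finset.card_image_of_injOn hginj]
    _ = (S ∪ ((S.image π).image fun c => g c + e)).card := (Finset.card_union_of_disjoint hdisj).symm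
    _ ≤ ((r + 1) • B).card := by
        refine Finset.card_le_card_of_injOn (fun x => x + b') ?_ ?_
        · intro x hx
          rcases Finset.mem_union.1 hx with hx | hx
          · exact hT _ hx _ hb'
          · obtain ⟨c, hc, rfl⟩ := Finset.mem_image.1 hx
            have : g c + e + b' = g c + b := by rw [he]; abel
            show g c + e + b' ∈ _
            rw [this]
            exact hT _ (hgS c hc) _ hb
        · intro x _ y _ hxy
          exact add_right_cancel hxy

/-- The choice of the difference `e`: a nonzero multiple of `w - b₀` in `B - B` such that no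
`l e`, `|l| ≥ 2`, is in `B - B`. -/
theorem exists_max_multiple {G : Type} [AddCommGroup G] [DecidableEq G] (B : Finset G) (b₀ w : G)
    (hb : b₀ ∈ B) (hw : w ∈ B) (hinf : ∀ n : ℤ, n • (w - b₀) = 0 → n = 0) :
    ∃ b ∈ B, ∃ b' ∈ B, ∃ L : ℤ, L ≠ 0 ∧ b - b' = L • (w - b₀) ∧
      ∀ l : ℤ, (∃ x ∈ B, ∃ y ∈ B, x - y = l • (b - b')) → |l| ≤ 1 := by
  have hfin : {L : ℤ | L ≠ 0 ∧ ∃ x ∈ B, ∃ y ∈ B, x - y = L • (w - b₀)}.Finite := by
    have : Set.InjOn (fun L : ℤ => L • (w - b₀))
        {L : ℤ | L ≠ 0 ∧ ∃ x ∈ B, ∃ y ∈ B, x - y = L • (w - b₀)} := by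
      intro m _ n _ hmn
      have h2 : (m - n) • (w - b₀) = 0 := by
        rw [sub_smul]
        exact sub_eq_zero.2 hmn
      have := hinf _ h2
      omega
    refine Set.Finite.of_finite_image (Set.Finite.subset (B - B).finite_toSet ?_) this
    rintro _ ⟨L, ⟨_, x, hx, y, hy, hxy⟩, rfl⟩
    show L • (w - b₀) ∈ ((B - B : Finset G) : Set G)
    rw [← hxy]
    exact Finset.mem_coe.2 (Finset.sub_mem_sub hx hy)
  have hne : {L : ℤ | L ≠ 0 ∧ ∃ x ∈ B, ∃ y ∈ B, x - y = L • (w - b₀)}.Nonempty :=
    ⟨1, one_ne_zero, w, hw, b₀, hb, by simp⟩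
  obtain ⟨L, ⟨hL0, b, hb1, b', hb2, hbb⟩, hmax⟩ :=
    Set.exists_max_image _ (fun L : ℤ => |L|) hfin hne
  refine ⟨b, hb1, b', hb2, L, hL0, hbb, ?_⟩
  rintro l ⟨x, hx, y, hy, hxy⟩
  by_contra hl
  push Not at hl
  have hl0 : l ≠ 0 := by
    rintro rfl
    simp at hl
  have h1 := hmax (l * L) ⟨mul_ne_zero hl0 hL0, x, hx, y, hy, by rw [hxy, hbb, mul_smul]⟩
  simp only [abs_mul] at h1
  have h2 : 0 < |L| := abs_pos.2 hL0
  nlinarith

/-- The fibers of the projection have at most two points. -/
theorem card_le_two_mul_card_image {G : Type} [AddCommGroup G] [DecidableEq G] (B : Finset G)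
    (e : G) (hmax : ∀ l : ℤ, (∃ x ∈ B, ∃ y ∈ B, x - y = l • e) → |l| ≤ 1)
    [DecidableEq (G ⧸ AddSubgroup.zmultiples e)] :
    B.card ≤ 2 * (B.image (QuotientAddGroup.mk' (AddSubgroup.zmultiples e))).card := by
  refine Finset.card_le_mul_card_image B 2 ?_
  intro c _
  by_contra hcon
  push Not at hcon
  obtain ⟨x, hx, y, hy, z, hz, hxy, hxz, hyz⟩ := Finset.two_lt_card.1 hcon
  rw [Finset.mem_filter] at hx hy hz
  have hdiff : ∀ u v : G, u ∈ B → v ∈ B →
      QuotientAddGroup.mk' (AddSubgroup.zmultiples e) u =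
        QuotientAddGroup.mk' (AddSubgroup.zmultiples e) v → u ≠ v →
      ∃ l : ℤ, u - v = l • e ∧ (l = 1 ∨ l = -1) := by
    intro u v hu hv huv hne
    have h1 : u - v ∈ AddSubgroup.zmultiples e := by
      have := congrArg (fun t => t - QuotientAddGroup.mk' (AddSubgroup.zmultiples e) v) huv
      simp only [sub_self] at this
      rw [← map_sub, QuotientAddGroup.mk'_apply, QuotientAddGroup.eq_zero_iff] at this
      exact this
    obtain ⟨l, hl⟩ := AddSubgroup.mem_zmultiples_iff.1 h1
    refine ⟨l, hl.symm, ?_⟩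
    have h2 := hmax l ⟨u, hu, v, hv, hl.symm⟩
    have h3 : l ≠ 0 := by
      rintro rfl
      rw [zero_smul] at hl
      exact hne (sub_eq_zero.1 hl.symm)
    rw [abs_le] at h2
    omega
  obtain ⟨l₁, hl₁, h₁⟩ := hdiff x y hx.1 hy.1 (hx.2.trans hy.2.symm) hxy
  obtain ⟨l₂, hl₂, h₂⟩ := hdiff y z hy.1 hz.1 (hy.2.trans hz.2.symm) hyz
  have h3 : x - z = (l₁ + l₂) • e := by
    rw [add_smul, ← hl₁, ← hl₂]; abel
  have h4 := hmax _ ⟨x, hx.1, z, hz.1, h3⟩
  rw [abs_le] at h4
  have h5 : l₁ + l₂ ≠ 0 := by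
    intro h
    rw [h, zero_smul] at h3
    exact hxz (sub_eq_zero.1 h3)
  omega

/-- Growth of sumsets in an abelian group. -/
theorem sumset_growth_group (d : ℕ) : ∀ (G : Type) [AddCommGroup G] [DecidableEq G] (B : Finset G)
    (b₀ : G) (w : Fin d → G), b₀ ∈ B → (∀ i, w i ∈ B) →
    (∀ a : Fin d → ℤ, ∑ i, a i • (w i - b₀) = 0 → a = 0) → ∀ r : ℕ, 1 ≤ r →
    B.card * (r - 1).choose d ≤ 2 ^ d * (r • B).card := by
  induction d with
  | zero =>
    intro G _ _ B b₀ w hb₀ _ _ r hr
    simp only [Nat.choose_zero_right, mul_one, pow_zero, one_mul]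
    have := Finset.card_nsmul_mono (s := B) (m := 1) (n := r) one_ne_zero hr
    rwa [one_nsmul] at this
  | succ d ih =>
    intro G _ _ B b₀ w hb₀ hw hind r hr
    have hinf : ∀ n : ℤ, n • (w 0 - b₀) = 0 → n = 0 := by
      intro n hn
      have h1 := hind (Fin.cons n fun _ => 0) (by
        rw [Fin.sum_univ_succ]
        simp [hn])
      have := congrFun h1 0
      simpa using this
    obtain ⟨b, hb, b', hb', L, hL0, hbb, hmax⟩ := exists_max_multiple B b₀ (w 0) hb₀ (hw 0) hinf
    classical
    set π := QuotientAddGroup.mk' (AddSubgroup.zmultiples (b - b')) with hπ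
    have hinf' : ∀ n : ℤ, n • (b - b') = 0 → n = 0 := by
      intro n hn
      rw [hbb, ← mul_smul] at hn
      have := hinf _ hn
      rcases mul_eq_zero.1 this with h | h
      · exact h
      · exact absurd h hL0
    have h2 : B.card ≤ 2 * (B.image π).card := card_le_two_mul_card_image B (b - b') hmax
    -- the induction hypothesis for the image
    have hind' : ∀ a : Fin d → ℤ, ∑ i, a i • (π (w i.succ) - π b₀) = 0 → a = 0 := by
      intro a ha
      have h3 : π (∑ i, a i • (w i.succ - b₀)) = 0 := by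
        rw [map_sum, ← ha]
        refine Finset.sum_congr rfl fun i _ => ?_
        rw [map_zsmul, map_sub]
      rw [hπ, QuotientAddGroup.mk'_apply, QuotientAddGroup.eq_zero_iff] at h3
      obtain ⟨n, hn⟩ := AddSubgroup.mem_zmultiples_iff.1 h3
      have h4 := hind (Fin.cons (-(n * L)) a) (by
        rw [Fin.sum_univ_succ]
        simp only [Fin.cons_zero, Fin.cons_succ]
        rw [← hn, hbb, ← mul_smul, ← add_smul]
        simp)
      funext i
      have := congrFun h4 i.succ
      simpa using this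
    have hrec := ih (G ⧸ AddSubgroup.zmultiples (b - b')) (B.image π) (π b₀)
      (fun i => π (w i.succ)) (Finset.mem_image_of_mem _ hb₀)
      (fun i => Finset.mem_image_of_mem _ (hw _)) hind'
    induction r, hr using Nat.le_induction with
    | base => simp
    | succ r hr ihr =>
      have h5 := sumset_step B b b' _ hb hb' rfl hinf' r
      rw [Finset.image_nsmul] at h5
      have h6 := hrec r hr
      obtain ⟨s, rfl⟩ : ∃ s, r = s + 1 := ⟨r - 1, by omega⟩
      simp only [Nat.add_sub_cancel] at ihr h6 ⊢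
      rw [Nat.choose_succ_succ]
      rw [pow_succ] at ihr ⊢
      rw [← hπ] at h5
      calc B.card * (s.choose d + s.choose (d + 1))
          = B.card * s.choose d + B.card * s.choose (d + 1) := by ring
        _ ≤ 2 * (B.image π).card * s.choose d + 2 ^ d * 2 * ((s + 1) • B).card :=
          Nat.add_le_add (Nat.mul_le_mul_right _ h2) ihr
        _ = 2 * ((B.image π).card * s.choose d) + 2 ^ d * 2 * ((s + 1) • B).card := by ring
        _ ≤ 2 * (2 ^ d * ((s + 1) • (B.image π)).card) + 2 ^ d * 2 * ((s + 1) • B).card :=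
          Nat.add_le_add (Nat.mul_le_mul_left _ h6) le_rfl
        _ = 2 ^ d * 2 * (((s + 1) • B).card + ((s + 1) • (B.image π)).card) := by ring
        _ ≤ 2 ^ d * 2 * ((s + 1 + 1) • B).card := Nat.mul_le_mul_left _ h5

/-- Here `r • B` is the `r`-fold sumset `B + ... + B` (`Finset.nsmul`). -/
theorem sumset_growth {d : ℕ} (B : Finset ℝ) (w : Fin d → ℝ) (hw : LinearIndependent ℚ w)
    (h0 : (0 : ℝ) ∈ B) (hwB : ∀ i, w i ∈ B) (r : ℕ) (hr : 1 ≤ r) :
    B.card * (r - 1).choose d ≤ 2 ^ d * (r • B).card := by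
  refine sumset_growth_group d ℝ B 0 w h0 hwB ?_ r hr
  intro a ha
  rw [Fintype.linearIndependent_iff] at hw
  have := hw (fun i => (a i : ℚ)) (by
    rw [← ha]
    refine Finset.sum_congr rfl fun i _ => ?_
    rw [sub_zero, zsmul_eq_mul, Rat.smul_def]
    simp)
  funext i
  exact_mod_cast this i

end Pool.Agent.H15JM
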