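import Pool.Agent.Lib.JM_H15.Comp
import Pool.Agent.Lib.JM_H15.Lower2
import Pool.Agent.Lib.JM_H15.Izumi
import Pool.Agent.Lib.JM_H15.Sumset
import Pool.Agent.Lib.JM_H15.Strict
import Pool.Agent.Lib.JM_H15.Numeric
import Pool.Agent.Lib.JM_H15.Good
import Pool.Agent.Lib.JM_H15.Approx
import Pool.Agent.Lib.JM_H15.Compl
import Pool.Agent.Lib.JM_H15.Frame

/-!
# Valuations of rational rank `n - 1` do not compute (OWNER: helper15)
-/

set_option autoImplicit false

open MvPolynomial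
open scoped Pointwise

namespace Pool.Agent.H15JM

variable {k : Type} [Field k] [CharZero k] {N : ℕ}

omit [CharZero k] in
theorem toFF_C {n : ℕ} (b : k) : toFF (C b : MvPolynomial (Fin n) k) = algebraMap k (FF k n) b := by
  rw [← MvPolynomial.algebraMap_eq, AlgHom.commutes]

omit [CharZero k] in
theorem toFF_taylor {n : ℕ} (c : Fin n → k) (p : MvPolynomial (Fin n) k) (b : k)
    (g : Fin n → MvPolynomial (Fin n) k) (hb : p = C b + ∑ i, (X i - C (c i)) * g i) :
    toFF p = algebraMap k (FF k n) b + ∑ i, toFF (X i - C (c i)) * toFF (g i) := by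
  conv_lhs => rw [hb]
  rw [_root_.map_add, _root_.map_sum, toFF_C]
  congr 1
  exact Finset.sum_congr rfl fun i _ => _root_.map_mul _ _ _

omit [CharZero k] in
/-- Derivations dual to a family decrease the value by at most `A`. -/
theorem der_bound {n : ℕ} (u : RVal (FF k n)) (D : Fin n → Derivation k (FF k n) (FF k n))
    (y : Fin n → FF k n) (D_y : ∀ i j, D j (y i) = if i = j then 1 else 0) (A : ℝ)
    (hA : ∀ f : Fin n → FF k n, jacD D f ≠ 0 → ∑ i, u (f i) - u (jacD D f) ≤ A)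
    (hy : ∀ i, 0 ≤ u (y i)) (j : Fin n) (g : FF k n) (hg : D j g ≠ 0) :
    u g - u (D j g) ≤ A := by
  have hyy : jacD D y = 1 := jacD_dual D y D_y
  have h1 := jacD_mul D y g j
  rw [hyy, one_mul, Finset.sum_eq_single j] at h1
  · rw [D_y, if_pos rfl, one_mul] at h1
    have h2 := hA (Function.update y j g) (by rw [← h1]; exact hg)
    rw [← h1] at h2
    have h3 : ∑ i, u (Function.update y j g i)
        = u g + ∑ i ∈ Finset.univ.erase j, u (y i) := by
      rw [← Finset.add_sum_erase _ _ (Finset.mem_univ j), Function.update_self]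
      congr 1
      refine Finset.sum_congr rfl fun i hi => ?_
      rw [Function.update_of_ne (Finset.ne_of_mem_erase hi)]
    have h4 : 0 ≤ ∑ i ∈ Finset.univ.erase j, u (y i) :=
      Finset.sum_nonneg fun i _ => hy i
    rw [h3] at h2
    linarith
  · intro i _ hij
    rw [D_y, if_neg hij, zero_mul]
  · intro h; exact absurd (Finset.mem_univ j) h

theorem no_computing2 (v : ValX k (N + 1)) (hres : v.ResidueFieldIs)
    (Y : Fin N → MvPolynomial (Fin (N + 1)) k) (hY0 : ∀ i, Y i ≠ 0)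
    (indep : LinearIndependent ℚ fun i => v (toFF (Y i)))
    (t : Fin (N + 1) → FF k (N + 1)) (ht : ∀ i : Fin N, t i.castSucc = toFF (Y i))
    (z : MvPolynomial (Fin (N + 1)) k) (htz : t (Fin.last N) = toFF z)
    (D : Fin (N + 1) → Derivation k (FF k (N + 1)) (FF k (N + 1)))
    (D_t : ∀ i j, D j (t i) = if i = j then 1 else 0)
    (hgood : ∀ γ' : ℝ, (∀ f, D (Fin.last N) f ≠ 0 → v f < v (D (Fin.last N) f) + γ') →
      (∀ f, D (Fin.last N) f ≠ 0 → v f - v (D (Fin.last N) f) ≤ γ') →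
      ∀ f, Good v.toRVal (D (Fin.last N)) γ' f)
    (q : Ideal (MvPolynomial (Fin (N + 1)) k)) (hq : q ≠ ⊥)
    (a : GradedSeq k (N + 1)) (hcomp : v.Computes q a)
    (hval : ∀ f : FF k (N + 1), f ≠ 0 → ∃ m : ℕ, m ≠ 0 ∧ ∃ b : Fin N → ℤ,
      m * v f = ∑ i, b i * v (toFF (Y i))) : False := by
  classical
  have : CharZero (FF k (N + 1)) :=
    charZero_of_injective_algebraMap (algebraMap k (FF k (N + 1))).injective
  set u : RVal (FF k (N + 1)) := v.toRVal with hu
  have hk : ∀ c : k, c ≠ 0 → u (algebraMap k (FF k (N + 1)) c) = 0 := v.map_const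
  have hn : ∀ m : ℕ, m ≠ 0 → u ((m : FF k (N + 1))) = 0 := by
    intro m hm
    have := hk (m : k) (by exact_mod_cast hm)
    rwa [map_natCast] at this
  have hpoly : ∀ p : MvPolynomial (Fin (N + 1)) k, p ≠ 0 → 0 ≤ u (toFF p) := v.nonneg'
  have hfin := hcomp.2.1
  set A : ℝ := v.logDisc.toReal with hAdef
  have hApd : ∀ f : Fin (N + 1) → FF k (N + 1), jacD pd f ≠ 0 →
      ∑ i, u (f i) - u (jacD pd f) ≤ A := fun f hf => v.le_toReal hfin f hf
  set l : Fin (N + 1) := Fin.last N with hl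
  -- the coordinates centred at the point
  have hX0 : ∀ (i : Fin (N + 1)) (c : k), (X i - C c : MvPolynomial (Fin (N + 1)) k) ≠ 0 := by
    intro i c h
    have h1 := congrArg (pderiv i) h
    rw [_root_.map_sub, pderiv_X_self, pderiv_C, sub_zero, _root_.map_zero] at h1
    exact one_ne_zero h1
  have hcen : ∀ i : Fin (N + 1), ∃ c : k, 0 < u (toFF (X i - C c)) := by
    intro i
    have h0 : 0 ≤ u (toFF (X i)) := hpoly _ (X_ne_zero i)
    rcases h0.lt_or_eq with h | h
    · exact ⟨0, by simpa using h⟩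
    · obtain ⟨c, hc⟩ := hres (toFF (X i)) (toFF_ne_zero (X_ne_zero i)) h.symm
      have hC : algebraMap k (FF k (N + 1)) c = toFF (C c) := (toFF_C c).symm
      refine ⟨c, ?_⟩
      rcases hc with hc | hc
      · exfalso
        rw [hC] at hc
        exact hX0 i c (by rw [toFF_injective hc, sub_self])
      · rw [hC, ← _root_.map_sub] at hc
        exact hc
  choose c hc using hcen
  set x : Fin (N + 1) → FF k (N + 1) := fun i => toFF (X i - C (c i)) with hx
  have hxpos : ∀ i, 0 < u (x i) := hc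
  have hx0 : ∀ i, x i ≠ 0 := fun i => toFF_ne_zero (hX0 i (c i))
  have pd_x : ∀ i j, pd j (x i) = if i = j then 1 else 0 := by
    intro i j
    rw [hx]
    simp only
    rw [pd_toFF, _root_.map_sub, pderiv_C, sub_zero]
    by_cases h : i = j
    · subst h; simp
    · rw [pderiv_X_of_ne h, if_neg h, _root_.map_zero]
  have hJx : jacD pd x = 1 := jacD_dual pd x pd_x
  have hderpd : ∀ j g, pd j g ≠ 0 → u g - u (pd j g) ≤ A := fun j g hg =>
    der_bound u pd x pd_x A hApd (fun i => (hxpos i).le) j g hg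
  have hAx : ∑ i, u (x i) ≤ A := by
    have := hApd x (by rw [hJx]; exact one_ne_zero)
    rwa [hJx, u.map_one, sub_zero] at this
  have hxA : ∀ i, u (x i) ≤ A := fun i =>
    (Finset.single_le_sum (fun j _ => (hxpos j).le) (Finset.mem_univ i)).trans hAx
  have hA0 : 0 < A := lt_of_lt_of_le (hxpos l) (hxA l)
  -- the frame
  have htnn : ∀ i, 0 ≤ u (t i) := by
    intro i
    refine Fin.lastCases ?_ (fun i => ?_) i
    · rw [htz]
      by_cases hz : z = 0
      · exfalso
        have := D_t l l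
        rw [hl, htz, hz, _root_.map_zero, _root_.map_zero, if_pos rfl] at this
        exact zero_ne_one this
      · exact hpoly z hz
    · rw [ht]
      exact hpoly _ (hY0 i)
  set μ : FF k (N + 1) := jacD D (fun i => toFF (X i)) with hμ
  have htt : jacD D t = 1 := jacD_dual D t D_t
  have hμt : μ * jacD pd t = 1 := by rw [hμ, ← jacD_chain D t, htt]
  have hμ0 : μ ≠ 0 := left_ne_zero_of_mul_eq_one hμt
  set A' : ℝ := A - u μ with hA'def
  have hA' : ∀ f : Fin (N + 1) → FF k (N + 1), jacD D f ≠ 0 →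
      ∑ i, u (f i) - u (jacD D f) ≤ A' := by
    intro f hf
    rw [jacD_chain D f] at hf ⊢
    rw [u.map_mul hμ0 (right_ne_zero_of_mul hf)]
    have := hApd f (right_ne_zero_of_mul hf)
    rw [hA'def]
    linarith
  have hder : ∀ j g, D j g ≠ 0 → u g - u (D j g) ≤ A' := fun j g hg =>
    der_bound u D t D_t A' hA' htnn j g hg
  -- the supremum
  set T₀ : Set ℝ := {s | ∃ g, D l g ≠ 0 ∧ s = u g - u (D l g)} with hT₀
  have hDtl : D l (t l) = 1 := by rw [D_t, if_pos rfl]
  have hTne : T₀.Nonempty := ⟨_, t l, by rw [hDtl]; exact one_ne_zero, rfl⟩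
  have hTbdd : BddAbove T₀ := ⟨A', by rintro s ⟨g, hg, rfl⟩; exact hder l g hg⟩
  set γ' : ℝ := sSup T₀ with hγ'
  have hsup : ∀ f, D l f ≠ 0 → u f - u (D l f) ≤ γ' := fun f hf =>
    le_csSup hTbdd ⟨f, hf, rfl⟩
  have happrox : ∀ ε > 0, ∃ g, D l g ≠ 0 ∧ γ' - ε ≤ u g - u (D l g) := by
    intro ε hε
    obtain ⟨s, ⟨g, hg, rfl⟩, hs⟩ := exists_lt_of_lt_csSup hTne (show γ' - ε < sSup T₀ by linarith)
    exact ⟨g, hg, hs.le⟩
  have hDyc : ∀ i : Fin N, D l (toFF (Y i)) = 0 := by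
    intro i
    rw [← ht, D_t, if_neg]
    exact (Fin.castSucc_lt_last i).ne
  have hstrict : ∀ f, D l f ≠ 0 → u f < u (D l f) + γ' :=
    strict u hn hres (D l) γ' hsup (fun i : Fin N => toFF (Y i)) (fun i => toFF_ne_zero (hY0 i))
      hDyc hval
  have hG : ∀ f, Good u (D l) γ' f := hgood γ' hstrict hsup
  -- the ring of polynomials
  set R₀ : Subalgebra k (FF k (N + 1)) := (toFF (k := k) (n := N + 1)).range with hR₀
  have hmemR₀ : ∀ p : MvPolynomial (Fin (N + 1)) k, toFF p ∈ R₀ := fun p => ⟨p, rfl⟩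
  have hR₀gen : ∀ r ∈ R₀, ∃ c : k, ∃ r' : Fin (N + 1) → FF k (N + 1), (∀ i, r' i ∈ R₀) ∧
      r = algebraMap k (FF k (N + 1)) c + ∑ i, x i * r' i := by
    rintro _ ⟨p, rfl⟩
    obtain ⟨b, g, hb⟩ := taylor_one c p
    refine ⟨b, fun i => toFF (g i), fun i => hmemR₀ _, ?_⟩
    exact toFF_taylor c p b g hb
  have hR₀frac : ∀ f : FF k (N + 1), ∃ a ∈ R₀, ∃ b ∈ R₀, b ≠ 0 ∧ f = a / b := by
    intro f
    obtain ⟨p, q, hq, rfl⟩ := exists_frac f
    exact ⟨toFF p, hmemR₀ p, toFF q, hmemR₀ q, toFF_ne_zero hq, rfl⟩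
  -- the constants
  obtain ⟨c₀, hc₀, hc₁⟩ : ∃ c₀ : ℝ, 0 < c₀ ∧ (∀ i, c₀ ≤ u (x i)) := by
    refine ⟨Finset.univ.inf' Finset.univ_nonempty (fun i => u (x i)), ?_, ?_⟩
    · exact (Finset.lt_inf'_iff _).mpr fun i _ => hxpos i
    · intro i
      exact Finset.inf'_le _ (Finset.mem_univ i)
  have hq0 := v.idealVal_nonneg q
  set S : ℝ := A + v.idealVal q with hS
  have hS0 : 0 < S := by linarith
  set κ : ℝ := S⁻¹ with hκ
  have hκ0 : 0 < κ := inv_pos.mpr hS0
  set cY : ℝ := ∑ i, u (toFF (Y i)) with hcY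
  have hYnn : ∀ i, 0 ≤ u (toFF (Y i)) := fun i => hpoly _ (hY0 i)
  have hYle : ∀ i, u (toFF (Y i)) ≤ cY := fun i =>
    Finset.single_le_sum (f := fun i => u (toFF (Y i))) (fun j _ => hYnn j) (Finset.mem_univ i)
  have hcY0 : 0 ≤ cY := Finset.sum_nonneg fun i _ => hYnn i
  obtain ⟨E, hE⟩ := exists_nat_gt
    ((2 ^ N * (N.factorial : ℝ) * 3 ^ (N + 1) * ((N + 1) * A) ^ N) / (κ * c₀ ^ (N + 1)) + cY / A)
  have hE1 : (2 ^ N * (N.factorial : ℝ) * 3 ^ (N + 1) * ((N + 1) * A) ^ N) / (κ * c₀ ^ (N + 1)) < E := by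
    have : 0 ≤ cY / A := by positivity
    linarith
  have hE2 : cY / A < E := by
    have : 0 ≤ (2 ^ N * (N.factorial : ℝ) * 3 ^ (N + 1) * ((N + 1) * A) ^ N) / (κ * c₀ ^ (N + 1)) := by
      positivity
    linarith
  have hE' : 2 ^ N * (N.factorial : ℝ) * 3 ^ (N + 1) * ((N + 1) * A) ^ N
      < κ * c₀ ^ (N + 1) * E := by
    rw [div_lt_iff₀ (by positivity)] at hE1
    linarith
  have hE0 : 0 < E := by
    have : (0 : ℝ) < E := lt_of_le_of_lt (by positivity) hE1
    exact_mod_cast this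
  have hEA : cY ≤ E * A := by
    rw [div_lt_iff₀ hA0] at hE2
    exact hE2.le
  set lam : ℝ := (N + 1) * E * A with hlam
  have hlam0 : 0 ≤ lam := by positivity
  have hlam1 : cY ≤ lam := by
    have h1 : (0 : ℝ) ≤ N * (E * A) := by positivity
    have h2 : lam = N * (E * A) + E * A := by rw [hlam]; ring
    linarith
  -- the values
  obtain ⟨W, hWfin, hWrank, hWmem, hWval⟩ := exists_subspace u hk pd x pd_x A hA0.le hderpd E
  obtain ⟨SW, hSWcard, hSWmem, hSWinj⟩ := exists_distinct_values u hk hres W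
  set S0 : Finset (FF k (N + 1)) :=
    SW ∪ ({1} ∪ Finset.univ.image fun i : Fin N => toFF (Y i)) with hS0def
  have hadj : Algebra.adjoin k (Set.range x) ≤ R₀ := by
    rw [Algebra.adjoin_le_iff]
    rintro _ ⟨i, rfl⟩
    exact hmemR₀ _
  have hS0mem : ∀ s ∈ S0, s ∈ R₀ ∧ s ≠ 0 ∧ u s ≤ lam := by
    intro s hs
    rw [hS0def, Finset.mem_union, Finset.mem_union, Finset.mem_singleton, Finset.mem_image] at hs
    rcases hs with hs | rfl | ⟨i, _, rfl⟩
    · obtain ⟨h1, h2⟩ := hSWmem s hs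
      refine ⟨hadj (hWmem s h1), h2, ?_⟩
      have := hWval s h1 h2
      push_cast at this
      exact this
    · refine ⟨R₀.one_mem, one_ne_zero, ?_⟩
      rw [u.map_one]
      exact hlam0
    · exact ⟨hmemR₀ _, toFF_ne_zero (hY0 i), (hYle i).trans hlam1⟩
  -- the choice of γ
  set S1 : Finset (FF k (N + 1)) := S0 ∪ ({μ} ∪ Finset.univ.image x) with hS1def
  have hS1ne : ∀ s ∈ S1, s ≠ 0 := by
    intro s hs
    rcases Finset.mem_union.mp hs with hs | hs
    · exact (hS0mem s hs).2.1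
    rw [Finset.mem_union, Finset.mem_singleton, Finset.mem_image] at hs
    rcases hs with rfl | ⟨i, _, rfl⟩
    · exact hμ0
    · exact hx0 i
  have hxS1 : ∀ i, x i ∈ S1 := fun i => Finset.mem_union_right _
    (Finset.mem_union_right _ (Finset.mem_image.mpr ⟨i, Finset.mem_univ i, rfl⟩))
  have hμS1 : μ ∈ S1 := Finset.mem_union_right _
    (Finset.mem_union_left _ (Finset.mem_singleton_self μ))
  obtain ⟨γ₀, hγ1, hγ2⟩ : ∃ γ₀, γ₀ < γ' ∧ ∀ s ∈ S1, ∃ ε > 0, ∀ m : ℕ, m ≠ 0 →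
      u.Ge (u s + ε - m * γ₀) (dd (D l) m s) := by
    have key2 : ∀ T : Finset (FF k (N + 1)), T ⊆ S1 → ∃ γ₁, γ₁ < γ' ∧
        ∀ s ∈ T, ∃ ε > 0, ∀ m : ℕ, m ≠ 0 → u.Ge (u s + ε - m * γ₁) (dd (D l) m s) := by
      intro T
      induction T using Finset.induction_on with
      | empty =>
        intro _
        exact ⟨γ' - 1, by linarith, fun s hs => absurd hs (Finset.notMem_empty s)⟩
      | insert t T ht ih =>
        intro hT
        obtain ⟨γ₁, h1, h2⟩ := ih fun s hs => hT (Finset.mem_insert_of_mem hs)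
        obtain ⟨γ₂, h3, ε, hε, h4⟩ := (hG t).uniform hstrict hn
          (hS1ne t (hT (Finset.mem_insert_self t T)))
        refine ⟨max γ₁ γ₂, max_lt h1 h3, fun s hs => ?_⟩
        rcases Finset.mem_insert.mp hs with rfl | hs
        · refine ⟨ε, hε, fun m hm => (h4 m hm).mono ?_⟩
          have := mul_le_mul_of_nonneg_left (le_max_right γ₁ γ₂) (Nat.cast_nonneg (α := ℝ) m)
          linarith
        · obtain ⟨ε', hε', h5⟩ := h2 s hs
          refine ⟨ε', hε', fun m hm => (h5 m hm).mono ?_⟩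
          have := mul_le_mul_of_nonneg_left (le_max_left γ₁ γ₂) (Nat.cast_nonneg (α := ℝ) m)
          linarith
    exact key2 S1 (Finset.Subset.refl _)
  set γ : ℝ := (γ₀ + γ') / 2 with hγdef
  have hγ3 : γ₀ < γ := by rw [hγdef]; linarith
  have hγ4 : γ < γ' := by rw [hγdef]; linarith
  have hS1G : ∀ s ∈ S1, IsG u (D l) γ s (u s) 0 := by
    intro s hs
    obtain ⟨ε, hε, h⟩ := hγ2 s hs
    refine ⟨by rw [dd_zero]; exact hS1ne s hs, by simp, ?_, fun m hm => absurd hm (Nat.not_lt_zero m)⟩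
    intro m hm
    by_cases hm0 : m = 0
    · subst hm0; simp
    · have h1 := h m hm0 hm
      have h2 := mul_le_mul_of_nonneg_left hγ3.le (Nat.cast_nonneg (α := ℝ) m)
      linarith
  -- the ring of the functions with bounded Taylor series
  let R : Subring (FF k (N + 1)) :=
    { carrier := {f | ∃ C : ℝ, ∀ m : ℕ, u.Ge (C - m * γ₀) (dd (D l) m f)}
      mul_mem' := by
        rintro f g ⟨C₁, h₁⟩ ⟨C₂, h₂⟩
        refine ⟨C₁ + C₂, fun m => ?_⟩
        rw [dd_mul]
        refine RVal.Ge.sum _ _ fun ij hij => ?_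
        have h := Finset.HasAntidiagonal.mem_antidiagonal.mp hij
        refine ((h₁ ij.1).mul (h₂ ij.2)).mono (le_of_eq ?_)
        rw [← h]
        push_cast
        ring
      one_mem' := ⟨0, fun m => by
        by_cases hm : m = 0
        · subst hm
          intro _
          simp [u.map_one]
        · rw [dd_one _ _ hm]; exact RVal.Ge.zero⟩
      add_mem' := by
        rintro f g ⟨C₁, h₁⟩ ⟨C₂, h₂⟩
        refine ⟨min C₁ C₂, fun m => ?_⟩
        rw [dd_add]
        exact ((h₁ m).mono (by linarith [min_le_left C₁ C₂])).add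
          ((h₂ m).mono (by linarith [min_le_right C₁ C₂]))
      zero_mem' := ⟨0, fun m => by rw [dd_map_zero]; exact RVal.Ge.zero⟩
      neg_mem' := by
        rintro f ⟨C₁, h₁⟩
        exact ⟨C₁, fun m => by rw [dd_neg]; exact (h₁ m).neg⟩ }
  have hmemR : ∀ f, f ∈ R ↔ ∃ C : ℝ, ∀ m : ℕ, u.Ge (C - m * γ₀) (dd (D l) m f) := fun f => Iff.rfl
  have hS1R : ∀ s ∈ S1, s ∈ R := by
    intro s hs
    obtain ⟨ε, hε, h⟩ := hγ2 s hs
    refine ⟨u s, fun m => ?_⟩
    by_cases hm0 : m = 0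
    · subst hm0
      intro _
      simp
    · exact (h m hm0).mono (by linarith)
  have hconstR : ∀ b : k, algebraMap k (FF k (N + 1)) b ∈ R := by
    intro b
    refine ⟨0, fun m => ?_⟩
    by_cases hm : m = 0
    · subst hm
      rw [dd_zero]
      intro hb
      rw [hk b (by rintro rfl; exact hb (_root_.map_zero _))]
      simp
    · rw [dd_of_D_eq_zero _ _ hm _ ((D l).map_algebraMap b)]; exact RVal.Ge.zero
  have hR₀R : ∀ f ∈ R₀, f ∈ R := by
    rintro _ ⟨p, rfl⟩
    change toFF p ∈ R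
    induction p using MvPolynomial.induction_on with
    | C b =>
      rw [toFF_C]; exact hconstR b
    | add p q hp hq => rw [_root_.map_add]; exact R.add_mem hp hq
    | mul_X p i hp =>
      rw [_root_.map_mul]
      refine R.mul_mem hp ?_
      have h : toFF (X i : MvPolynomial (Fin (N + 1)) k) = x i + algebraMap k (FF k (N + 1)) (c i) := by
        rw [hx]
        simp only
        rw [_root_.map_sub, toFF_C, sub_add_cancel]
      rw [h]
      exact R.add_mem (hS1R _ (hxS1 i)) (hconstR _)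
  have hfrac : ∀ f : FF k (N + 1), ∃ a ∈ R, ∃ b ∈ R, b ≠ 0 ∧ f = a / b := by
    intro f
    obtain ⟨a, ha, b, hb, hb0, h⟩ := hR₀frac f
    exact ⟨a, hR₀R a ha, b, hR₀R b hb, hb0, h⟩
  have hcomm := derivations_comm D t D_t
  have hRD : ∀ i, ∀ f ∈ R, D i f ∈ R := by
    rintro i f ⟨C₁, h₁⟩
    refine ⟨C₁ - A', fun m => ?_⟩
    rw [← D_dd_comm (D l) (D i) (fun f => hcomm l i f)]
    intro hne
    have h2 := hder i _ hne
    have h3 : dd (D l) m f ≠ 0 := by
      intro h0
      rw [h0, _root_.map_zero] at hne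
      exact hne rfl
    have h4 := h₁ m h3
    linarith
  have hex : ∀ f ∈ R, f ≠ 0 → ∃ V Q, IsG u (D l) γ f V Q := by
    rintro f ⟨C₁, h₁⟩ hf0
    exact exists_isG' hγ3 f hf0 h₁
  obtain ⟨V, hV'⟩ := exists_gauss' (v := u) (D := D l) (γ := γ) R hex hfrac
  have hVS1 : ∀ s ∈ S1, V s = u s := by
    intro s hs
    obtain ⟨Q, hQ⟩ := hV' s (hS1R s hs) (hS1ne s hs)
    exact (hQ.unique (hS1G s hs)).1
  have hVx : ∀ i, V (x i) = u (x i) := fun i => hVS1 _ (hxS1 i)
  have hVμ : V μ = u μ := hVS1 _ hμS1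
  have hVconst : ∀ b : k, V.Ge 0 (algebraMap k (FF k (N + 1)) b) := by
    intro b hb
    obtain ⟨Q, hQ⟩ := hV' _ (hconstR b) hb
    have h := isG_of_D_eq_zero (v := u) (D := D l) (γ := γ) hb ((D l).map_algebraMap b)
    rw [(hQ.unique h).1, hk b (by rintro rfl; exact hb (_root_.map_zero _))]
  have hVx0 : ∀ i, V.Ge 0 (x i) := fun i _ => by rw [hVx]; exact (hxpos i).le
  have hVR₀ : ∀ f ∈ R₀, V.Ge 0 f := by
    rintro _ ⟨p, rfl⟩
    change V.Ge 0 (toFF p)
    induction p using MvPolynomial.induction_on with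
    | C b =>
      rw [toFF_C]; exact hVconst b
    | add p q hp hq => rw [_root_.map_add]; exact hp.add hq
    | mul_X p i hp =>
      rw [_root_.map_mul]
      have h : toFF (X i : MvPolynomial (Fin (N + 1)) k) = x i + algebraMap k (FF k (N + 1)) (c i) := by
        rw [hx]
        simp only
        rw [_root_.map_sub, toFF_C, sub_add_cancel]
      rw [h]
      have := hp.mul ((hVx0 i).add (hVconst (c i)))
      rwa [add_zero] at this
  have hV0 : ∀ f ∈ R₀, f ≠ 0 → 0 ≤ V f := fun f hf hf0 => hVR₀ f hf hf0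
  have hVv : ∀ f ∈ R₀, f ≠ 0 → V f ≤ u f := by
    intro f hf hf0
    obtain ⟨Q, hQ⟩ := hV' f (hR₀R f hf) hf0
    exact hQ.le
  -- the log discrepancy
  have hdrop := disc_drop u hn D hcomm l R hRD hfrac A' γ' γ hA' happrox V hV'
  have hdrop' : ∀ f : Fin (N + 1) → FF k (N + 1), jacD pd f ≠ 0 →
      ∑ i, V (f i) - V (jacD pd f) ≤ A - (γ' - γ) := by
    intro f hf
    have hf' : jacD D f ≠ 0 := by
      rw [jacD_chain D f]; exact mul_ne_zero hμ0 hf
    have h1 := hdrop f hf'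
    rw [jacD_chain D f, V.map_mul hμ0 hf] at h1
    have h3 : V (jacD D fun i => toFF (X i)) = V μ := rfl
    rw [h3, hVμ] at h1
    linarith
  have hpos : ∃ f : Fin (N + 1) → FF k (N + 1), jacD pd f ≠ 0 ∧
      0 < ∑ i, V (f i) - V (jacD pd f) := by
    refine ⟨x, by rw [hJx]; exact one_ne_zero, ?_⟩
    rw [hJx, V.map_one, sub_zero]
    exact Finset.sum_pos (fun i _ => by rw [hVx]; exact hxpos i) ⟨l, Finset.mem_univ l⟩
  obtain ⟨p, hp0, hp⟩ := exists_big v q hq a hcomp V (γ' - γ) (by linarith)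
    (fun p hp => hV0 _ (hmemR₀ p) (toFF_ne_zero hp))
    (fun p hp => hVv _ (hmemR₀ p) (toFF_ne_zero hp)) hdrop' hpos
  obtain ⟨Q, hQ⟩ := hV' (toFF p) (hR₀R _ (hmemR₀ p)) (toFF_ne_zero hp0)
  have hQle := hQ.v_le hstrict hn
  have hQκ : κ * V (toFF p) < Q := by
    have h1 : (1 + (γ' - γ) * κ) * V (toFF p) < u (toFF p) := hp
    have h2 : (γ' - γ) * (κ * V (toFF p)) < (γ' - γ) * Q := by linarith
    exact lt_of_mul_lt_mul_left h2 (by linarith)
  have hVp0 := hV0 _ (hmemR₀ p) (toFF_ne_zero hp0)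
  have hQ0 : Q ≠ 0 := by
    rintro rfl
    have := mul_nonneg hκ0.le hVp0
    push_cast at hQκ
    linarith
  obtain ⟨Qs, rfl⟩ := Nat.exists_eq_succ_of_ne_zero hQ0
  have hVs0 : 0 < V (toFF p) := by
    have hvp : 0 < u (toFF p) := by
      have h1 : 0 ≤ (1 + (γ' - γ) * κ) * V (toFF p) := by
        have : 0 ≤ γ' - γ := by linarith
        positivity
      exact lt_of_le_of_lt h1 hp
    obtain ⟨b, g, hb⟩ := taylor_one c p
    have hpe : toFF p = algebraMap k (FF k (N + 1)) b + ∑ i, x i * toFF (g i) :=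
      toFF_taylor c p b g hb
    have hgu : ∀ i, u.Ge 0 (toFF (g i)) := fun i hne =>
      hpoly _ (by rintro h; exact hne (by rw [h, _root_.map_zero]))
    have hsumu : u.Ge c₀ (∑ i, x i * toFF (g i)) := by
      refine RVal.Ge.sum _ _ fun i _ => ?_
      have := (RVal.Ge.of_le (hc₁ i)).mul (hgu i)
      rwa [add_zero] at this
    have hb0 : b = 0 := by
      by_contra hb0
      have hbne : algebraMap k (FF k (N + 1)) b ≠ 0 := by simpa using hb0
      have h1 : u (toFF p) = 0 := by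
        by_cases hs : ∑ i, x i * toFF (g i) = 0
        · rw [hpe, hs, add_zero, hk b hb0]
        · have h2 := u.add_of_lt hbne hs (by rw [hk b hb0]; exact lt_of_lt_of_le hc₀ (hsumu hs))
          rw [hpe, h2.2, hk b hb0]
      linarith
    rw [hb0, _root_.map_zero, zero_add] at hpe
    have hsumV : V.Ge c₀ (∑ i, x i * toFF (g i)) := by
      refine RVal.Ge.sum _ _ fun i _ => ?_
      have h1 : V.Ge c₀ (x i) := fun _ => by rw [hVx]; exact hc₁ i
      have := h1.mul (hVR₀ _ (hmemR₀ (g i)))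
      rwa [add_zero] at this
    have h3 := hsumV (by rw [← hpe]; exact toFF_ne_zero hp0)
    rw [← hpe] at h3
    linarith
  -- the family
  obtain ⟨C₁, hC₁, hH⟩ := family_count u (D l) γ hk hn R₀ x (fun i => hmemR₀ _) hR₀gen V
    (fun f hf hf0 => hV' f (hR₀R f hf) hf0) hV0 hR₀frac c₀ hc₀
    (fun i _ => by rw [hVx]; exact hc₁ i) (S0.image u) lam
    (by
      intro β hβ
      obtain ⟨s, hs, rfl⟩ := Finset.mem_image.mp hβ
      exact ⟨(hS0mem s hs).2.2, s, (hS0mem s hs).1, hS1G s (Finset.mem_union_left _ hs)⟩)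
    (toFF p) (hmemR₀ p) (V (toFF p)) Qs hQ
  have hBcard : E ^ (N + 1) ≤ (S0.image u).card := by
    have h1 : (SW.image u).card = E ^ (N + 1) := by
      rw [Finset.card_image_of_injOn hSWinj, hSWcard, hWrank]
    rw [← h1]
    exact Finset.card_le_card (Finset.image_subset_image Finset.subset_union_left)
  refine numeric N E (Qs + 1) A κ c₀ (V (toFF p)) C₁ hA0 hκ0 hc₀ hVs0 hC₁ hE0
    (by exact_mod_cast hQκ) hE' ?_
  intro L T M' hL hM'
  have h1 := hH (L + N) T M' (by push_cast; exact hM')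
  have h2 := sumset_growth (S0.image u) (fun i : Fin N => u (toFF (Y i))) indep
    (Finset.mem_image.mpr ⟨1, by simp [hS0def], u.map_one⟩)
    (fun i => Finset.mem_image.mpr ⟨toFF (Y i), by
      rw [hS0def, Finset.mem_union, Finset.mem_union, Finset.mem_image]
      exact Or.inr (Or.inr ⟨i, Finset.mem_univ i, rfl⟩), rfl⟩)
    (L + N) (by omega)
  have h3 : ((L : ℝ) ^ N) ≤ N.factorial * ((L + N - 1).choose N : ℝ) := by
    have := Nat.pow_le_choose (α := ℝ) N (L + N - 1)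
    rw [div_le_iff₀ (by positivity)] at this
    have e : L + N - 1 + 1 - N = L := by omega
    rw [e] at this
    linarith
  have h4 : ((E : ℝ) ^ (N + 1)) * ((L + N - 1).choose N : ℝ) ≤ 2 ^ N * (((L + N) • S0.image u).card : ℝ) := by
    have h5 : E ^ (N + 1) * (L + N - 1).choose N ≤ 2 ^ N * ((L + N) • S0.image u).card :=
      (Nat.mul_le_mul_right _ hBcard).trans h2
    exact_mod_cast h5
  have h6 : ((((L + N) • S0.image u).card : ℝ)) * T * (Qs + 1) ≤ (M' : ℝ) ^ (N + 1) := by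
    exact_mod_cast h1
  have hTQ : (0 : ℝ) ≤ T * (Qs + 1) := by positivity
  calc (E : ℝ) ^ (N + 1) * L ^ N * T * ((Qs + 1 : ℕ) : ℝ)
      = (E : ℝ) ^ (N + 1) * L ^ N * (T * (Qs + 1)) := by push_cast; ring
    _ ≤ (E : ℝ) ^ (N + 1) * (N.factorial * ((L + N - 1).choose N : ℝ)) * (T * (Qs + 1)) := by
        gcongr
    _ = N.factorial * ((E : ℝ) ^ (N + 1) * ((L + N - 1).choose N : ℝ)) * (T * (Qs + 1)) := by ring
    _ ≤ N.factorial * (2 ^ N * (((L + N) • S0.image u).card : ℝ)) * (T * (Qs + 1)) := by gcongr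
    _ = 2 ^ N * N.factorial * ((((L + N) • S0.image u).card : ℝ) * T * (Qs + 1)) := by ring
    _ ≤ 2 ^ N * N.factorial * (M' : ℝ) ^ (N + 1) := by gcongr

end Pool.Agent.H15JM
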