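import Pool.Agent.Lib.JM_H15.Strict
import Pool.Agent.Lib.JM_H15.Good
import Pool.Agent.Lib.JM_H15.Approx
import Pool.Agent.Lib.JM_H15.Compl

/-!
# All elements are good (OWNER: helper15)
-/

set_option autoImplicit false

open Finset

namespace Pool.Agent.H15JM

/-- Let `v` be a valuation of `K` with residue field `k` (of characteristic zero), `D` a
derivation with critical radius `γ'`, `y_i` constants of `D` whose values span all values over
`ℚ`. If `K` is algebraic over `k(y_i, z)`, `D z = 1`, then all elements of `K` are good. -/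
theorem good_all {k K : Type} [Field k] [Field K] [Algebra k K] [CharZero K] {d : ℕ} (v : RVal K)
    (hk : ∀ c : k, c ≠ 0 → v (algebraMap k K c) = 0)
    (hn : ∀ m : ℕ, m ≠ 0 → v ((m : K)) = 0)
    (hres : ∀ f : K, f ≠ 0 → v f = 0 →
      ∃ c : k, f = algebraMap k K c ∨ 0 < v (f - algebraMap k K c))
    (D : Derivation k K K) (γ' : ℝ) (hsup : ∀ f, D f ≠ 0 → v f - v (D f) ≤ γ')
    (y : Fin d → K) (hy0 : ∀ i, y i ≠ 0) (hyD : ∀ i, D (y i) = 0)
    (hval : ∀ f, f ≠ 0 → ∃ m : ℕ, m ≠ 0 ∧ ∃ a : Fin d → ℤ, m * v f = ∑ i, a i * v (y i))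
    (z : K) (hz : D z = 1) (S : Set K) (hS : ∀ s ∈ S, s = z ∨ ∃ i, s = y i)
    (halg : Algebra.IsAlgebraic (IntermediateField.adjoin k S) K) (f : K) :
    Good v D γ' f := by
  classical
  obtain ⟨Ω, _, _, ι, w, E, hw, hE, hEsup, hdense, hroots⟩ := exists_completion v hk hn D γ' hsup
  have hι : Function.Injective ι := ι.toRingHom.injective
  have hι0 : ∀ x : K, x ≠ 0 → ι x ≠ 0 := fun x hx h => hx (hι (by rw [h, _root_.map_zero]))
  have : CharZero Ω := charZero_of_injective_ringHom ι.toRingHom.injective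
  have hnΩ : ∀ m : ℕ, m ≠ 0 → w ((m : Ω)) = 0 := by
    intro m hm
    have h1 : (m : K) ≠ 0 := by exact_mod_cast hm
    have := hw (m : K) h1
    rwa [map_natCast, hn m hm] at this
  have hkΩ : ∀ c : k, c ≠ 0 → w (algebraMap k Ω c) = 0 := by
    intro c hc
    have h1 : algebraMap k K c ≠ 0 := by simpa using hc
    have := hw _ h1
    rwa [ι.commutes, hk c hc] at this
  -- approximation by elements of `K`
  have happ : ∀ x : Ω, x ≠ 0 → ∃ a : K, a ≠ 0 ∧ w (ι a) = w x ∧ w.Ge (w x + 1) (x - ι a) := by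
    intro x hx
    obtain ⟨a, ha⟩ := hdense x (w x + 1)
    have h1 : ι a = x + -(x - ι a) := by ring
    by_cases hxa : x - ι a = 0
    · have h2 : ι a = x := (sub_eq_zero.mp hxa).symm
      refine ⟨a, ?_, by rw [h2], ha⟩
      rintro rfl
      rw [_root_.map_zero] at h2
      exact hx h2.symm
    · have h3 := w.add_of_lt hx (neg_ne_zero.mpr hxa) (by
        rw [w.map_neg _ hxa]
        have := ha hxa
        linarith)
      rw [← h1] at h3
      refine ⟨a, ?_, h3.2, ha⟩
      rintro rfl
      exact h3.1 (_root_.map_zero ι)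
  have hresΩ : ∀ x : Ω, x ≠ 0 → w x = 0 →
      ∃ c : k, x = algebraMap k Ω c ∨ 0 < w (x - algebraMap k Ω c) := by
    intro x hx hwx
    obtain ⟨a, ha0, ha, hxa⟩ := happ x hx
    rw [hw a ha0, hwx] at ha
    obtain ⟨c, hc⟩ := hres a ha0 ha
    refine ⟨c, ?_⟩
    by_cases hxc : x - algebraMap k Ω c = 0
    · exact Or.inl (sub_eq_zero.mp hxc)
    · right
      have h1 : x - algebraMap k Ω c = (x - ι a) + ι (a - algebraMap k K c) := by
        rw [_root_.map_sub, ι.commutes]; ring
      rcases hc with hc | hc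
      · have h2 : algebraMap k Ω c = ι a := by rw [hc, ι.commutes]
        rw [h2] at hxc ⊢
        have := hxa hxc
        rw [hwx] at this
        linarith
      · by_cases h2 : a - algebraMap k K c = 0
        · rw [h2, _root_.map_zero, add_zero] at h1
          rw [h1] at hxc ⊢
          have := hxa hxc
          linarith
        · have h3 : w.Ge (min 1 (v (a - algebraMap k K c))) (x - algebraMap k Ω c) := by
            rw [h1]
            refine RVal.Ge.add (hxa.mono ?_) ?_
            · rw [hwx, zero_add]; exact min_le_left _ _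
            · intro _
              rw [hw _ h2]; exact min_le_right _ _
          exact lt_of_lt_of_le (lt_min one_pos hc) (h3 hxc)
  have hvalΩ : ∀ x : Ω, x ≠ 0 → ∃ m : ℕ, m ≠ 0 ∧ ∃ a : Fin d → ℤ,
      m * w x = ∑ i, a i * w (ι (y i)) := by
    intro x hx
    obtain ⟨a, ha0, ha, -⟩ := happ x hx
    obtain ⟨m, hm, b, hb⟩ := hval a ha0
    refine ⟨m, hm, b, ?_⟩
    rw [← ha, hw a ha0, hb]
    exact Finset.sum_congr rfl fun i _ => by rw [hw _ (hy0 i)]
  have hEy : ∀ i, E (ι (y i)) = 0 := fun i => by rw [hE, hyD, _root_.map_zero]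
  have hstrict : ∀ f, E f ≠ 0 → w f < w (E f) + γ' :=
    strict w hnΩ hresΩ E γ' hEsup (fun i => ι (y i)) (fun i => hι0 _ (hy0 i)) hEy hvalΩ
  set G : Subfield Ω := goodField w E γ' hstrict hnΩ with hG
  have hmemG : ∀ x : Ω, x ∈ G ↔ Good w E γ' x := fun x => Iff.rfl
  have hconstG : ∀ c : k, algebraMap k Ω c ∈ G := fun c =>
    (hmemG _).mpr (good_of_E_eq_zero (E.map_algebraMap c))
  have hyG : ∀ i, ι (y i) ∈ G := fun i => (hmemG _).mpr (good_of_E_eq_zero (hEy i))
  have hvalG : ∀ x : Ω, x ≠ 0 → ∃ b ∈ G, b ≠ 0 ∧ w b = w x := by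
    intro x hx
    obtain ⟨m, hm, b, hb⟩ := hvalΩ x hx
    set Y : Ω := ∏ i, ι (y i) ^ b i with hYdef
    have hY0 : Y ≠ 0 := Finset.prod_ne_zero_iff.mpr fun i _ => zpow_ne_zero _ (hι0 _ (hy0 i))
    have hYG : Y ∈ G := G.prod_mem fun i _ => G.zpow_mem (hyG i) _
    have hYw : w Y = m * w x := by
      rw [hYdef, w.map_prod _ _ fun i _ => zpow_ne_zero _ (hι0 _ (hy0 i)), hb]
      exact Finset.sum_congr rfl fun i _ => w.map_zpow (hι0 _ (hy0 i)) (b i)
    have hxm : x ^ m ≠ 0 := pow_ne_zero m hx
    have hu0 : x ^ m / Y ≠ 0 := div_ne_zero hxm hY0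
    have hu : w (x ^ m / Y) = 0 := by rw [w.map_div hxm hY0, w.map_pow hx, hYw]; ring
    obtain ⟨c, hc⟩ := hresΩ _ hu0 hu
    have hc0 : c ≠ 0 := by
      rintro rfl
      rw [_root_.map_zero, sub_zero] at hc
      rcases hc with hc | hc
      · exact hu0 hc
      · rw [hu] at hc; exact lt_irrefl _ hc
    have hcΩ : algebraMap k Ω c ≠ 0 := by simpa using hc0
    set h : Ω := x ^ m / Y / algebraMap k Ω c - 1 with hh
    have hh0 : h ≠ 0 → 0 < w h := by
      intro hne
      rcases hc with hc | hc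
      · exfalso
        apply hne
        rw [hh, hc, div_self hcΩ, sub_self]
      · have h1 : h = (x ^ m / Y - algebraMap k Ω c) / algebraMap k Ω c := by
          rw [hh, sub_div, div_self hcΩ]
        have h2 : x ^ m / Y - algebraMap k Ω c ≠ 0 := by
          intro h0
          rw [h1, h0, zero_div] at hne
          exact hne rfl
        rw [h1, w.map_div h2 hcΩ, hkΩ c hc0, sub_zero]
        exact hc
    obtain ⟨r, hr⟩ := hroots h hh0 m hm
    have h1h : 1 + h = x ^ m / Y / algebraMap k Ω c := by rw [hh]; ring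
    have h1h0 : 1 + h ≠ 0 := by rw [h1h]; exact div_ne_zero hu0 hcΩ
    have hr0 : r ≠ 0 := by
      rintro rfl
      rw [zero_pow hm] at hr
      exact h1h0 hr.symm
    have hrw : w r = 0 := by
      have h1 := congrArg w hr
      have h2 : w (1 + h) = 0 := by
        rw [h1h, w.map_div hu0 hcΩ, hu, hkΩ c hc0, sub_zero]
      rw [w.map_pow hr0, h2] at h1
      have h3 : (m : ℝ) ≠ 0 := by exact_mod_cast hm
      exact (mul_eq_zero.mp h1).resolve_left h3
    refine ⟨x / r, ?_, div_ne_zero hx hr0, by rw [w.map_div hx hr0, hrw, sub_zero]⟩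
    have hpow : (x / r) ^ m = Y * algebraMap k Ω c := by
      rw [div_pow, hr, h1h]
      field_simp
    have hgood : Good w E γ' (Y * algebraMap k Ω c) :=
      (hmemG _).mp (G.mul_mem hYG (hconstG c))
    exact (hmemG _).mpr (Good.root hstrict hnΩ m hm hgood hpow)
  have hresG : ∀ x : Ω, x ≠ 0 → w x = 0 → ∃ c ∈ G, x = c ∨ 0 < w (x - c) := by
    intro x hx hwx
    obtain ⟨c, hc⟩ := hresΩ x hx hwx
    exact ⟨_, hconstG c, hc⟩
  -- the field generated by `y` and `z` is contained in `G`
  have hadj : ∀ x ∈ IntermediateField.adjoin k S, ι x ∈ G := by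
    intro x hx
    induction hx using IntermediateField.adjoin_induction with
    | mem x hx =>
      rcases hS x hx with rfl | ⟨i, rfl⟩
      · exact (hmemG _).mpr (good_of_E_eq_one (by rw [hE, hz, _root_.map_one]))
      · exact hyG i
    | algebraMap c => rw [ι.commutes]; exact hconstG c
    | add x y _ _ hx hy => rw [_root_.map_add]; exact G.add_mem hx hy
    | inv x _ hx => rw [map_inv₀]; exact G.inv_mem hx
    | mul x y _ _ hx hy => rw [_root_.map_mul]; exact G.mul_mem hx hy
  let φ : IntermediateField.adjoin k S →+* G :=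
    { toFun := fun x => ⟨ι x, hadj x x.2⟩
      map_one' := by ext; simp
      map_mul' := fun a b => by ext; simp
      map_zero' := by ext; simp
      map_add' := fun a b => by ext; simp }
  have halgG : IsAlgebraic G (ι f) := by
    obtain ⟨P, hP0, hP⟩ := halg.isAlgebraic f
    refine ⟨P.map φ, (Polynomial.map_ne_zero_iff φ.injective).mpr hP0, ?_⟩
    rw [Polynomial.aeval_def, Polynomial.eval₂_map]
    have h1 : (algebraMap G Ω).comp φ
        = (ι : K →+* Ω).comp (algebraMap (IntermediateField.adjoin k S) K) := by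
      ext x
      rfl
    have h2 := Polynomial.hom_eval₂ P (algebraMap (IntermediateField.adjoin k S) K) (ι : K →+* Ω) f
    rw [Polynomial.aeval_def] at hP
    rw [hP, _root_.map_zero] at h2
    rw [h1]
    exact h2.symm
  have hclos := closure_of_isAlgebraic w hnΩ G hvalG hresG (ι f) halgG
  -- the minimal polynomial
  have hint : IsIntegral G (ι f) := halgG.isIntegral
  have hsep : (minpoly G (ι f)).Separable := (minpoly.irreducible hint).separable
  have hfG : Good w E γ' (ι f) := by
    refine good_of_closure hstrict hnΩ (ι f) ((minpoly G (ι f)).map (algebraMap G Ω)) ?_ ?_ ?_ ?_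
    · intro i
      rw [Polynomial.coeff_map]
      exact (hmemG _).mp ((minpoly G (ι f)).coeff i).2
    · rw [Polynomial.eval_map, ← Polynomial.aeval_def]
      exact minpoly.aeval G (ι f)
    · rw [Polynomial.derivative_map, Polynomial.eval_map, ← Polynomial.aeval_def]
      exact hsep.aeval_derivative_ne_zero (minpoly.aeval G (ι f))
    · intro C
      obtain ⟨a, ha, h⟩ := hclos C
      exact ⟨a, (hmemG a).mp ha, h⟩
  obtain ⟨γ, hγ, C, hC⟩ := hfG
  refine ⟨γ, hγ, C, fun m hm => ?_⟩
  have hdd : ∀ m, dd E m (ι f) = ι (dd D m f) := by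
    intro m
    have hit : E^[m] (ι f) = ι (D^[m] f) := by
      induction m with
      | zero => rfl
      | succ m ih => rw [Function.iterate_succ_apply', Function.iterate_succ_apply', ih, hE]
    rw [dd, dd, hit, _root_.map_mul, map_inv₀, map_natCast]
  have h1 := hC m (by rw [hdd]; exact hι0 _ hm)
  rwa [hdd, hw _ hm] at h1

end Pool.Agent.H15JM
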