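import Pool.Agent.Lib.JM_H15.Final2
import Pool.Agent.Lib.JM_H15.GoodAll

/-!
# The theorem on the rational rank (OWNER: helper15)
-/

set_option autoImplicit false

open MvPolynomial

namespace Pool.Agent.H15JM

variable {k : Type} [Field k] [CharZero k] {N : ℕ}

theorem rank_eq_of_computes (v : ValX k (N + 1)) (hres : v.ResidueFieldIs)
    (hrank : ∃ f : Fin N → FF k (N + 1), (∀ i, f i ≠ 0) ∧ LinearIndependent ℚ fun i => v (f i))
    (q : Ideal (MvPolynomial (Fin (N + 1)) k)) (hq : q ≠ ⊥)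
    (a : GradedSeq k (N + 1)) (hcomp : v.Computes q a) :
    ∃ f : Fin (N + 1) → FF k (N + 1), (∀ i, f i ≠ 0) ∧ LinearIndependent ℚ fun i => v (f i) := by
  by_contra hcon
  push Not at hcon
  have : CharZero (FF k (N + 1)) :=
    charZero_of_injective_algebraMap (algebraMap k (FF k (N + 1))).injective
  obtain ⟨f₀, hf₀, hf₀i⟩ := hrank
  obtain ⟨Y, hY0, hYi⟩ := exists_poly_indep v f₀ hf₀ hf₀i
  have hY0' : ∀ i, toFF (Y i) ≠ 0 := fun i => toFF_ne_zero (hY0 i)
  have hYalg := algebraicIndependent_of_values v (fun i => toFF (Y i)) hY0' hYi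
  obtain ⟨j, hj⟩ := exists_coordinate (fun i => toFF (Y i)) hYalg
  set t : Fin (N + 1) → FF k (N + 1) := Fin.snoc (fun i => toFF (Y i)) (toFF (X j)) with ht
  have ht1 : ∀ i : Fin N, t i.castSucc = toFF (Y i) := fun i => by rw [ht]; simp
  have ht2 : t (Fin.last N) = toFF (X j) := by rw [ht]; simp
  obtain ⟨D, hD⟩ := exists_dual_derivations t (jacD_ne_zero t hj)
  have hval : ∀ f : FF k (N + 1), f ≠ 0 → ∃ m : ℕ, m ≠ 0 ∧ ∃ b : Fin N → ℤ,
      m * v f = ∑ i, b i * v (toFF (Y i)) := by
    intro f hf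
    have hspan : v f ∈ Submodule.span ℚ (Set.range fun i : Fin N => v (toFF (Y i))) := by
      by_contra h
      refine hcon (Fin.snoc (fun i : Fin N => toFF (Y i)) f) ?_ ?_
      · intro i
        refine Fin.lastCases ?_ (fun i => ?_) i
        · simpa using hf
        · simpa using hY0' i
      · have h1 : (fun i => v ((Fin.snoc (fun i : Fin N => toFF (Y i)) f :
            Fin (N + 1) → FF k (N + 1)) i)) = Fin.snoc (fun i : Fin N => v (toFF (Y i))) (v f) := by
          ext i
          refine Fin.lastCases ?_ (fun i => ?_) i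
          · simp
          · simp
        rw [h1]
        exact hYi.finSnoc h
    rw [Submodule.mem_span_range_iff_exists_fun] at hspan
    obtain ⟨c, hc⟩ := hspan
    refine ⟨∏ i, (c i).den, Finset.prod_ne_zero_iff.mpr fun i _ => (c i).den_nz,
      fun i => (c i).num * ∏ j ∈ Finset.univ.erase i, ((c j).den : ℤ), ?_⟩
    rw [← hc, Finset.mul_sum]
    refine Finset.sum_congr rfl fun i _ => ?_
    rw [← Finset.mul_prod_erase _ _ (Finset.mem_univ i)]
    push_cast
    rw [Rat.smul_def]
    have h2 : ((c i : ℚ) : ℝ) * ((c i).den : ℝ) = ((c i).num : ℝ) := by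
      exact_mod_cast Rat.mul_den_eq_num (c i)
    rw [← h2]
    ring
  have hn : ∀ m : ℕ, m ≠ 0 → v.toRVal ((m : FF k (N + 1))) = 0 := by
    intro m hm
    have := v.map_const (m : k) (by exact_mod_cast hm)
    rwa [map_natCast] at this
  refine no_computing2 v hres Y hY0 hYi t ht1 (X j) ht2 D hD ?_ q hq a hcomp hval
  intro γ' _ hsup f
  refine good_all v.toRVal v.map_const hn hres (D (Fin.last N)) γ' hsup (fun i => toFF (Y i)) hY0'
    (fun i => ?_) hval (toFF (X j)) ?_ (Set.range t) ?_ hj.isAlgebraic_field f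
  · rw [← ht1, hD, if_neg (Fin.castSucc_lt_last i).ne]
  · rw [← ht2, hD, if_pos rfl]
  · rintro _ ⟨i, rfl⟩
    refine Fin.lastCases ?_ (fun i => ?_) i
    · exact Or.inl ht2
    · exact Or.inr ⟨i, ht1 i⟩

end Pool.Agent.H15JM
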