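import Pool.Agent.Lib.JM_H15.Basic

/-!
# Divided powers of a derivation (OWNER: helper15)
-/

set_option autoImplicit false

open Finset

namespace Pool.Agent.H15JM

variable {k K : Type*} [Field k] [Field K] [Algebra k K]

theorem iter_add (D : Derivation k K K) (m : ℕ) (f g : K) :
    D^[m] (f + g) = D^[m] f + D^[m] g := by
  induction m generalizing f g with
  | zero => rfl
  | succ m ih => rw [Function.iterate_succ_apply, Function.iterate_succ_apply,
      Function.iterate_succ_apply, _root_.map_add, ih]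

theorem iter_smul (D : Derivation k K K) (m : ℕ) (c : k) (f : K) :
    D^[m] (c • f) = c • D^[m] f := by
  induction m generalizing f with
  | zero => rfl
  | succ m ih => rw [Function.iterate_succ_apply, Function.iterate_succ_apply,
      Derivation.map_smul, ih]

theorem iter_zero (D : Derivation k K K) (m : ℕ) : D^[m] (0 : K) = 0 := by
  have := iter_smul D m 0 0
  simpa using this

@[simp] theorem dd_zero (D : Derivation k K K) (f : K) : dd D 0 f = f := by
  simp [dd]

theorem dd_add (D : Derivation k K K) (m : ℕ) (f g : K) :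
    dd D m (f + g) = dd D m f + dd D m g := by
  simp only [dd, iter_add]
  ring

theorem dd_smul (D : Derivation k K K) (m : ℕ) (c : k) (f : K) :
    dd D m (c • f) = c • dd D m f := by
  simp only [dd, iter_smul]
  rw [mul_smul_comm]

@[simp] theorem dd_map_zero (D : Derivation k K K) (m : ℕ) : dd D m (0 : K) = 0 := by
  simp [dd, iter_zero]

theorem dd_sum {ι : Type*} (D : Derivation k K K) (m : ℕ) (s : Finset ι) (f : ι → K) :
    dd D m (∑ i ∈ s, f i) = ∑ i ∈ s, dd D m (f i) := by
  classical
  induction s using Finset.induction_on with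
  | empty => simp
  | insert a s ha ih => rw [Finset.sum_insert ha, Finset.sum_insert ha, dd_add, ih]

theorem dd_neg (D : Derivation k K K) (m : ℕ) (f : K) : dd D m (-f) = - dd D m f := by
  have := dd_add D m f (-f)
  rw [add_neg_cancel, dd_map_zero] at this
  exact (neg_eq_of_add_eq_zero_right this.symm).symm

variable [CharZero K]

/-- `D (dd m f) = (m + 1) dd (m + 1) f`. -/
theorem D_dd (D : Derivation k K K) (m : ℕ) (f : K) :
    D (dd D m f) = ((m : K) + 1) * dd D (m + 1) f := by
  have h1 : ((m.factorial : K))⁻¹ = algebraMap ℚ K ((m.factorial : ℚ)⁻¹) := by simp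
  have h2 : D (((m.factorial : K))⁻¹) = 0 := by
    have h3 := D.leibniz ((m.factorial : K)) (((m.factorial : K))⁻¹)
    rw [mul_inv_cancel₀ (by exact_mod_cast Nat.factorial_ne_zero m), D.map_one_eq_zero,
      D.map_natCast] at h3
    have h4 : (m.factorial : K) ≠ 0 := by exact_mod_cast Nat.factorial_ne_zero m
    simpa [h4] using h3.symm
  rw [dd, dd, D.leibniz, h2, smul_zero, add_zero, Function.iterate_succ_apply', smul_eq_mul,
    Nat.factorial_succ]
  push_cast
  have h5 : (m.factorial : K) ≠ 0 := by exact_mod_cast Nat.factorial_ne_zero m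
  have h6 : (m : K) + 1 ≠ 0 := by exact_mod_cast Nat.succ_ne_zero m
  field_simp

/-- `dd m (D f) = (m + 1) dd (m + 1) f`. -/
theorem dd_D (D : Derivation k K K) (m : ℕ) (f : K) :
    dd D m (D f) = ((m : K) + 1) * dd D (m + 1) f := by
  rw [dd, dd, Function.iterate_succ_apply, Nat.factorial_succ]
  push_cast
  have h5 : (m.factorial : K) ≠ 0 := by exact_mod_cast Nat.factorial_ne_zero m
  have h6 : (m : K) + 1 ≠ 0 := by exact_mod_cast Nat.succ_ne_zero m
  field_simp

theorem D_dd_comm (D E : Derivation k K K) (h : ∀ f, D (E f) = E (D f)) (m : ℕ) (f : K) :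
    E (dd D m f) = dd D m (E f) := by
  induction m with
  | zero => simp
  | succ m ih =>
    have h6 : (m : K) + 1 ≠ 0 := by exact_mod_cast Nat.succ_ne_zero m
    have h7 : E ((m : K) + 1) = 0 := by
      rw [_root_.map_add, E.map_natCast, E.map_one_eq_zero, add_zero]
    have h1 : E (D (dd D m f)) = ((m : K) + 1) * E (dd D (m + 1) f) := by
      rw [D_dd, E.leibniz, h7, smul_zero, add_zero, smul_eq_mul]
    have h2 : D (dd D m (E f)) = ((m : K) + 1) * dd D (m + 1) (E f) := D_dd D m (E f)
    rw [← h, ih, h2] at h1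
    exact (mul_left_cancel₀ h6 h1).symm

/-- Composition of divided powers. -/
theorem dd_dd (D : Derivation k K K) (i j : ℕ) (f : K) :
    dd D i (dd D j f) = ((i + j).choose i : K) * dd D (i + j) f := by
  induction i with
  | zero => simp
  | succ i ih =>
    have h6 : (i : K) + 1 ≠ 0 := by exact_mod_cast Nat.succ_ne_zero i
    have h1 : D (dd D i (dd D j f)) = ((i : K) + 1) * dd D (i + 1) (dd D j f) := D_dd D i _
    have h7 : D (((i + j).choose i : ℕ) : K) = 0 := D.map_natCast _
    rw [ih, D.leibniz, h7, smul_zero, add_zero, D_dd, smul_eq_mul] at h1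
    apply mul_left_cancel₀ h6
    rw [← h1]
    have h8 : ((i + 1 + j).choose (i + 1) : K) * ((i : K) + 1)
        = ((i + j).choose i : K) * (((i + j : ℕ) : K) + 1) := by
      have := Nat.add_one_mul_choose_eq (i + j) i
      have e : i + 1 + j = i + j + 1 := by ring
      rw [e]
      exact_mod_cast (by rw [this.symm]; ring :
        (i + j + 1).choose (i + 1) * (i + 1) = (i + j).choose i * (i + j + 1))
    have e : i + 1 + j = i + j + 1 := by ring
    rw [← mul_assoc, ← mul_assoc, ← h8, e]
    ring

/-- The Taylor series along a derivation. -/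
noncomputable def tay (D : Derivation k K K) (f : K) : PowerSeries K :=
  PowerSeries.mk fun m => dd D m f

theorem coeff_tay (D : Derivation k K K) (f : K) (m : ℕ) :
    PowerSeries.coeff m (tay D f) = dd D m f := by
  simp [tay]

/-- Leibniz rule. -/
theorem dd_mul (D : Derivation k K K) (m : ℕ) (f g : K) :
    dd D m (f * g) = ∑ ij ∈ antidiagonal m, dd D ij.1 f * dd D ij.2 g := by
  induction m generalizing f g with
  | zero => simp
  | succ m ih =>
    have h6 : (m : K) + 1 ≠ 0 := by exact_mod_cast Nat.succ_ne_zero m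
    apply mul_left_cancel₀ h6
    rw [← dd_D, D.leibniz, dd_add, smul_eq_mul, smul_eq_mul, ih, ih]
    simp only [dd_D]
    have key : ∀ F : ℕ × ℕ → K, ∑ ij ∈ antidiagonal (m + 1), ((ij.2 : ℕ) : K) * F ij
        = ∑ ij ∈ antidiagonal m, ((ij.2 : K) + 1) * F (ij.1, ij.2 + 1) := by
      intro F
      rw [Finset.Nat.antidiagonal_succ']
      simp [Prod.map]
    have key' : ∀ F : ℕ × ℕ → K, ∑ ij ∈ antidiagonal (m + 1), ((ij.1 : ℕ) : K) * F ij
        = ∑ ij ∈ antidiagonal m, ((ij.1 : K) + 1) * F (ij.1 + 1, ij.2) := by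
      intro F
      rw [Finset.Nat.antidiagonal_succ]
      simp [Prod.map]
    have k1 := key (fun ij => dd D ij.1 f * dd D ij.2 g)
    have k2 := key' (fun ij => dd D ij.1 f * dd D ij.2 g)
    have e1 : ∑ ij ∈ antidiagonal m, dd D ij.1 f * (((ij.2 : K) + 1) * dd D (ij.2 + 1) g)
        = ∑ ij ∈ antidiagonal m, ((ij.2 : K) + 1) * (dd D ij.1 f * dd D (ij.2 + 1) g) :=
      Finset.sum_congr rfl fun _ _ => by ring
    have e2 : ∑ ij ∈ antidiagonal m, dd D ij.1 g * (((ij.2 : K) + 1) * dd D (ij.2 + 1) f)
        = ∑ ij ∈ antidiagonal m, ((ij.1 : K) + 1) * (dd D (ij.1 + 1) f * dd D ij.2 g) := by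
      rw [← Finset.Nat.sum_antidiagonal_swap]
      exact Finset.sum_congr rfl fun _ _ => by simp; ring
    rw [e1, e2, ← k1, ← k2, ← Finset.sum_add_distrib, Finset.mul_sum]
    refine Finset.sum_congr rfl fun ij hij => ?_
    have h := Finset.HasAntidiagonal.mem_antidiagonal.mp hij
    have h' : ((ij.1 : K) + (ij.2 : K)) = (m : K) + 1 := by exact_mod_cast h
    rw [← h']
    ring

theorem dd_one (D : Derivation k K K) (m : ℕ) (hm : m ≠ 0) : dd D m (1 : K) = 0 := by
  obtain ⟨m, rfl⟩ := Nat.exists_eq_succ_of_ne_zero hm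
  have h6 : (m : K) + 1 ≠ 0 := by exact_mod_cast Nat.succ_ne_zero m
  apply mul_left_cancel₀ h6
  rw [← dd_D, D.map_one_eq_zero, dd_map_zero, mul_zero]

/-- The divided powers of a constant. -/
theorem dd_of_D_eq_zero (D : Derivation k K K) (m : ℕ) (hm : m ≠ 0) (f : K) (hf : D f = 0) :
    dd D m f = 0 := by
  obtain ⟨m, rfl⟩ := Nat.exists_eq_succ_of_ne_zero hm
  have h6 : (m : K) + 1 ≠ 0 := by exact_mod_cast Nat.succ_ne_zero m
  apply mul_left_cancel₀ h6
  rw [← dd_D, hf, dd_map_zero, mul_zero]

/-- Leibniz rule for finite products. -/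
theorem dd_prod {ι : Type*} [DecidableEq ι] (D : Derivation k K K) (m : ℕ) (s : Finset ι)
    (f : ι → K) :
    dd D m (∏ i ∈ s, f i) = ∑ l ∈ finsuppAntidiag s m, ∏ i ∈ s, dd D (l i) (f i) := by
  have h : ∀ f g : K, tay D (f * g) = tay D f * tay D g := by
    intro f g
    ext m
    rw [PowerSeries.coeff_mul, coeff_tay, dd_mul]
    simp only [coeff_tay]
  have h1 : tay D (1 : K) = 1 := by
    ext m
    rw [coeff_tay, PowerSeries.coeff_one]
    split_ifs with hm
    · subst hm; simp
    · exact dd_one D m hm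
  have h2 : tay D (∏ i ∈ s, f i) = ∏ i ∈ s, tay D (f i) := by
    induction s using Finset.induction_on with
    | empty => simpa using h1
    | insert a s ha ih => rw [Finset.prod_insert ha, Finset.prod_insert ha, h, ih]
  rw [← coeff_tay, h2, PowerSeries.coeff_prod]
  simp only [coeff_tay]

/-- Divided powers of a Jacobian determinant. -/
theorem dd_jacD {n : ℕ} (E : Fin n → Derivation k K K) (D : Derivation k K K)
    (hED : ∀ j f, D (E j f) = E j (D f)) (m : ℕ) (f : Fin n → K) :
    dd D m (jacD E f) = ∑ l ∈ finsuppAntidiag (Finset.univ : Finset (Fin n)) m,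
      jacD E (fun i => dd D (l i) (f i)) := by
  simp only [jacD, Matrix.det_apply, Matrix.of_apply]
  rw [dd_sum, Finset.sum_comm]
  refine Finset.sum_congr rfl fun σ _ => ?_
  have h : ∀ x : K, dd D m (Equiv.Perm.sign σ • x) = Equiv.Perm.sign σ • dd D m x := by
    intro x
    rcases Int.units_eq_one_or (Equiv.Perm.sign σ) with h | h <;> rw [h] <;> simp [dd_neg]
  rw [h, dd_prod, ← Finset.smul_sum]
  congr 1
  refine Finset.sum_congr rfl fun l _ => Finset.prod_congr rfl fun i _ => ?_
  exact (D_dd_comm D (E (σ i)) (hED (σ i)) (l i) (f i)).symm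

end Pool.Agent.H15JM
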